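import Pool.Agent.Y205.MD.Bd
import Pool.Agent.Y205.MD.Cls

/-! **All vectors** with multiplicities at most `μ` and sum at least `150 μ ^ 3`. -/

set_option autoImplicit false

namespace Pool.Agent.Y205.MD

open Finset Pool.Agent.TH176.Nag Pool.Agent.TH603.Sur H932R3

theorem choose_three (k : ℕ) : 6 * (k + 2).choose 3 = k * (k + 1) * (k + 2) := by
  induction k with
  | zero => rfl
  | succ k ih =>
    have h1 : (k + 1 + 2).choose 3 = (k + 2).choose 2 + (k + 2).choose 3 :=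
      Nat.choose_succ_succ' (k + 2) 2
    have h2 : 2 * (k + 2).choose 2 = (k + 1) * (k + 2) := Pool.Agent.TH2.NU.two_choose (k + 1)
    rw [h1, mul_add, ih]
    have h3 : 6 * (k + 2).choose 2 = 3 * ((k + 1) * (k + 2)) := by omega
    rw [h3]
    ring

theorem gap_le {μ : ℕ} (hμ : 1 ≤ μ) : 3 * (2 * (μ + 1).choose 3) ≤ μ ^ 3 := by
  obtain ⟨k, rfl⟩ : ∃ k, μ = k + 1 := ⟨μ - 1, by omega⟩
  have h := choose_three k
  have e : (k + 1 + 1).choose 3 = (k + 2).choose 3 := rfl
  rw [e]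
  have h2 : 3 * (2 * (k + 2).choose 3) = k * (k + 1) * (k + 2) := by omega
  rw [h2]
  have e2 : (k + 1) ^ 3 = k * (k + 1) * (k + 2) + (k + 1) := by ring
  omega

theorem sum_shift (k : ℕ) : 2 * ∑ i : Fin k, ((i : ℕ) + 2) = k * (k + 3) := by
  induction k with
  | zero => simp
  | succ k ih =>
    rw [Fin.sum_univ_castSucc]
    simp only [Fin.val_castSucc, Fin.val_last]
    rw [mul_add, ih]
    ring

/-- **The critical degrees** of an arbitrary vector with many conditions. -/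
theorem crit_all {n : ℕ} {w : Fin n → ℕ} {μ : ℕ} (hμ : 2 ≤ μ) (hw : ∀ i, w i ≤ μ)
    (hL : 150 * μ ^ 3 ≤ ∑ i, w i) {d : ℕ}
    (hT1 : d * (d + 1) < 2 * ∑ p, (w p + 1).choose 2)
    (hT2 : 2 * ∑ p, (w p + 1).choose 2 ≤ (d + 2) * (d + 3)) :
    ((d + 2).choose 2 ≤ ∑ p, (w p + 1).choose 2 → Emp w (TZ d)) ∧
      (∑ p, (w p + 1).choose 2 ≤ (d + 2).choose 2 → Sur w (TZ d)) := by
  classical
  obtain ⟨T, hT⟩ : ∃ T, T = ∑ p, (w p + 1).choose 2 := ⟨_, rfl⟩
  obtain ⟨L, hLd⟩ : ∃ L, L = ∑ p, w p := ⟨_, rfl⟩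
  obtain ⟨N1, hN1⟩ : ∃ N1, N1 = ∑ p, if w p = 1 then 1 else 0 := ⟨_, rfl⟩
  obtain ⟨g, hg⟩ : ∃ g, g = 2 * (μ + 1).choose 3 := ⟨_, rfl⟩
  have hg3 : 3 * g ≤ μ ^ 3 := by rw [hg]; exact gap_le (by omega)
  rw [← hLd] at hL
  rw [← hT] at hT1 hT2
  have hcd : 2 * (d + 2).choose 2 = (d + 1) * (d + 2) := Pool.Agent.TH2.NU.two_choose (d + 1)
  have hch : ∀ x : ℕ, 2 * (x + 1).choose 2 = x * (x + 1) := fun x =>
    Pool.Agent.TH2.NU.two_choose x
  have hTL : 2 * T ≤ (μ + 1) * L := by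
    rw [hT, hLd, mul_sum, mul_sum]
    refine sum_le_sum fun p _ => ?_
    rw [hch, Nat.mul_comm (w p)]
    exact Nat.mul_le_mul_right _ (by have := hw p; omega)
  have hTL3 : 3 * L ≤ 2 * T + N1 := by
    rw [hT, hLd, hN1, mul_sum, mul_sum, ← sum_add_distrib]
    refine sum_le_sum fun p _ => ?_
    rw [hch]
    rcases Nat.lt_or_ge (w p) 2 with h | h
    · have : w p = 0 ∨ w p = 1 := by omega
      rcases this with h0 | h0
      · rw [h0]; simp
      · rw [h0]; simp
    · rw [if_neg (by omega)]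
      have h2 := Nat.mul_le_mul_left (w p) (show 3 ≤ w p + 1 by omega)
      omega
  have hN1L : N1 ≤ L := by
    rw [hN1, hLd]
    refine sum_le_sum fun p _ => ?_
    split_ifs with h
    · omega
    · exact Nat.zero_le _
  -- real numbers
  have hx2 : (2 : ℝ) ≤ μ := by exact_mod_cast hμ
  have hx0 : (0 : ℝ) < μ := by linarith
  have rL : 150 * (μ : ℝ) ^ 3 ≤ L := by exact_mod_cast hL
  have rg : 3 * (g : ℝ) ≤ (μ : ℝ) ^ 3 := by exact_mod_cast hg3
  have rT1 : (d : ℝ) * (d + 1) < 2 * T := by exact_mod_cast hT1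
  have rT2 : 2 * (T : ℝ) ≤ (d + 2) * (d + 3) := by exact_mod_cast hT2
  have rTL : 2 * (T : ℝ) ≤ (μ + 1) * L := by exact_mod_cast hTL
  have rTL3 : 3 * (L : ℝ) ≤ 2 * T + N1 := by exact_mod_cast hTL3
  have rN1L : (N1 : ℝ) ≤ L := by exact_mod_cast hN1L
  have hx3 : (8 : ℝ) ≤ (μ : ℝ) ^ 3 := by
    have := pow_le_pow_left₀ (by norm_num) hx2 3
    linarith
  have hx12 : 2 * (μ : ℝ) ≤ (μ : ℝ) ^ 2 := by
    have := mul_le_mul_of_nonneg_right hx2 hx0.le
    linarith
  have hx23 : 2 * (μ : ℝ) ^ 2 ≤ (μ : ℝ) ^ 3 := by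
    have := mul_le_mul_of_nonneg_right hx2 (sq_nonneg (μ : ℝ))
    linarith
  have hx13 : 4 * (μ : ℝ) ≤ (μ : ℝ) ^ 3 := by linarith
  have hx22 : 4 ≤ (μ : ℝ) ^ 2 := by linarith
  have hL0 : (0 : ℝ) < L := by linarith
  have rd : (d : ℝ) ≤ L / 20 := by
    by_contra hcon
    push Not at hcon
    have h1 : (L / 20 : ℝ) * (L / 20) < d * d := by
      apply mul_lt_mul'' hcon hcon <;> positivity
    have h2 : (d : ℝ) * d ≤ 3 / 2 * μ * L := by
      have h3 : (μ + 1 : ℝ) * L ≤ (3 / 2 * μ) * L := mul_le_mul_of_nonneg_right (by linarith) hL0.le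
      linarith
    have h3 : (L / 20 : ℝ) * (L / 20) ≥ 3 / 2 * μ * L := by
      have h4 : 600 * (μ : ℝ) ≤ L := by linarith
      have h5 : 600 * (μ : ℝ) * L ≤ L * L := mul_le_mul_of_nonneg_right h4 hL0.le
      linarith
    linarith
  have rdd : (d + 1 : ℝ) * (d + 2) = (d + 2) * (d + 3) - 2 * (d + 2) := by ring
  rw [← hT]
  rcases Nat.lt_or_ge N1 (g + d + 2) with hcase | hcase
  · -- clusters
    have rN : (N1 : ℝ) < g + d + 2 := by exact_mod_cast hcase
    -- the values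
    obtain ⟨r, hr⟩ : ∃ r, r = μ - 1 := ⟨_, rfl⟩
    obtain ⟨S, hS⟩ : ∃ S : Finset (Fin n), S = univ.filter fun p => 2 ≤ w p := ⟨_, rfl⟩
    have hmemS : ∀ p, p ∈ S ↔ 2 ≤ w p := fun p => by rw [hS]; simp
    obtain ⟨m, hm⟩ : ∃ m : Fin r → ℕ, ∀ i, m i = i + 2 := ⟨_, fun _ => rfl⟩
    have hinj : Function.Injective m := by
      intro i j hij
      rw [hm, hm] at hij
      exact Fin.ext (by omega)
    have hm2 : ∀ p ∈ S, ∃ i, m i = w p := by
      intro p hp
      rw [hmemS] at hp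
      have := hw p
      exact ⟨⟨w p - 2, by omega⟩, by rw [hm]; simp only; omega⟩
    have hmμ : ∀ i, m i ≤ μ := by
      intro i
      rw [hm]
      have := i.2
      omega
    have hm1 : ∀ i, 2 ≤ m i := by
      intro i
      rw [hm]
      omega
    obtain ⟨N, hN⟩ : ∃ N : Fin r → ℕ, ∀ i, N i = (S.filter fun p => w p = m i).card :=
      ⟨_, fun _ => rfl⟩
    obtain ⟨a0, ha0⟩ : ∃ a0, a0 = L / (21 * μ ^ 2) + 1 := ⟨_, rfl⟩
    obtain ⟨A, hA⟩ : ∃ A : Fin r → ℕ, ∀ i, A i = if a0 ≤ N i / 8 then N i / 8 else 0 :=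
      ⟨_, fun _ => rfl⟩
    have hAN : ∀ i, 8 * A i ≤ N i := by
      intro i
      rw [hA]
      split_ifs <;> omega
    have hNA : ∀ i, N i ≤ 8 * A i + (8 * a0 + 7) := by
      intro i
      rw [hA]
      split_ifs <;> omega
    have hsumS : ∀ f : ℕ → ℕ, ∑ p ∈ S, f (w p) = ∑ i, N i * f (m i) := by
      intro f
      rw [sum_classes hinj hm2 f]
      exact sum_congr rfl fun i _ => by rw [hN]
    -- the model
    obtain ⟨σ, hσ⟩ := exists_equiv_of_sum
      (f := (Sum.elim (fun p : (Σ i, Fin (A i)) × (Fin 2 × Fin 2) => m p.1.1)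
        (Sum.elim (fun z : Σ i, Fin (N i - 4 * A i) => m z.1) (fun p : {p // p ∈ Sᶜ} => w p)) :
        ((Σ i, Fin (A i)) × (Fin 2 × Fin 2)) ⊕
          ((Σ i, Fin (N i - 4 * A i)) ⊕ {p // p ∈ Sᶜ}) → ℕ))
      (g := w) (by
        intro f
        have e1 : ∑ p, f (w p) = ∑ p ∈ S, f (w p) + ∑ p ∈ Sᶜ, f (w p) :=
          (sum_add_sum_compl S fun p => f (w p)).symm
        have e2 : ∑ p : {p // p ∈ Sᶜ}, f (w p) = ∑ p ∈ Sᶜ, f (w p) :=
          sum_coe_sort Sᶜ fun p => f (w p)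
        rw [e1, hsumS, Fintype.sum_sum_type, Fintype.sum_sum_type]
        simp only [Sum.elim_inl, Sum.elim_inr]
        rw [e2, Fintype.sum_prod_type, Fintype.sum_sigma, Fintype.sum_sigma, ← add_assoc,
          ← sum_add_distrib]
        congr 1
        refine sum_congr rfl fun i _ => ?_
        simp only [sum_const, card_univ, Fintype.card_fin, Fintype.card_prod, smul_eq_mul]
        have h1 := hAN i
        obtain ⟨c, hc⟩ : ∃ c, N i = 4 * A i + c := ⟨N i - 4 * A i, by omega⟩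
        rw [hc, Nat.add_sub_cancel_left]
        ring)
    have hL2 : L = ∑ i, N i * m i + N1 := by
      have e1 : ∑ p, w p = ∑ p ∈ S, w p + ∑ p ∈ Sᶜ, w p := (sum_add_sum_compl S fun p => w p).symm
      rw [hLd, e1, hsumS fun x => x]
      congr 1
      have e2 : ∑ p ∈ S, (if w p = 1 then 1 else 0) = 0 :=
        sum_eq_zero fun p hp => if_neg (by rw [hmemS] at hp; omega)
      have e3 : N1 = ∑ p ∈ Sᶜ, if w p = 1 then 1 else 0 := by
        rw [hN1, ← sum_add_sum_compl S, e2, zero_add]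
      rw [e3]
      refine sum_congr rfl fun p hp => ?_
      rw [mem_compl, hmemS] at hp
      split_ifs with h
      · exact h
      · omega
    obtain ⟨L2, hL2d⟩ : ∃ L2, L2 = ∑ i, N i * m i := ⟨_, rfl⟩
    rw [← hL2d] at hL2
    have rL2 : (L : ℝ) = L2 + N1 := by rw [hL2]; push_cast; ring
    obtain ⟨t, ht⟩ : ∃ t, t = ∑ j, m j * A j := ⟨_, rfl⟩
    have ht8 : 8 * t ≤ L2 := by
      rw [ht, hL2d, mul_sum]
      refine sum_le_sum fun i _ => ?_
      have := Nat.mul_le_mul_right (m i) (hAN i)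
      calc 8 * (m i * A i) = 8 * A i * m i := by ring
        _ ≤ _ := this
    have hSs : 4 * ∑ i, m i ≤ 3 * μ ^ 2 := by
      have h1 : 2 * ∑ i, m i = r * (r + 3) := by
        rw [← sum_shift r]
        congr 1
        exact sum_congr rfl fun i _ => hm i
      obtain ⟨k, hk⟩ : ∃ k, μ = k + 2 := ⟨μ - 2, by omega⟩
      have h2 : r = k + 1 := by omega
      obtain ⟨s, hs⟩ : ∃ s, s = ∑ i, m i := ⟨_, rfl⟩
      rw [← hs] at h1 ⊢
      rw [hk]
      have h3 : 4 * s = 2 * (r * (r + 3)) := by omega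
      rw [h3, h2]
      have e2 : 3 * (k + 2) ^ 2 = 2 * ((k + 1) * (k + 1 + 3)) + (k * k + 2 * k + 4) := by ring
      omega
    have ht8' : L2 ≤ 8 * t + (8 * a0 + 7) * ∑ i, m i := by
      rw [ht, hL2d, mul_sum, mul_sum, ← sum_add_distrib]
      refine sum_le_sum fun i _ => ?_
      calc N i * m i ≤ (8 * A i + (8 * a0 + 7)) * m i := Nat.mul_le_mul_right _ (hNA i)
        _ = _ := by ring
    have hD0 : 0 < 21 * μ ^ 2 := by positivity
    have ha1 : L ≤ 21 * μ ^ 2 * a0 := by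
      rw [ha0, mul_add, mul_one]
      have := Nat.div_add_mod L (21 * μ ^ 2)
      have := Nat.mod_lt L hD0
      omega
    have ha2 : 21 * μ ^ 2 * a0 ≤ L + 21 * μ ^ 2 := by
      rw [ha0, mul_add, mul_one]
      have := Nat.mul_div_le L (21 * μ ^ 2)
      omega
    have rt8 : 8 * (t : ℝ) ≤ L2 := by exact_mod_cast ht8
    have rt8' : (L2 : ℝ) ≤ 8 * t + (8 * a0 + 7) * ((∑ i, m i : ℕ) : ℝ) := by
      have : ((L2 : ℕ) : ℝ) ≤ ((8 * t + (8 * a0 + 7) * ∑ i, m i : ℕ) : ℝ) := by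
        exact_mod_cast ht8'
      push_cast at this ⊢
      exact this
    have rS : 4 * ((∑ i, m i : ℕ) : ℝ) ≤ 3 * (μ : ℝ) ^ 2 := by exact_mod_cast hSs
    have ra2 : 21 * (μ : ℝ) ^ 2 * a0 ≤ L + 21 * (μ : ℝ) ^ 2 := by exact_mod_cast ha2
    have hlost : (8 * (a0 : ℝ) + 7) * ((∑ i, m i : ℕ) : ℝ) ≤ 2 / 7 * L + 45 / 4 * (μ : ℝ) ^ 2 := by
      have h1 : (8 * (a0 : ℝ) + 7) * ((∑ i, m i : ℕ) : ℝ) ≤ (8 * a0 + 7) * (3 / 4 * (μ : ℝ) ^ 2) :=
        mul_le_mul_of_nonneg_left (by linarith) (by positivity)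
      linarith
    -- size
    have hsqrt : √(((4 * μ : ℕ) : ℝ)) ≤ 17 / 12 * μ := by
      rw [Real.sqrt_le_left (by positivity)]
      push_cast
      have e2 : (17 / 12 * (μ : ℝ)) ^ 2 = 289 / 144 * (μ : ℝ) ^ 2 := by ring
      rw [e2]
      linarith
    have hsize : (((4 * μ : ℕ) : ℝ)) * (((4 * μ : ℕ) : ℝ) + 1) *
        (((4 * μ : ℕ) : ℝ) + 6 * √(((4 * μ : ℕ) : ℝ)) + 10) ≤ (((d + 1) * (d + 2) : ℕ) : ℝ) := by
      have h1 : (((4 * μ : ℕ) : ℝ)) * (((4 * μ : ℕ) : ℝ) + 1) *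
        (((4 * μ : ℕ) : ℝ) + 6 * √(((4 * μ : ℕ) : ℝ)) + 10) ≤ (18 * (μ : ℝ) ^ 2) *
          (35 / 2 * μ) := by
        apply mul_le_mul
        · push_cast
          linarith
        · push_cast at hsqrt ⊢
          linarith
        · positivity
        · positivity
      refine h1.trans ?_
      push_cast
      rw [rdd]
      have h2 : 18 * (μ : ℝ) ^ 2 * (35 / 2 * μ) = 315 * (μ : ℝ) ^ 3 := by ring
      rw [h2]
      linarith
    have key := bd_exact (A := A) (m := m) (e := Sum.elim (fun z : Σ i, Fin (N i - 4 * A i) =>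
      m z.1) (fun p : {p // p ∈ Sᶜ} => w p)) (q := μ) (M := 4 * μ) (d := d) (by
        by_contra hcon
        push Not at hcon
        have : t = 0 := by
          rw [ht]
          exact sum_eq_zero fun i _ => by rw [Nat.le_zero.1 (hcon i), mul_zero]
        rw [this] at rt8'
        push_cast at rt8' hlost
        linarith) (fun i => by have := hm1 i; omega) (by omega) (by omega) (by
        rintro (z | p)
        · exact hmμ z.1
        · exact hw p) (fun i => by have := hmμ i; omega) (by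
        intro i hi
        have hai : a0 ≤ A i := by
          rw [hA] at hi ⊢
          split_ifs at hi ⊢ with h
          · exact h
          · omega
        rw [← ht]
        have rai : (a0 : ℝ) ≤ A i := by exact_mod_cast hai
        have rmi : (m i : ℝ) ≤ μ := by exact_mod_cast hmμ i
        have ra1 : (L : ℝ) ≤ 21 * (μ : ℝ) ^ 2 * a0 := by exact_mod_cast ha1
        have h1 : (4 * (t : ℝ) + A i * ((2 * m i + 1) * (2 * m i + 2))) ≤
            A i * (4 * μ * (4 * μ + 1)) := by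
          have h2 : (2 * (m i : ℝ) + 1) * (2 * m i + 2) ≤ (2 * μ + 1) * (2 * μ + 2) := by
            gcongr
          have h3 : (A i : ℝ) * ((2 * m i + 1) * (2 * m i + 2)) ≤
              A i * ((2 * μ + 1) * (2 * μ + 2)) :=
            mul_le_mul_of_nonneg_left h2 (Nat.cast_nonneg _)
          have h4 : (A i : ℝ) * ((2 * μ + 1) * (2 * μ + 2)) + A i * (21 / 2 * (μ : ℝ) ^ 2) ≤
              A i * (4 * μ * (4 * μ + 1)) := by
            rw [← mul_add]
            apply mul_le_mul_of_nonneg_left _ (Nat.cast_nonneg _)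
            linarith
          have h5 : 21 * (μ : ℝ) ^ 2 * a0 ≤ 21 * (μ : ℝ) ^ 2 * A i :=
            mul_le_mul_of_nonneg_left rai (by positivity)
          have h6 : (L2 : ℝ) ≤ L := by
            rw [rL2]
            have : (0 : ℝ) ≤ N1 := Nat.cast_nonneg _
            linarith
          linarith
        exact_mod_cast h1) (by
        have hmin : min 2 μ = 2 := by omega
        rw [hmin, Fintype.sum_sum_type]
        simp only [Sum.elim_inl, Sum.elim_inr]
        refine le_trans ?_ (Nat.le_add_right _ _)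
        have e1 : ∑ z : Σ i, Fin (N i - 4 * A i), (if 2 ≤ m z.1 then m z.1 * (m z.1 + 1) else 0) =
            ∑ i, (N i - 4 * A i) * (m i * (m i + 1)) := by
          rw [Fintype.sum_sigma]
          refine sum_congr rfl fun i _ => ?_
          simp [hm1 i]
        rw [e1]
        have e2 : 3 * L2 ≤ 2 * ∑ i, (N i - 4 * A i) * (m i * (m i + 1)) := by
          rw [hL2d, mul_sum, mul_sum]
          refine sum_le_sum fun i _ => ?_
          have h1 : N i ≤ 2 * (N i - 4 * A i) := by have := hAN i; omega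
          have h2 : 3 * m i ≤ m i * (m i + 1) := by
            have := hm1 i
            rw [Nat.mul_comm]
            exact Nat.mul_le_mul_left _ (by omega)
          calc 3 * (N i * m i) = N i * (3 * m i) := by ring
            _ ≤ (2 * (N i - 4 * A i)) * (m i * (m i + 1)) := Nat.mul_le_mul h1 h2
            _ = _ := by ring
        have h3 : 2 * (2 * ((4 * (μ : ℝ)) * (4 * μ + 1) * (4 * μ + 2))) ≤ 3 * (L2 : ℝ) := by
          have h4 : (4 * (μ : ℝ)) * (4 * μ + 1) * (4 * μ + 2) ≤ 90 * (μ : ℝ) ^ 3 := by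
            have h5 : (4 * (μ : ℝ)) * (4 * μ + 1) * (4 * μ + 2) ≤
                (4 * μ) * (9 / 2 * μ) * (5 * μ) := by
              gcongr <;> linarith
            calc _ ≤ _ := h5
              _ = _ := by ring
          linarith
        have h4 : 2 * (2 * (4 * μ * (4 * μ + 1) * (4 * μ + 2))) ≤ 3 * L2 := by exact_mod_cast h3
        omega) (by
        rw [← ht, ← hg]
        have h1 : (g : ℝ) + d + 2 + 4 * μ ≤ t := by linarith
        exact_mod_cast h1) hsize (T := T) (by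
        rw [hT, ← Equiv.sum_comp σ fun p => (w p + 1).choose 2]
        simp only [← hσ]
        rw [Fintype.sum_sum_type]
        simp only [Sum.elim_inl, Sum.elim_inr]
        rw [Fintype.sum_prod_type, Fintype.sum_sigma]
        congr 1
        refine sum_congr rfl fun i _ => ?_
        simp only [sum_const, card_univ, Fintype.card_fin, Fintype.card_prod, smul_eq_mul]
        ring) hT1 hT2
    exact ⟨fun h => Emp_equiv σ hσ (key.1 h), fun h => Sur_equiv σ hσ (key.2 h)⟩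
  · -- many simple points
    obtain ⟨F, hF, hF'⟩ := H932R7.bounded2 ℚ (w := w) (m := μ) (k := μ) (by omega) le_rfl hw
      (fun i hi => absurd (hw i) (by omega))
    have hsqrt : √(μ : ℝ) ≤ 17 / 24 * μ := by
      rw [Real.sqrt_le_left (by positivity)]
      have e2 : (17 / 24 * (μ : ℝ)) ^ 2 = 289 / 576 * (μ : ℝ) ^ 2 := by ring
      rw [e2]
      linarith
    have hsize : (μ : ℝ) * (μ + 1) * (μ + 6 * Real.sqrt μ + 10) ≤
        ((max ((d + 1) * (d + 2)) (∑ i, (w i + 1).choose 2) : ℕ) : ℝ) := by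
      have h1 : (μ : ℝ) * (μ + 1) * (μ + 6 * √(μ : ℝ) + 10) ≤ (3 / 2 * (μ : ℝ) ^ 2) *
          (41 / 4 * μ) := by
        apply mul_le_mul
        · linarith
        · linarith
        · positivity
        · positivity
      refine h1.trans (le_trans ?_ (Nat.cast_le.2 (le_max_left _ _)))
      push_cast
      rw [rdd]
      have h2 : 3 / 2 * (μ : ℝ) ^ 2 * (41 / 4 * μ) = 123 / 8 * (μ : ℝ) ^ 3 := by ring
      rw [h2]
      linarith
    have h1 := TH545.SD.emp_sur_of_expDim (w := w) (d := d)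
      ⟨F, hF, fun P hP => hF' P hP d ⟨hsize, Or.inr (Or.inl (by
        rw [← hg]
        have e1 : T = ∑ i ∈ univ.filter (fun i => w i ≠ 1), (w i + 1).choose 2 + N1 := by
          rw [hT, hN1, ← sum_filter_add_sum_filter_not univ (fun i => w i ≠ 1)]
          congr 1
          rw [← sum_filter]
          have e2 : (univ.filter fun x => ¬ w x ≠ 1) = univ.filter fun x => w x = 1 := by
            ext x
            simp
          rw [e2]
          refine sum_congr rfl fun x hx => ?_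
          rw [(mem_filter.1 hx).2]
          rfl
        have e3 : (d + 2) * (d + 3) = (d + 1) * (d + 2) + 2 * (d + 2) := by ring
        omega))⟩⟩
    rw [hT]
    exact h1

end Pool.Agent.Y205.MD
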