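import Pool.Agent.Y205.MD.Gen
import Pool.Agent.Y205.MD.AllV

/-! Independence for smaller multiplicities, and all degrees from the critical ones. -/

set_option autoImplicit false

namespace Pool.Agent.Y205.MD

open Finset Module Pool.Agent.TH176.Nag Pool.Agent.TH603.Sur H932R3
open Pool.Agent.TH387.SH (TF coe_TF card_TF)
open Pool.Agent.TH745.MN (TZ_mono Sur_drop)

section
variable {ι : Type} [DecidableEq ι]

theorem crk_drop [Finite ι] {S : Finset (ℤ × ℤ)} (hpos : ∀ u ∈ S, 0 ≤ u.1 ∧ 0 ≤ u.2) (s : ι → ℕ)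
    (q : ι) (l : ℕ) :
    crk S (Function.update s q l) ≤ crk S (Function.update s q (l + 1)) + (l + 1) := by
  have hfd := fun w : ι → ℕ => GS_fd S w
  have h0 := Pool.Agent.TH552.BB.finrank_split (phi q l) (GS S (Function.update s q l))
  rw [GS_ker] at h0
  simp only [finrank_GS hpos] at h0
  have h1 : finrank (GK ι) ↥((GS S (Function.update s q l)).map (phi q l)) ≤ l + 1 := by
    refine (Submodule.finrank_le _).trans (le_of_eq ?_)
    rw [finrank_fin_fun]
  omega

/-- raising of multiplicities -/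
theorem crk_cond [Fintype ι] {S : Finset (ℤ × ℤ)} (hpos : ∀ u ∈ S, 0 ≤ u.1 ∧ 0 ≤ u.2)
    (N : ℕ) : ∀ {w v : ι → ℕ}, (∀ i, w i ≤ v i) → ∑ i, v i ≤ ∑ i, w i + N →
      crk S w + cond w ≤ crk S v + cond v := by
  induction N with
  | zero =>
    intro w v h hs
    have : w = v := by
      by_contra hne
      have hex : ∃ i, w i < v i := by
        by_contra hcon
        push Not at hcon
        exact hne (funext fun i => le_antisymm (h i) (hcon i))
      obtain ⟨i, hi⟩ := hex
      have := sum_lt_sum (fun i _ => h i) ⟨i, mem_univ i, hi⟩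
      omega
    rw [this]
  | succ N ih =>
    intro w v h hs
    by_cases hex : ∃ i, w i < v i
    · obtain ⟨q, hq⟩ := hex
      obtain ⟨w', hw'⟩ : ∃ w' : ι → ℕ, w' = Function.update w q (w q + 1) := ⟨_, rfl⟩
      have e0 : w' q = w q + 1 := by rw [hw', Function.update_self]
      have e1 : ∀ i, i ≠ q → w' i = w i := fun i hi => by rw [hw', Function.update_of_ne hi]
      have h1 : ∀ i, w' i ≤ v i := by
        intro i
        by_cases hi : i = q
        · subst hi
          rw [e0]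
          exact hq
        · rw [e1 i hi]
          exact h i
      have s1 : ∑ i, w' i = ∑ i, w i + 1 := by
        rw [← add_sum_erase _ _ (mem_univ q), ← add_sum_erase _ w (mem_univ q), e0]
        have : ∑ x ∈ univ.erase q, w' x = ∑ x ∈ univ.erase q, w x :=
          sum_congr rfl fun z hz => e1 z (ne_of_mem_erase hz)
        rw [this]
        omega
      have s2 : cond w' = cond w + (w q + 1) := by
        unfold Pool.Agent.TH603.Sur.cond
        rw [← add_sum_erase _ _ (mem_univ q), ← add_sum_erase _ (fun i => (w i + 1).choose 2)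
          (mem_univ q)]
        have g1 : ∑ x ∈ univ.erase q, (w' x + 1).choose 2 =
            ∑ x ∈ univ.erase q, (w x + 1).choose 2 :=
          sum_congr rfl fun z hz => by rw [e1 z (ne_of_mem_erase hz)]
        rw [g1, e0]
        have g2 := choose_succ_two (w q)
        omega
      have h2 := ih h1 (by omega)
      have h3 := crk_drop hpos w q (w q)
      rw [Function.update_eq_self, ← hw'] at h3
      omega
    · push Not at hex
      have : w = v := funext fun i => le_antisymm (h i) (hex i)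
      rw [this]

/-- **Independence for smaller multiplicities.** -/
theorem Sur_le [Fintype ι] {S : Finset (ℤ × ℤ)} (hpos : ∀ u ∈ S, 0 ≤ u.1 ∧ 0 ≤ u.2)
    {w v : ι → ℕ} (h : ∀ i, w i ≤ v i) (hS : Sur v (↑S : Set (ℤ × ℤ))) :
    Sur w (↑S : Set (ℤ × ℤ)) := by
  have h1 := crk_of_Sur hS
  have h2 := crk_cond hpos (∑ i, v i) h (by omega)
  obtain ⟨T, hT, hTc, hTE⟩ := crk_spec S w
  obtain ⟨T0, g1, g2⟩ := exists_subset_card_eq (s := T) (n := cond w) (by omega)
  exact ⟨T0, by exact_mod_cast g1.trans hT, g2, hTE.mono (by exact_mod_cast g1)⟩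

end

/-- **Emptiness and independence in every degree**, from the critical ones. -/
theorem gd_of_crit {ι : Type} [Fintype ι] {w : ι → ℕ} {T : ℕ} (hpos : 0 < T)
    (h : ∀ d, d * (d + 1) < 2 * T → 2 * T ≤ (d + 2) * (d + 3) →
      ((d + 2).choose 2 ≤ T → Emp w (TZ d)) ∧ (T ≤ (d + 2).choose 2 → Sur w (TZ d))) (d : ℕ) :
    ((d + 2).choose 2 ≤ T → Emp w (TZ d)) ∧ (T ≤ (d + 2).choose 2 → Sur w (TZ d)) := by
  have hc : ∀ d : ℕ, 2 * (d + 2).choose 2 = (d + 1) * (d + 2) := fun d =>
    Pool.Agent.TH2.NU.two_choose (d + 1)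
  have hb : ∀ e, (e + 2).choose 2 ≤ T → e ≤ T := fun e he => by
    have h1 : (e + 2).choose 2 = (e + 1).choose 2 + (e + 1) := choose_succ_two e
    omega
  constructor
  · intro hd
    obtain ⟨e, he⟩ : ∃ e, e = Nat.findGreatest (fun e => (e + 2).choose 2 ≤ T) T := ⟨_, rfl⟩
    have h1 : (e + 2).choose 2 ≤ T := by
      rw [he]
      exact Nat.findGreatest_spec (P := fun e => (e + 2).choose 2 ≤ T) (hb d hd) hd
    have h2 : d ≤ e := by
      rw [he]
      exact Nat.le_findGreatest (hb d hd) hd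
    have h3 : ¬ (e + 1 + 2).choose 2 ≤ T := by
      intro hcon
      have : e + 1 ≤ e := by
        conv_rhs => rw [he]
        exact Nat.le_findGreatest (hb _ hcon) hcon
      omega
    have h4 := hc e
    have h5 := hc (e + 1)
    have h6 : e * (e + 1) < (e + 1) * (e + 2) := by nlinarith
    exact Emp.mono ((h e (by omega) (by
      have : (e + 1 + 1) * (e + 1 + 2) = (e + 2) * (e + 3) := by ring
      omega)).1 h1) (TZ_mono h2)
  · intro hd
    have hex : ∃ e, T ≤ (e + 2).choose 2 := ⟨d, hd⟩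
    obtain ⟨e, he⟩ : ∃ e, e = Nat.find hex := ⟨_, rfl⟩
    have h1 : T ≤ (e + 2).choose 2 := by rw [he]; exact Nat.find_spec hex
    have h2 : e ≤ d := by rw [he]; exact Nat.find_min' hex hd
    have h4 := hc e
    refine Sur.mono ((h e ?_ ?_).2 h1) (TZ_mono h2)
    · rcases Nat.eq_zero_or_pos e with h0 | h0
      · rw [h0]; omega
      · have h3 := Nat.find_min hex (m := e - 1) (by omega)
        have h5 := hc (e - 1)
        have e1 : e - 1 + 1 = e := by omega
        have e2 : e - 1 + 2 = e + 1 := by omega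
        rw [e1, e2] at h5
        rw [e2] at h3
        omega
    · have : (e + 1) * (e + 2) ≤ (e + 2) * (e + 3) := by nlinarith
      omega

/-- **All vectors.** -/
theorem all_vectors {n : ℕ} {w : Fin n → ℕ} {μ : ℕ} (hμ : 2 ≤ μ) (hw : ∀ i, w i ≤ μ) :
    ∃ F : MvPolynomial (Fin n × Fin 2) ℚ, F ≠ 0 ∧ ∀ {L : Type} [Field L] [CharZero L]
      (P : Fin n → Fin 2 → L), MvPolynomial.aeval (fun ij : Fin n × Fin 2 => P ij.1 ij.2) F ≠ 0 →
      ∀ d, (150 * μ ^ 3 ≤ ∑ i, w i ∨ 15 * μ ^ 2 ≤ d) → ExpDim L w P d := by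
  classical
  by_cases hL : 150 * μ ^ 3 ≤ ∑ i, w i
  · obtain ⟨F, hF, hF'⟩ := expDim_of_crit (w := w) (by
      have h1 : ∑ i, w i ≤ ∑ i, (w i + 1).choose 2 := by
        refine sum_le_sum fun i _ => ?_
        have h2 : 2 * (w i + 1).choose 2 = w i * (w i + 1) := Pool.Agent.TH2.NU.two_choose (w i)
        nlinarith
      have h2 : 0 < μ ^ 3 := by positivity
      omega) (fun d h1 h2 => crit_all hμ hw hL h1 h2)
    exact ⟨F, hF, fun {L} _ _ P hP d _ => hF' P hP d⟩
  · push Not at hL
    -- more points of multiplicity `μ`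
    obtain ⟨K, hK1, hK2⟩ : ∃ K : ℕ, 150 * μ ^ 3 ≤ ∑ i, w i + K * μ ∧
        ∑ i, w i + K * μ < 150 * μ ^ 3 + μ := by
      refine ⟨(150 * μ ^ 3 - ∑ i, w i + (μ - 1)) / μ, ?_, ?_⟩
      · have h1 := Nat.div_add_mod (150 * μ ^ 3 - ∑ i, w i + (μ - 1)) μ
        have h2 := Nat.mod_lt (150 * μ ^ 3 - ∑ i, w i + (μ - 1)) (show 0 < μ by omega)
        rw [Nat.mul_comm] at h1
        omega
      · have h1 := Nat.div_mul_le_self (150 * μ ^ 3 - ∑ i, w i + (μ - 1)) μ
        omega
    obtain ⟨v, hv⟩ : ∃ v : Fin (n + K) → ℕ, v = Fin.append w (fun _ => μ) := ⟨_, rfl⟩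
    have hv1 : ∀ i, v (Fin.castAdd K i) = w i := fun i => by rw [hv, Fin.append_left]
    have hv2 : ∀ i, v (Fin.natAdd n i) = μ := fun i => by rw [hv, Fin.append_right]
    have hvμ : ∀ i, v i ≤ μ := by
      intro i
      refine Fin.addCases (fun i => ?_) (fun i => ?_) i
      · rw [hv1]; exact hw i
      · rw [hv2]
    have hsum : ∑ i, v i = ∑ i, w i + K * μ := by
      rw [Fin.sum_univ_add]
      simp only [hv1, hv2, sum_const, card_univ, Fintype.card_fin, smul_eq_mul]
    obtain ⟨T, hT⟩ : ∃ T, T = ∑ i, (v i + 1).choose 2 := ⟨_, rfl⟩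
    have hch : ∀ x : ℕ, 2 * (x + 1).choose 2 = x * (x + 1) := fun x =>
      Pool.Agent.TH2.NU.two_choose x
    have hT1 : 2 * T ≤ (μ + 1) * ∑ i, v i := by
      rw [hT, mul_sum, mul_sum]
      refine sum_le_sum fun p _ => ?_
      rw [hch, Nat.mul_comm (v p)]
      exact Nat.mul_le_mul_right _ (by have := hvμ p; omega)
    have hTpos : 0 < T := by
      have h1 : ∑ i, v i ≤ T := by
        rw [hT]
        refine sum_le_sum fun i _ => ?_
        have := hch (v i)
        nlinarith
      have h2 : 0 < μ ^ 3 := by positivity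
      omega
    have hgd := gd_of_crit (w := v) hTpos (fun d h1 h2 => by
      rw [hT] at h1 h2 ⊢
      exact crit_all hμ hvμ (by rw [hsum]; exact hK1) h1 h2) (15 * μ ^ 2)
    have hle : T ≤ (15 * μ ^ 2 + 2).choose 2 := by
      have h1 : 2 * (15 * μ ^ 2 + 2).choose 2 = (15 * μ ^ 2 + 1) * (15 * μ ^ 2 + 2) :=
        Pool.Agent.TH2.NU.two_choose (15 * μ ^ 2 + 1)
      have h2 : (μ + 1) * ∑ i, v i ≤ (μ + 1) * (150 * μ ^ 3 + μ) :=
        Nat.mul_le_mul_left _ (by omega)
      have h3 : (μ + 1) * (150 * μ ^ 3 + μ) ≤ (15 * μ ^ 2 + 1) * (15 * μ ^ 2 + 2) := by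
        obtain ⟨k, rfl⟩ : ∃ k, μ = k + 2 := ⟨μ - 2, by omega⟩
        nlinarith [Nat.zero_le (k ^ 4), Nat.zero_le (k ^ 3), Nat.zero_le (k ^ 2)]
      omega
    have hSv := hgd.2 hle
    have hSw : Sur w (TZ (15 * μ ^ 2)) := by
      rw [← coe_TF] at hSv
      have h1 := Sur_le (fun u hu => by
        have h1 : u ∈ TZ (15 * μ ^ 2) := by rw [← coe_TF]; exact mem_coe.2 hu
        exact ⟨h1.1, h1.2.1⟩) (w := Fin.append w (fun _ : Fin K => 0)) (v := v) (fun i => by
          refine Fin.addCases (fun i => ?_) (fun i => ?_) i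
          · rw [hv1, Fin.append_left]
          · rw [Fin.append_right]
            exact Nat.zero_le _) hSv
      rw [coe_TF] at h1
      refine Sur_drop (Fin.castAdd K) (Fin.castAdd_injective n K) (fun k => ?_) (fun i => ?_) h1
      · rw [Fin.append_left]
      · refine Fin.addCases (fun i _ => ⟨i, rfl⟩) (fun i hi => ?_) i
        rw [Fin.append_right] at hi
        exact absurd rfl hi
    obtain ⟨F, hF, hF'⟩ := indep_open hSw
    refine ⟨F, hF, fun {L} _ _ P hP d hd => hF' P hP d ?_⟩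
    rcases hd with hd | hd
    · omega
    · exact hd

end Pool.Agent.Y205.MD
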