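import Pool.Agent.Y205.MD.Num2
import Pool.Agent.Y205.MD.Final

/-! **The expected dimension in every degree**, without a bound for the ratios of the
multiplicities, and with some further points. -/

set_option autoImplicit false

namespace Pool.Agent.Y205.MD

open Finset Pool.Agent.TH176.Nag Pool.Agent.TH603.Sur H932R3

/-- a model from the sums -/
theorem exists_equiv_of_sum {α β : Type} [Fintype α] [Fintype β] {f : α → ℕ} {g : β → ℕ}
    (h : ∀ t : ℕ → ℕ, ∑ a, t (f a) = ∑ b, t (g b)) : ∃ σ : α ≃ β, ∀ a, f a = g (σ a) := by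
  classical
  apply exists_fib_equiv
  intro v
  rw [card_fib, card_fib]
  exact h fun y => if y = v then 1 else 0

/-- the classes of a vector, on a subset -/
theorem exists_classes' {ι : Type} [DecidableEq ι] (w : ι → ℕ) (S : Finset ι) :
    ∃ (r : ℕ) (m : Fin r → ℕ), r = (S.image w).card ∧ Function.Injective m ∧
      (∀ i, ∃ j ∈ S, w j = m i) ∧ ∀ j ∈ S, ∃ i, m i = w j := by
  obtain ⟨e, he⟩ : ∃ e : Fin (S.image w).card ≃ {x // x ∈ S.image w}, True :=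
    ⟨(S.image w).equivFin.symm, trivial⟩
  refine ⟨_, fun i => (e i).1, rfl, ?_, ?_, ?_⟩
  · intro i j hij
    exact e.injective (Subtype.ext hij)
  · intro i
    obtain ⟨j, hj, hj'⟩ := mem_image.1 (e i).2
    exact ⟨j, hj, hj'⟩
  · intro j hj
    refine ⟨e.symm ⟨w j, mem_image_of_mem _ hj⟩, ?_⟩
    show (e (e.symm ⟨w j, mem_image_of_mem _ hj⟩)).1 = w j
    rw [Equiv.apply_symm_apply]

/-- a sum over a subset, by classes -/
theorem sum_classes {ι : Type} [DecidableEq ι] {w : ι → ℕ} {S : Finset ι} {r : ℕ}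
    {m : Fin r → ℕ} (hinj : Function.Injective m) (h : ∀ j ∈ S, ∃ i, m i = w j) (t : ℕ → ℕ) :
    ∑ p ∈ S, t (w p) = ∑ i, (S.filter fun p => w p = m i).card * t (m i) := by
  have h1 : ∀ p ∈ S, t (w p) = ∑ i, if w p = m i then t (m i) else 0 := by
    intro p hp
    obtain ⟨i0, hi0⟩ := h p hp
    rw [Finset.sum_eq_single i0]
    · rw [if_pos hi0.symm, hi0]
    · intro i _ hi
      rw [if_neg]
      intro hcon
      exact hi (hinj (hcon.symm.trans hi0.symm))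
    · intro hcon
      exact absurd (mem_univ _) hcon
  rw [sum_congr rfl h1, sum_comm]
  refine sum_congr rfl fun i _ => ?_
  rw [← sum_filter, sum_const, smul_eq_mul]

/-- **The critical degrees**, without a bound for the ratios. -/
theorem crit_free {n : ℕ} {w : Fin n → ℕ} (E : Finset (Fin n)) {μ : ℕ} {D : ℝ}
    (hD : D = √(∑ p, (w p : ℝ) ^ 2)) (hμ : ∀ p, w p ≤ μ) (hE : ∃ p ∉ E, w p = μ)
    (hpos : ∀ p ∉ E, 1 ≤ w p) (hn : (n : ℝ) ≤ D)
    (h1 : 40 * ((Eᶜ.image w).card : ℝ) * μ ≤ D)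
    (h2 : ∀ p ∉ E, 16 * (μ : ℝ) ≤ ((Eᶜ.filter fun q => w q = w p).card : ℝ) * w p)
    (h3 : ∀ p ∉ E, 4 * ∑ q, (w q : ℝ) ≤
      ((Eᶜ.filter fun q => w q = w p).card : ℝ) * w p * μ)
    (h4 : 30 * (μ : ℝ) * ∑ p ∈ E, (w p : ℝ) ≤ D) {d : ℕ}
    (hT1 : d * (d + 1) < 2 * ∑ p, (w p + 1).choose 2)
    (hT2 : 2 * ∑ p, (w p + 1).choose 2 ≤ (d + 2) * (d + 3)) :
    ((d + 2).choose 2 ≤ ∑ p, (w p + 1).choose 2 → Emp w (TZ d)) ∧
      (∑ p, (w p + 1).choose 2 ≤ (d + 2).choose 2 → Sur w (TZ d)) := by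
  classical
  obtain ⟨r, m, hrd, hinj, hm1, hm2⟩ := exists_classes' w Eᶜ
  rw [← hrd] at h1
  obtain ⟨p0, hp0, hp0'⟩ := hE
  obtain ⟨i0, hi0⟩ := hm2 p0 (by simpa using hp0)
  rw [hp0'] at hi0
  obtain ⟨N, hN⟩ : ∃ N : Fin r → ℕ, ∀ i, N i = (Eᶜ.filter fun q => w q = m i).card :=
    ⟨_, fun _ => rfl⟩
  have hmμ : ∀ i, m i ≤ μ := by
    intro i
    obtain ⟨j, -, hj⟩ := hm1 i
    rw [← hj]
    exact hμ j
  have hmpos : ∀ i, 1 ≤ m i := by
    intro i
    obtain ⟨j, hj0, hj⟩ := hm1 i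
    rw [← hj]
    exact hpos j (by simpa using hj0)
  have hN1 : ∀ i, 16 * (μ : ℝ) ≤ (N i : ℝ) * m i := by
    intro i
    obtain ⟨j, hj0, hj⟩ := hm1 i
    rw [hN, ← hj]
    exact h2 j (by simpa using hj0)
  have hN2 : ∀ i, 4 * ∑ q, (w q : ℝ) ≤ (N i : ℝ) * m i * μ := by
    intro i
    obtain ⟨j, hj0, hj⟩ := hm1 i
    rw [hN, ← hj]
    exact h3 j (by simpa using hj0)
  have hm0 : ∀ i, (1 : ℝ) ≤ m i := fun i => by exact_mod_cast hmpos i
  have hmμ' : ∀ i, (m i : ℝ) ≤ μ := fun i => by exact_mod_cast hmμ i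
  have hμ1 : (1 : ℝ) ≤ μ := (hm0 i0).trans (hmμ' i0)
  obtain ⟨c0, hc0, hc0'⟩ : ∃ c0 : Fin r → ℕ, (∀ i, 4 * (μ : ℝ) ≤ c0 i * m i) ∧
      ∀ i, (c0 i : ℝ) * m i ≤ 4 * μ + m i := by
    refine ⟨fun i => ⌈4 * (μ : ℝ) / m i⌉₊, fun i => ?_, fun i => ?_⟩
    · have h := Nat.le_ceil (4 * (μ : ℝ) / m i)
      have h0 : (0 : ℝ) < m i := by linarith [hm0 i]
      rwa [div_le_iff₀ h0] at h
    · have h0 : (0 : ℝ) < m i := by linarith [hm0 i]
      have h := (Nat.ceil_lt_add_one (show 0 ≤ 4 * (μ : ℝ) / m i by positivity)).le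
      have h' := mul_le_mul_of_nonneg_right h h0.le
      have e : (4 * (μ : ℝ) / m i + 1) * m i = 4 * μ + m i := by field_simp
      rw [e] at h'
      exact h'
  have hcN : ∀ i, c0 i ≤ N i := by
    intro i
    have g1 : (c0 i : ℝ) * m i ≤ N i * m i := by
      linarith [hc0' i, hN1 i, hmμ' i]
    have g2 : (c0 i : ℝ) ≤ N i := le_of_mul_le_mul_right g1 (by linarith [hm0 i])
    exact_mod_cast g2
  obtain ⟨c, hc⟩ : ∃ c : Fin r → ℕ, ∀ i, c i = c0 i + (N i - c0 i) % 4 := ⟨_, fun _ => rfl⟩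
  obtain ⟨A, hA⟩ : ∃ A : Fin r → ℕ, ∀ i, A i = (N i - c0 i) / 4 := ⟨_, fun _ => rfl⟩
  have hAc : ∀ i, 4 * A i + c i = N i := by
    intro i
    have := hcN i
    rw [hA, hc]
    omega
  have hAcr : ∀ i, 4 * (A i : ℝ) + c i = N i := fun i => by exact_mod_cast hAc i
  have hc1 : ∀ i, 4 * (μ : ℝ) ≤ c i * m i := by
    intro i
    have h0 : (c0 i : ℝ) ≤ c i := by
      have : c0 i ≤ c i := by rw [hc]; omega
      exact_mod_cast this
    have h' := mul_le_mul_of_nonneg_right h0 (show (0 : ℝ) ≤ m i by linarith [hm0 i])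
    linarith [hc0 i]
  have hc2 : ∀ i, (c i : ℝ) * m i ≤ 8 * μ := by
    intro i
    have h0 : c i ≤ c0 i + 3 := by rw [hc]; omega
    have h1 : (c i : ℝ) ≤ ((c0 i + 3 : ℕ) : ℝ) := by exact_mod_cast h0
    push_cast at h1
    have h' := mul_le_mul_of_nonneg_right h1 (show (0 : ℝ) ≤ m i by linarith [hm0 i])
    linarith [hc0' i, hmμ' i]
  have hNm : ∀ i, (N i : ℝ) * m i ≤ 8 * (A i * m i) := by
    intro i
    have e : (N i : ℝ) * m i = 4 * (A i * m i) + c i * m i := by rw [← hAcr]; ring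
    linarith [hN1 i, hc2 i]
  -- the sums
  have hsum : ∀ t : ℕ → ℕ, ∑ p, t (w p) = ∑ i, 4 * A i * t (m i) +
      (∑ z : Σ i, Fin (c i), t (m z.1) + ∑ p : {p // p ∈ E}, t (w p)) := by
    intro t
    have e1 := sum_classes hinj hm2 t
    have e2 : ∑ p, t (w p) = ∑ p ∈ E, t (w p) + ∑ p ∈ Eᶜ, t (w p) :=
      (sum_add_sum_compl E fun p => t (w p)).symm
    have e3 : ∑ p : {p // p ∈ E}, t (w p) = ∑ p ∈ E, t (w p) :=
      sum_coe_sort E fun p => t (w p)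
    have e4 : ∑ z : Σ i, Fin (c i), t (m z.1) = ∑ i, c i * t (m i) := by
      rw [Fintype.sum_sigma]
      refine sum_congr rfl fun i _ => ?_
      simp
    rw [e2, e1, e3, e4, ← add_assoc, ← sum_add_distrib, add_comm]
    congr 1
    refine sum_congr rfl fun i _ => ?_
    rw [← hN, ← hAc]
    ring
  obtain ⟨σ, hσ⟩ := exists_equiv_of_sum
    (f := (Sum.elim (fun p : (Σ i, Fin (A i)) × (Fin 2 × Fin 2) => m p.1.1)
      (Sum.elim (fun z : Σ i, Fin (c i) => m z.1) (fun p : {p // p ∈ E} => w p)) :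
      ((Σ i, Fin (A i)) × (Fin 2 × Fin 2)) ⊕ ((Σ i, Fin (c i)) ⊕ {p // p ∈ E}) → ℕ))
    (g := w) (by
      intro t
      rw [hsum, Fintype.sum_sum_type, Fintype.sum_sum_type]
      simp only [Sum.elim_inl, Sum.elim_inr]
      congr 1
      rw [Fintype.sum_prod_type, Fintype.sum_sigma]
      refine sum_congr rfl fun i _ => ?_
      simp only [sum_const, card_univ, Fintype.card_fin, Fintype.card_prod, smul_eq_mul]
      ring)
  have hsumR : ∀ t : ℕ → ℕ, ∑ p, (t (w p) : ℝ) = ∑ i, 4 * (A i : ℝ) * t (m i) +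
      (∑ i, (c i : ℝ) * t (m i) + ∑ p : {p // p ∈ E}, (t (w p) : ℝ)) := by
    intro t
    have e := hsum t
    have e4 : ∑ z : Σ i, Fin (c i), t (m z.1) = ∑ i, c i * t (m i) := by
      rw [Fintype.sum_sigma]
      refine sum_congr rfl fun i _ => ?_
      simp
    rw [e4] at e
    exact_mod_cast e
  have hD2 : D ^ 2 = ∑ p, (w p : ℝ) ^ 2 := by
    rw [hD, Real.sq_sqrt]
    exact sum_nonneg fun p _ => by positivity
  have hμD : (μ : ℝ) ^ 2 ≤ D ^ 2 := by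
    rw [hD2, ← hp0']
    exact single_le_sum (f := fun p => (w p : ℝ) ^ 2) (fun p _ => by positivity) (mem_univ p0)
  have hDnn : 0 ≤ D := by rw [hD]; exact Real.sqrt_nonneg _
  have hD0 : 0 < D := by
    rcases hDnn.eq_or_lt with h0 | h0
    · rw [← h0] at hμD
      nlinarith
    · exact h0
  obtain ⟨L, hLd⟩ : ∃ L : ℝ, L = ∑ p, (w p : ℝ) := ⟨_, rfl⟩
  rw [← hLd] at hN2
  have hDL : D ^ 2 + L = ∑ i, 4 * (A i : ℝ) * (m i * (m i + 1)) +
      (∑ i, (c i : ℝ) * (m i * (m i + 1)) + ∑ p : {p // p ∈ E}, (w p : ℝ) * (w p + 1)) := by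
    have e := hsumR fun y => y * (y + 1)
    push_cast at e
    rw [← e, hD2, hLd, ← sum_add_distrib]
    refine sum_congr rfl fun i _ => ?_
    ring
  have hT : ((2 * ∑ p, (w p + 1).choose 2 : ℕ) : ℝ) = D ^ 2 + L := by
    rw [hD2, hLd, ← sum_add_distrib]
    push_cast
    rw [mul_sum]
    refine sum_congr rfl fun i _ => ?_
    rw [choose_real]
    ring
  have hd := cd_num (A := A) (c := c) (m := m) (x := fun p : {p // p ∈ E} => w p) (i0 := i0)
    (d := d) (μ := μ) (D := D) (L := L) (n := n) (X := ∑ p ∈ E, (w p : ℝ)) hmμ hi0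
    (fun p => hμ p) hmpos hD0 hDL (by
      have e := hsumR fun y => y
      rw [hLd, e]
      have g1 : ∑ i, 4 * ((m i : ℝ) * A i) = ∑ i, 4 * (A i : ℝ) * m i :=
        sum_congr rfl fun i _ => by ring
      have g2 : 0 ≤ ∑ i, (c i : ℝ) * m i := sum_nonneg fun i _ => by positivity
      have g3 : 0 ≤ ∑ p : {p // p ∈ E}, (w p : ℝ) := sum_nonneg fun i _ => by positivity
      linarith) (by
      have e := hsumR fun _ => 1
      simp only [Nat.cast_one, mul_one, sum_const, card_univ, Fintype.card_fin,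
        nsmul_eq_mul] at e
      have g2 : 0 ≤ ∑ i, (c i : ℝ) := sum_nonneg fun i _ => by positivity
      have g3 : (0 : ℝ) ≤ (Fintype.card {p // p ∈ E} : ℝ) := Nat.cast_nonneg _
      linarith) hn (by
      rw [hLd, hD2]
      have := sq_sum_le_card_mul_sum_sq (s := (univ : Finset (Fin n))) (f := fun p => (w p : ℝ))
      rwa [card_univ, Fintype.card_fin] at this) (by
      rw [hLd, hD2, mul_sum]
      refine sum_le_sum fun p _ => ?_
      have g1 : (w p : ℝ) ≤ μ := by exact_mod_cast hμ p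
      have g2 : (0 : ℝ) ≤ w p := Nat.cast_nonneg _
      nlinarith) h1 hc1 hc2 (fun i => by linarith [hNm i, hN1 i]) (fun i => by
      have g1 := mul_le_mul_of_nonneg_right (hNm i) (show (0 : ℝ) ≤ μ by linarith)
      have g2 := hN2 i
      nlinarith) (by
      exact (sum_coe_sort E fun p => (w p : ℝ)).symm) h4 (by
      rw [← hT]
      have : ((d * (d + 1) : ℕ) : ℝ) < ((2 * ∑ p, (w p + 1).choose 2 : ℕ) : ℝ) := by
        exact_mod_cast hT1
      push_cast at this ⊢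
      linarith) (by
      rw [← hT]
      exact_mod_cast hT2)
  have key := hd.dbl
  have hcond : CDcond A m (fun z : Σ i, Fin (c i) => m z.1) (fun p : {p // p ∈ E} => w p) =
      ∑ p, (w p + 1).choose 2 := (hsum fun y => (y + 1).choose 2).symm
  rw [hcond] at key
  exact ⟨fun h => Emp_equiv σ hσ (key.1 h), fun h => Sur_equiv σ hσ (key.2 h)⟩

/-- **Every degree**, without a bound for the ratios. -/
theorem every_degree_free {n : ℕ} {w : Fin n → ℕ} (E : Finset (Fin n)) {μ : ℕ} {D : ℝ}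
    (hD : D = √(∑ p, (w p : ℝ) ^ 2)) (hμ : ∀ p, w p ≤ μ) (hE : ∃ p ∉ E, w p = μ)
    (hpos : ∀ p ∉ E, 1 ≤ w p) (hn : (n : ℝ) ≤ D)
    (h1 : 40 * ((Eᶜ.image w).card : ℝ) * μ ≤ D)
    (h2 : ∀ p ∉ E, 16 * (μ : ℝ) ≤ ((Eᶜ.filter fun q => w q = w p).card : ℝ) * w p)
    (h3 : ∀ p ∉ E, 4 * ∑ q, (w q : ℝ) ≤
      ((Eᶜ.filter fun q => w q = w p).card : ℝ) * w p * μ)
    (h4 : 30 * (μ : ℝ) * ∑ p ∈ E, (w p : ℝ) ≤ D) :
    ∃ F : MvPolynomial (Fin n × Fin 2) ℚ, F ≠ 0 ∧ ∀ {L : Type} [Field L] [CharZero L]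
      (P : Fin n → Fin 2 → L), MvPolynomial.aeval (fun ij : Fin n × Fin 2 => P ij.1 ij.2) F ≠ 0 →
      ∀ d, ExpDim L w P d := by
  refine expDim_of_crit ?_ fun d hT1 hT2 => crit_free E hD hμ hE hpos hn h1 h2 h3 h4 hT1 hT2
  obtain ⟨p0, hp0, hp0'⟩ := hE
  have g1 : (w p0 + 1).choose 2 ≤ ∑ p, (w p + 1).choose 2 :=
    single_le_sum (f := fun p => (w p + 1).choose 2) (fun _ _ => Nat.zero_le _) (mem_univ p0)
  have g2 : 0 < (w p0 + 1).choose 2 := Nat.choose_pos (by have := hpos p0 hp0; omega)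
  omega

end Pool.Agent.Y205.MD
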