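import Pool.Agent.Y205.MD.Final
import Pool.Agent.H932R7.Final2

/-! **The expected dimension in every degree** for several multiplicities. -/

set_option autoImplicit false

namespace Pool.Agent.Y205.MD

open Finset H932R3

/-- small multiplicities -/
theorem all_small (L : Type) [Field L] [CharZero L] {n : ℕ} {w : Fin n → ℕ} {M : ℕ} {ρ : ℝ}
    (hM0 : 0 < M) (hmin : ∃ i, w i = M) (hM : ∀ i, M ≤ w i) (hMρ : ∀ i, (w i : ℝ) ≤ ρ * M)
    (hρ : 1 ≤ ρ) (hq : 30 * ρ ^ 3 ≤ √(n : ℝ)) (hMq : (M : ℝ) < √(n : ℝ))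
    (hs : ∀ i, 16 * ρ ^ 3 * M ≤ ((univ.filter fun j => w j = w i).card : ℝ)) :
    ∃ F : MvPolynomial (Fin n × Fin 2) ℚ, F ≠ 0 ∧ ∀ P : Fin n → Fin 2 → L,
      MvPolynomial.aeval (fun ij : Fin n × Fin 2 => P ij.1 ij.2) F ≠ 0 →
        ∀ d : ℕ, ExpDim L w P d := by
  classical
  have hM1 : (1 : ℝ) ≤ M := by exact_mod_cast hM0
  have hρ0 : 0 < ρ := by linarith
  have hMρM : (M : ℝ) ≤ ρ * M := le_mul_of_one_le_left (by linarith) hρ
  have hρ2 : 1 ≤ ρ ^ 2 := one_le_pow₀ hρ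
  have hρ3 : ρ ^ 2 ≤ ρ ^ 3 := by nlinarith
  have hρ31 : 1 ≤ ρ ^ 3 := one_le_pow₀ hρ
  obtain ⟨m, hm⟩ : ∃ m : ℕ, m = ⌊ρ * M⌋₊ := ⟨_, rfl⟩
  have hmM : (m : ℝ) ≤ ρ * M := by rw [hm]; exact Nat.floor_le (by positivity)
  have hm0 : (0 : ℝ) ≤ m := Nat.cast_nonneg _
  have hρM1 : ρ * M + 1 ≤ ρ * (M + 1) := by linarith
  have hρM2 : ρ * M + 2 ≤ ρ * (M + 2) := by linarith
  obtain ⟨F, hF, hF'⟩ := H932R7.bounded2 L (w := w) (m := m) (k := M) hM0 (by
      rw [hm]; exact Nat.le_floor hMρM) (fun a => by rw [hm]; exact Nat.le_floor (hMρ a)) (by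
      intro i hi
      obtain ⟨i0, hi0⟩ := hmin
      have h1 := hs i0
      rw [hi0] at h1
      have h2 : (univ.filter fun j => w j = M).card * (M * (M + 1)) ≤
          ∑ j ∈ Finset.univ.filter (fun j => min 2 M ≤ w j ∧ w j < w i), w j * (w j + 1) := by
        have h3 : ∑ j ∈ univ.filter (fun j => w j = M), w j * (w j + 1) =
            (univ.filter fun j => w j = M).card * (M * (M + 1)) := by
          rw [← smul_eq_mul, ← sum_const]
          refine sum_congr rfl fun j hj => ?_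
          rw [(mem_filter.1 hj).2]
        rw [← h3]
        refine sum_le_sum_of_subset ?_
        intro j hj
        rw [mem_filter] at hj ⊢
        refine ⟨mem_univ _, ?_, ?_⟩
        · rw [hj.2]; exact min_le_right _ _
        · rw [hj.2]; exact hi
      refine le_trans ?_ h2
      have h4 : ((2 * (w i * (w i + 1) * (w i + 2)) : ℕ) : ℝ) ≤
          (((univ.filter fun j => w j = M).card * (M * (M + 1)) : ℕ) : ℝ) := by
        push_cast
        have h5 := hMρ i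
        have h6 : (0 : ℝ) ≤ w i := Nat.cast_nonneg _
        have h7 : (w i : ℝ) * (w i + 1) * (w i + 2) ≤ (ρ * M) * (ρ * (M + 1)) * (ρ * (M + 2)) := by
          refine mul_le_mul (mul_le_mul h5 (by linarith) (by linarith) (by positivity))
            (by linarith) (by linarith) (by positivity)
        have h8 : 16 * ρ ^ 3 * M * (M * (M + 1)) ≤
            ((univ.filter fun j => w j = M).card : ℝ) * (M * (M + 1)) :=
          mul_le_mul_of_nonneg_right h1 (by positivity)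
        have h9 : 2 * ((ρ * M) * (ρ * (M + 1)) * (ρ * (M + 2))) ≤
            16 * ρ ^ 3 * M * (M * (M + 1)) := by
          have e : 16 * ρ ^ 3 * M * (M * (M + 1)) -
              2 * ((ρ * M) * (ρ * (M + 1)) * (ρ * (M + 2))) =
              ρ ^ 3 * (M * (M + 1)) * (16 * M - 2 * (M + 2)) := by ring
          have h10 : 0 ≤ ρ ^ 3 * ((M : ℝ) * (M + 1)) * (16 * M - 2 * (M + 2)) := by
            apply mul_nonneg (by positivity)
            linarith
          linarith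
        linarith
      exact_mod_cast h4)
  refine ⟨F, hF, fun P hP d => hF' P hP d ⟨?_, Or.inr (Or.inr fun i => Or.inr (hM i))⟩⟩
  have hn0 : (0 : ℝ) ≤ n := Nat.cast_nonneg _
  obtain ⟨q, hqd⟩ : ∃ q : ℝ, q = √(n : ℝ) := ⟨_, rfl⟩
  have hqq : q * q = n := by rw [hqd]; exact Real.mul_self_sqrt hn0
  rw [← hqd] at hq hMq
  have h1 : (n : ℝ) * (M * (M + 1) / 2) ≤ ((∑ i, (w i + 1).choose 2 : ℕ) : ℝ) := by
    push_cast
    have : (n : ℝ) * (M * (M + 1) / 2) = ∑ _i : Fin n, (M * (M + 1) / 2 : ℝ) := by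
      rw [sum_const, card_univ, Fintype.card_fin, nsmul_eq_mul]
    rw [this]
    refine sum_le_sum fun i _ => ?_
    rw [choose_real]
    have h2 : (M : ℝ) ≤ w i := by exact_mod_cast hM i
    have h3 : (M : ℝ) * (M + 1) ≤ w i * (w i + 1) :=
      mul_le_mul h2 (by linarith) (by linarith) (by linarith)
    linarith
  have h2 : (m : ℝ) * (m + 1) * (m + 6 * √(m : ℝ) + 10) ≤ (n : ℝ) * (M * (M + 1) / 2) := by
    have h3 : 6 * √(m : ℝ) ≤ m + 9 := by
      have h4 : √(m : ℝ) * √(m : ℝ) = m := Real.mul_self_sqrt hm0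
      nlinarith [sq_nonneg (√(m : ℝ) - 3)]
    have h4 : (m : ℝ) * (m + 1) ≤ (ρ * M) * (ρ * (M + 1)) :=
      mul_le_mul hmM (by linarith) (by linarith) (by positivity)
    have h5 : (m : ℝ) + 6 * √(m : ℝ) + 10 ≤ 2 * (ρ * M) + 19 := by linarith
    have h6 : (m : ℝ) * (m + 1) * (m + 6 * √(m : ℝ) + 10) ≤
        (ρ * M) * (ρ * (M + 1)) * (2 * (ρ * M) + 19) :=
      mul_le_mul h4 h5 (by positivity) (by positivity)
    have h7 : ρ ^ 2 * (2 * (ρ * M) + 19) ≤ n / 2 := by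
      rw [← hqq]
      have g1 : ρ ^ 3 * M ≤ ρ ^ 3 * q := mul_le_mul_of_nonneg_left hMq.le (by positivity)
      have g2 : 30 * ρ ^ 3 * q ≤ q * q := mul_le_mul_of_nonneg_right hq (by linarith)
      have g3 : ρ ^ 2 * 30 ≤ ρ ^ 3 * q := mul_le_mul hρ3 (by linarith) (by norm_num) (by positivity)
      linarith
    have h8 := mul_le_mul_of_nonneg_left h7 (show (0 : ℝ) ≤ M * (M + 1) by positivity)
    have e : (ρ * M) * (ρ * (M + 1)) * (2 * (ρ * M) + 19) =
        M * (M + 1) * (ρ ^ 2 * (2 * (ρ * M) + 19)) := by ring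
    linarith
  refine h2.trans (h1.trans ?_)
  exact_mod_cast le_max_right _ _

/-- **Every degree**, several multiplicities. -/
theorem all_degrees (L : Type) [Field L] [CharZero L] {n : ℕ} {w : Fin n → ℕ} {M : ℕ} {ρ : ℝ}
    (hM0 : 0 < M) (hmin : ∃ i, w i = M) (hM : ∀ i, M ≤ w i) (hMρ : ∀ i, (w i : ℝ) ≤ ρ * M)
    (hr : 30 * ρ ^ 3 * (univ.image w).card ≤ √(n : ℝ))
    (hs : ∀ i, 16 * ρ ^ 3 * max 1 (min (M : ℝ) (n / M)) ≤
      ((univ.filter fun j => w j = w i).card : ℝ)) :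
    ∃ F : MvPolynomial (Fin n × Fin 2) ℚ, F ≠ 0 ∧ ∀ P : Fin n → Fin 2 → L,
      MvPolynomial.aeval (fun ij : Fin n × Fin 2 => P ij.1 ij.2) F ≠ 0 →
        ∀ d : ℕ, ExpDim L w P d := by
  classical
  obtain ⟨i0, hi0⟩ := hmin
  have hn : 0 < n := lt_of_le_of_lt (Nat.zero_le _) i0.2
  have hM1 : (1 : ℝ) ≤ M := by exact_mod_cast hM0
  have hMp : (0 : ℝ) < M := by linarith
  have hρ : 1 ≤ ρ := by
    have h1 := hMρ i0
    rw [hi0] at h1
    by_contra hcon
    push Not at hcon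
    have : ρ * M < 1 * M := mul_lt_mul_of_pos_right hcon hMp
    linarith
  have hρ0 : 0 < ρ := by linarith
  have hn0 : (0 : ℝ) ≤ n := Nat.cast_nonneg _
  have hqq : √(n : ℝ) * √(n : ℝ) = n := Real.mul_self_sqrt hn0
  have hq0 : 0 ≤ √(n : ℝ) := Real.sqrt_nonneg _
  have hr1 : (1 : ℝ) ≤ (univ.image w).card := by
    have : 0 < (univ.image w).card := card_pos.2 ⟨w i0, mem_image_of_mem _ (mem_univ _)⟩
    exact_mod_cast this
  have hq : 30 * ρ ^ 3 ≤ √(n : ℝ) := by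
    have : 30 * ρ ^ 3 * 1 ≤ 30 * ρ ^ 3 * (univ.image w).card :=
      mul_le_mul_of_nonneg_left hr1 (by positivity)
    linarith
  have hs1 : ∀ i, 16 * ρ ^ 3 ≤ ((univ.filter fun j => w j = w i).card : ℝ) := fun i => by
    have h1 := hs i
    have h2 : 16 * ρ ^ 3 * 1 ≤ 16 * ρ ^ 3 * max 1 (min (M : ℝ) (n / M)) :=
      mul_le_mul_of_nonneg_left (le_max_left _ _) (by positivity)
    linarith
  rcases le_or_gt (√(n : ℝ)) M with hqM | hqM
  · have hcr := fun (d : ℕ) => crit_large (d := d) hn hρ hM hMρ hr hqM hs1 (fun i => by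
      have h1 := hs i
      have h3 : (n : ℝ) / M ≤ M := by
        rw [div_le_iff₀ hMp, ← hqq]
        exact mul_le_mul hqM hqM hq0 hMp.le
      have h2 : 16 * ρ ^ 3 * (n / M) ≤ 16 * ρ ^ 3 * max 1 (min (M : ℝ) (n / M)) := by
        apply mul_le_mul_of_nonneg_left _ (by positivity)
        rw [min_eq_right h3]
        exact le_max_right _ _
      have h4 : 16 * ρ ^ 3 * (n / M) * M ≤ ((univ.filter fun j => w j = w i).card : ℝ) * M :=
        mul_le_mul_of_nonneg_right (h2.trans h1) hMp.le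
      have h5 : 16 * ρ ^ 3 * ((n : ℝ) / M) * M = 16 * ρ ^ 3 * n := by field_simp
      linarith)
    obtain ⟨F, hF, hF'⟩ := expDim_of_crit (w := w) (by
      have h1 : (w i0 + 1).choose 2 ≤ ∑ p, (w p + 1).choose 2 :=
        single_le_sum (f := fun p => (w p + 1).choose 2) (fun _ _ => Nat.zero_le _) (mem_univ i0)
      have h2 : 0 < (w i0 + 1).choose 2 := Nat.choose_pos (by rw [hi0]; omega)
      omega) (fun d h1 h2 => hcr d h1 h2)
    exact ⟨F, hF, fun P hP d => hF' P hP d⟩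
  · refine all_small L hM0 ⟨i0, hi0⟩ hM hMρ hρ hq hqM (fun i => ?_)
    have h1 := hs i
    have h3 : (M : ℝ) ≤ n / M := by
      rw [le_div_iff₀ hMp, ← hqq]
      exact mul_le_mul hqM.le hqM.le hMp.le hq0
    have h2 : 16 * ρ ^ 3 * M ≤ 16 * ρ ^ 3 * max 1 (min (M : ℝ) (n / M)) := by
      apply mul_le_mul_of_nonneg_left _ (by positivity)
      rw [min_eq_left h3]
      exact le_max_right _ _
    linarith

end Pool.Agent.Y205.MD
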