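import Pool.Agent.Y205.MD.Raise
import Pool.Agent.TH941.NU.Asm
import Pool.Agent.TH552.BB.TrGen

/-! The cluster system at the generic configuration, for base multiplicities which depend on the
cluster. -/

set_option autoImplicit false

namespace Pool.Agent.Y205.MD

open Finset Module Pool.Agent.TH176.Nag Pool.Agent.TH603.Sur Pool.Agent.TH763.DB
open Pool.Agent.TH2.NU Pool.Agent.TH941.DB

section
variable {K : Type} [Field K]

/-- the system with one more condition at the points of `J` -/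
noncomputable def BC {N : ℕ} {κ : Type} (S : Finset (ℤ × ℤ)) (x y : Fin N → K) (x' y' : κ → K)
    (e : κ → ℕ) (b : Fin N → ℕ) (J : Finset (Fin N)) : Submodule K ((ℤ × ℤ) →₀ K) :=
  Sys S (Sum.elim x x') (Sum.elim y y') (wB b e J)

theorem BC_le {N : ℕ} {κ : Type} (S : Finset (ℤ × ℤ)) (x y : Fin N → K) (x' y' : κ → K)
    (e : κ → ℕ) (b : Fin N → ℕ) (J : Finset (Fin N)) :
    BC S x y x' y' e b J ≤ Finsupp.supported K K (↑S : Set (ℤ × ℤ)) := inf_le_left

theorem BC_top {N : ℕ} {κ : Type} {S : Finset (ℤ × ℤ)} {x y : Fin N → K} {x' y' : κ → K}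
    {e : κ → ℕ} {b : Fin N → ℕ} {J : Finset (Fin N)} (p : Fin N) :
    BC S x y x' y' e b J ⊓ TopB (x p) (y p) (b p) ≤ BC S x y x' y' e b (insert p J) := by
  rintro f ⟨hf, ht⟩
  refine ⟨hf.1, ?_⟩
  have h2 := hf.2
  rw [SetLike.mem_coe, Submodule.mem_iInf] at h2 ⊢
  intro i
  have h3 := h2 i
  rcases i with i | i
  · simp only [wB, Sum.elim_inl] at h3 ⊢
    by_cases hip : i = p
    · subst hip
      rw [lv_mem (Finset.mem_insert_self i J)]
      by_cases hiJ : i ∈ J
      · rw [lv_mem hiJ] at h3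
        exact h3
      · rw [lv_not hiJ] at h3
        exact Pool.Agent.TH941.NU.mul_succ_of_topB h3 ht
    · have : lv b (insert p J) i = lv b J i := by
        unfold lv
        simp [Finset.mem_insert, hip]
      rw [this]
      exact h3
  · exact h3

/-- one configuration: directions with the cluster bound -/
theorem cluB_step {N : ℕ} {b : Fin N → ℕ} {I : Fin N → Finset ℕ}
    (hI : ∀ i, I i ⊆ range (b i + 1)) {κ : Type}
    {e : κ → ℕ} {S : Finset (ℤ × ℤ)} [CharZero K] (x y : Fin N → K) (x' y' : κ → K)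
    (L : Finset (Fin N)) :
    ∃ D E : Fin N → K × K, (∀ i ∈ L, (D i).1 * (E i).2 - (D i).2 * (E i).1 ≠ 0) ∧
      ∀ J0 : Finset (Fin N), Disjoint L J0 → ∃ J ⊆ L,
        finrank K ↥(BC S x y x' y' e b J0 ⊓ ⨅ i ∈ L, OdI (x i) (y i) (D i) (E i) (b i) (I i)) ≤
          finrank K ↥(BC S x y x' y' e b (J ∪ J0)) - ∑ i ∈ L \ J, (I i).card := by
  classical
  induction L using Finset.induction_on with
  | empty =>
    refine ⟨fun _ => 0, fun _ => 0, by simp, ?_⟩
    intro J0 _
    refine ⟨∅, subset_rfl, ?_⟩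
    rw [Finset.empty_union, Finset.sdiff_empty, Finset.sum_empty, Nat.sub_zero]
    exact finrank_le_of_le (BC_le S x y x' y' e b J0) inf_le_left
  | insert p L hp ih =>
    obtain ⟨D, E, hDE, hJ⟩ := ih
    obtain ⟨Dp, Ep, hdet, hA⟩ := Pool.Agent.TH552.BB.Gen.trans_gen (x p) (y p) (b p) (I p) (hI p)
      (fun J0 : Finset (Fin N) => BC S x y x' y' e b J0 ⊓
        ⨅ i ∈ L, OdI (x i) (y i) (D i) (E i) (b i) (I i))
      (fun J0 => fin_of_le (inf_le_left.trans (BC_le S x y x' y' e b J0)))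
    refine ⟨Function.update D p Dp, Function.update E p Ep, ?_, ?_⟩
    · intro i hi
      by_cases hip : i = p
      · subst hip
        simpa using hdet
      · rw [Function.update_of_ne hip, Function.update_of_ne hip]
        exact hDE i ((Finset.mem_insert.1 hi).resolve_left hip)
    · intro J0 hJ0
      rw [Finset.disjoint_insert_left] at hJ0
      obtain ⟨hpJ0, hIJ0⟩ := hJ0
      have hle : BC S x y x' y' e b J0 ⊓ ⨅ i ∈ insert p L, OdI (x i) (y i)
          (Function.update D p Dp i) (Function.update E p Ep i) (b i) (I i) ≤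
          (BC S x y x' y' e b J0 ⊓ ⨅ i ∈ L, OdI (x i) (y i) (D i) (E i) (b i) (I i)) ⊓
            OdI (x p) (y p) Dp Ep (b p) (I p) := by
        rintro f ⟨hf1, hf2⟩
        simp only [SetLike.mem_coe, Submodule.mem_iInf] at hf2
        refine ⟨⟨hf1, ?_⟩, ?_⟩
        · simp only [SetLike.mem_coe, Submodule.mem_iInf]
          intro i hi
          have hip : i ≠ p := fun h => hp (h ▸ hi)
          have := hf2 i (Finset.mem_insert_of_mem hi)
          rwa [Function.update_of_ne hip, Function.update_of_ne hip] at this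
        · have := hf2 p (Finset.mem_insert_self p L)
          rwa [Function.update_self, Function.update_self] at this
      have h1 := finrank_le_of_le (S := S)
        ((inf_le_left.trans inf_le_left).trans (BC_le S x y x' y' e b J0)) hle
      have h2 := hA J0
      rcases le_max_iff.1 (h1.trans h2) with h3 | h3
      · -- the point `p` gets one more condition
        have hle2 : (BC S x y x' y' e b J0 ⊓ ⨅ i ∈ L, OdI (x i) (y i) (D i) (E i) (b i) (I i)) ⊓
            TopB (x p) (y p) (b p) ≤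
            BC S x y x' y' e b (insert p J0) ⊓
              ⨅ i ∈ L, OdI (x i) (y i) (D i) (E i) (b i) (I i) := by
          rintro f ⟨⟨hf1, hf2⟩, hf3⟩
          exact ⟨BC_top p ⟨hf1, hf3⟩, hf2⟩
        have h4 := finrank_le_of_le (S := S) (inf_le_left.trans (BC_le S x y x' y' e b _)) hle2
        obtain ⟨J, hJI, h5⟩ := hJ (insert p J0) (by
          rw [Finset.disjoint_insert_right]; exact ⟨hp, hIJ0⟩)
        refine ⟨insert p J, Finset.insert_subset_insert p hJI, ?_⟩
        have e1 : insert p J ∪ J0 = J ∪ insert p J0 := by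
          ext i
          simp only [Finset.mem_union, Finset.mem_insert]
          tauto
        have e2 : insert p L \ insert p J = L \ J := by
          ext i
          simp only [Finset.mem_sdiff, Finset.mem_insert]
          constructor
          · rintro ⟨h6 | h6, h7⟩
            · exact absurd (Or.inl h6) h7
            · exact ⟨h6, fun h8 => h7 (Or.inr h8)⟩
          · rintro ⟨h6, h7⟩
            refine ⟨Or.inr h6, ?_⟩
            rintro (h8 | h8)
            · exact hp (h8 ▸ h6)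
            · exact h7 h8
        rw [e1, e2]
        exact h3.trans (h4.trans h5)
      · obtain ⟨J, hJI, h5⟩ := hJ J0 hIJ0
        refine ⟨J, hJI.trans (Finset.subset_insert p L), ?_⟩
        have hpJ : p ∉ J := fun h => hp (hJI h)
        have e1 : insert p L \ J = insert p (L \ J) := Finset.insert_sdiff_of_notMem L hpJ
        rw [e1, Finset.sum_insert (by simp [hp])]
        omega

theorem cluB_conf {N : ℕ} {b : Fin N → ℕ} {I : Fin N → Finset ℕ}
    (hI : ∀ i, I i ⊆ range (b i + 1)) (hI0 : 0 < ∑ i, (I i).card) {κ : Type}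
    {e : κ → ℕ} {S : Finset (ℤ × ℤ)} {c0 : ℕ} [CharZero K] (x y : Fin N → K) (x' y' : κ → K)
    (h : ∀ J : Finset (Fin N), finrank K ↥(BC S x y x' y' e b J) * ∑ i, (I i).card ≤
      c0 * ∑ i ∈ Jᶜ, (I i).card) :
    ∃ D E : Fin N → K × K, (∀ i, (D i).1 * (E i).2 - (D i).2 * (E i).1 ≠ 0) ∧
      finrank K ↥(Sys S x' y' e ⊓ ⨅ i, CluB (x i) (y i) (D i) (E i) (b i) (I i)) ≤
        c0 - ∑ i, (I i).card := by
  classical
  obtain ⟨D, E, hDE, hJ⟩ := cluB_step hI (e := e) (S := S) x y x' y' Finset.univ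
  refine ⟨D, E, fun i => hDE i (Finset.mem_univ i), ?_⟩
  obtain ⟨J, -, hJ1⟩ := hJ ∅ (Finset.disjoint_empty_right _)
  have hle : Sys S x' y' e ⊓ ⨅ i, CluB (x i) (y i) (D i) (E i) (b i) (I i) ≤
      BC S x y x' y' e b ∅ ⊓ ⨅ i ∈ (Finset.univ : Finset (Fin N)),
        OdI (x i) (y i) (D i) (E i) (b i) (I i) := by
    rintro f ⟨hf1, hf2⟩
    simp only [SetLike.mem_coe, Submodule.mem_iInf] at hf2
    have hf12 := hf1.2
    simp only [SetLike.mem_coe, Submodule.mem_iInf] at hf12
    refine ⟨⟨hf1.1, ?_⟩, ?_⟩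
    · simp only [SetLike.mem_coe, Submodule.mem_iInf]
      intro i
      rcases i with i | i
      · simp only [wB, Sum.elim_inl]
        rw [lv_not (Finset.notMem_empty i)]
        exact (hf2 i).1
      · exact hf12 i
    · simp only [SetLike.mem_coe, Submodule.mem_iInf]
      intro i _
      exact (hf2 i).2
  have h1 := finrank_le_of_le (S := S) (inf_le_left.trans (BC_le S x y x' y' e b ∅)) hle
  have h2 := h1.trans hJ1
  rw [Finset.union_empty, ← Finset.compl_eq_univ_sdiff] at h2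
  have h3 := h J
  obtain ⟨F, hF⟩ : ∃ F, F = finrank K ↥(BC S x y x' y' e b J) := ⟨_, rfl⟩
  obtain ⟨m, hm⟩ : ∃ m, m = ∑ i ∈ Jᶜ, (I i).card := ⟨_, rfl⟩
  obtain ⟨M, hM⟩ : ∃ M, M = ∑ i, (I i).card := ⟨_, rfl⟩
  rw [← hM, ← hF, ← hm] at h3
  rw [← hM] at hI0
  rw [← hF, ← hm] at h2
  rw [← hM]
  have hmM : m ≤ M := by
    rw [hm, hM]
    exact Finset.sum_le_sum_of_subset (Finset.subset_univ _)
  refine h2.trans ?_
  by_cases hc : F ≤ m
  · rw [Nat.sub_eq_zero_of_le hc]
    exact Nat.zero_le _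
  · push Not at hc
    have a1 : m * M < c0 * m := lt_of_lt_of_le (Nat.mul_lt_mul_of_pos_right hc hI0) h3
    have hMc : M < c0 := by
      by_contra hcon
      push Not at hcon
      have : c0 * m ≤ m * M := by rw [mul_comm]; exact Nat.mul_le_mul_left m hcon
      omega
    have a2 : (F - m) * M ≤ (c0 - M) * M := by
      obtain ⟨a, ha⟩ := Nat.exists_eq_add_of_lt hc
      obtain ⟨c, hc'⟩ := Nat.exists_eq_add_of_lt hMc
      have e1 : F - m = a + 1 := by omega
      have e2 : c0 - M = c + 1 := by omega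
      rw [e1, e2]
      rw [ha, hc'] at h3
      have h4 : (m + a + 1) * M ≤ (M + c + 1) * m := h3
      have h5 : (c + 1) * m ≤ (c + 1) * M := Nat.mul_le_mul_left _ hmM
      nlinarith
    exact Nat.le_of_mul_le_mul_right a2 hI0

end

/-- the cluster system over some field -/
theorem exists_cluB {N : ℕ} {b : Fin N → ℕ} {I : Fin N → Finset ℕ}
    (hI : ∀ i, I i ⊆ range (b i + 1)) (hI0 : 0 < ∑ i, (I i).card) {κ : Type} [Finite κ]
    {e : κ → ℕ} {S : Finset (ℤ × ℤ)} (hpos : ∀ u ∈ S, 0 ≤ u.1 ∧ 0 ≤ u.2) {c0 : ℕ}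
    (h4 : ∀ J : Finset (Fin N), (crk S (wB b e J) : ℝ) * ∑ i, ((I i).card : ℝ) ≤
      c0 * ∑ i ∈ Jᶜ, ((I i).card : ℝ)) :
    ∃ (K : Type) (_ : Field K) (_ : CharZero K) (x y : Fin N → K) (x' y' : κ → K)
      (D E : Fin N → K × K),
      (∀ i, x i ≠ 0) ∧ (∀ i, y i ≠ 0) ∧ (∀ i, x' i ≠ 0) ∧ (∀ i, y' i ≠ 0) ∧
      (∀ i, (D i).1 * (E i).2 - (D i).2 * (E i).1 ≠ 0) ∧
      finrank K ↥(Sys S x' y' e ⊓ ⨅ i, CluB (x i) (y i) (D i) (E i) (b i) (I i)) ≤
        c0 - ∑ i, (I i).card := by
  have key : ∀ J : Finset (Fin N), BC S (fun i => gp (Fin N ⊕ κ) (Sum.inl i, 0))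
      (fun i => gp (Fin N ⊕ κ) (Sum.inl i, 1)) (fun i => gp (Fin N ⊕ κ) (Sum.inr i, 0))
      (fun i => gp (Fin N ⊕ κ) (Sum.inr i, 1)) e b J = GS S (wB b e J) := by
    intro J
    unfold BC GS
    congr 1
    · funext i
      rcases i with i | i <;> rfl
    · funext i
      rcases i with i | i <;> rfl
  obtain ⟨D, E, hDE, hle⟩ := cluB_conf hI hI0 (e := e) (S := S) (c0 := c0)
    (fun i => gp (Fin N ⊕ κ) (Sum.inl i, 0))
    (fun i => gp (Fin N ⊕ κ) (Sum.inl i, 1)) (fun i => gp (Fin N ⊕ κ) (Sum.inr i, 0))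
    (fun i => gp (Fin N ⊕ κ) (Sum.inr i, 1)) (by
      intro J
      rw [key J, finrank_GS hpos]
      have := h4 J
      exact_mod_cast this)
  exact ⟨GK (Fin N ⊕ κ), inferInstance, inferInstance, _, _, _, _, D, E, fun i => gp_ne _,
    fun i => gp_ne _, fun i => gp_ne _, fun i => gp_ne _, hDE, hle⟩

end Pool.Agent.Y205.MD
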