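import Pool.Agent.Y205.MD.Final
import Pool.Agent.TH545.SD.Conv
import Pool.Agent.H932R7.Final2
import Pool.Agent.TH387.SH.Tr

/-! Clusters of four points when the numbers of the conditions differ by more than the cube of the
multiplicities. -/

set_option autoImplicit false

namespace Pool.Agent.Y205.MD

open Finset Pool.Agent.TH176.Nag Pool.Agent.TH603.Sur Pool.Agent.TH763.DB Pool.Agent.TH2.NU
open Pool.Agent.TH387.SH (TF coe_TF card_TF)

/-- the theorem for bounded multiplicities, for emptiness and independence -/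
theorem bounded_gd {ι : Type} [Fintype ι] {w : ι → ℕ} {M q d : ℕ} (hq : 0 < q) (hqM : q ≤ M)
    (hw : ∀ i, w i ≤ M)
    (hfreq : ∀ i, q < w i → 2 * (w i * (w i + 1) * (w i + 2)) ≤
      ∑ j, if min 2 q ≤ w j ∧ w j < w i then w j * (w j + 1) else 0)
    (hsize : (M : ℝ) * (M + 1) * (M + 6 * √(M : ℝ) + 10) ≤ (((d + 1) * (d + 2) : ℕ) : ℝ)) :
    ((d + 2).choose 2 + 2 * (q + 1).choose 3 ≤ cond w → Emp w (TZ d)) ∧
      (cond w + 2 * (q + 1).choose 3 ≤ (d + 2).choose 2 → Sur w (TZ d)) := by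
  classical
  obtain ⟨n, hn⟩ : ∃ n, n = Fintype.card ι := ⟨_, rfl⟩
  obtain ⟨σ⟩ : Nonempty (Fin n ≃ ι) := ⟨(Fintype.equivFinOfCardEq hn.symm).symm⟩
  have hcond : cond (fun i => w (σ i)) = cond w := by
    unfold Pool.Agent.TH603.Sur.cond
    exact Equiv.sum_comp σ fun i => (w i + 1).choose 2
  obtain ⟨F, hF, hF'⟩ := H932R7.bounded2 ℚ (w := fun i => w (σ i)) (m := M) (k := q) hq hqM
    (fun a => hw _) (by
      intro i hi
      rw [Finset.sum_filter]
      refine (hfreq (σ i) hi).trans (le_of_eq ?_)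
      exact (Equiv.sum_comp σ fun j =>
        if min 2 q ≤ w j ∧ w j < w (σ i) then w j * (w j + 1) else 0).symm)
  have hsz : (M : ℝ) * (M + 1) * (M + 6 * Real.sqrt M + 10) ≤
      ((max ((d + 1) * (d + 2)) (∑ i, (w (σ i) + 1).choose 2) : ℕ) : ℝ) := by
    refine hsize.trans ?_
    exact_mod_cast le_max_left _ _
  constructor
  · intro h
    have h1 := (TH545.SD.emp_sur_of_expDim (w := fun i => w (σ i)) (d := d)
      ⟨F, hF, fun P hP => hF' P hP d ⟨hsz, Or.inl (by
        rw [← hcond] at h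
        exact h)⟩⟩).1 (by rw [hcond]; omega)
    exact Emp_equiv σ (fun _ => rfl) h1
  · intro h
    have h1 := (TH545.SD.emp_sur_of_expDim (w := fun i => w (σ i)) (d := d)
      ⟨F, hF, fun P hP => hF' P hP d ⟨hsz, Or.inr (Or.inl (by
        rw [← hcond] at h
        refine le_trans ?_ h
        refine Nat.add_le_add_right ?_ _
        exact sum_le_sum_of_subset (filter_subset _ _)))⟩⟩).2 (by rw [hcond]; omega)
    exact Sur_equiv σ (fun _ => rfl) h1

theorem choose_succ_two (x : ℕ) : (x + 1 + 1).choose 2 = (x + 1).choose 2 + (x + 1) := by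
  have h1 : 2 * (x + 1 + 1).choose 2 = (x + 1) * (x + 1 + 1) :=
    Pool.Agent.TH2.NU.two_choose (x + 1)
  have h2 : 2 * (x + 1).choose 2 = x * (x + 1) := Pool.Agent.TH2.NU.two_choose x
  have h3 : (x + 1) * (x + 1 + 1) = x * (x + 1) + 2 * (x + 1) := by ring
  omega

/-- intermediate numbers of conditions -/
theorem exists_mid {α : Type} [Fintype α] [DecidableEq α] {lo hi : α → ℕ} {M τ : ℕ}
    (h : ∀ z, lo z ≤ hi z) (hM : ∀ z, hi z ≤ M) (h1 : ∑ z, (lo z + 1).choose 2 < τ)
    (h2 : τ ≤ ∑ z, (hi z + 1).choose 2) :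
    ∃ u : α → ℕ, (∀ z, lo z ≤ u z) ∧ (∀ z, u z ≤ hi z) ∧ τ ≤ ∑ z, (u z + 1).choose 2 ∧
      ∑ z, (u z + 1).choose 2 < τ + M := by
  obtain ⟨S, hS⟩ : ∃ S : Finset (α → ℕ), S = (Fintype.piFinset fun z => Icc (lo z) (hi z)).filter
    fun u => τ ≤ ∑ z, (u z + 1).choose 2 := ⟨_, rfl⟩
  have hmem : ∀ u, u ∈ S ↔ (∀ z, lo z ≤ u z ∧ u z ≤ hi z) ∧ τ ≤ ∑ z, (u z + 1).choose 2 := by
    intro u
    rw [hS, mem_filter, Fintype.mem_piFinset]
    simp only [mem_Icc]
  have hne : S.Nonempty := ⟨hi, (hmem hi).2 ⟨fun z => ⟨h z, le_rfl⟩, h2⟩⟩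
  obtain ⟨u, huS, hmin⟩ := exists_min_image S (fun u => ∑ z, u z) hne
  obtain ⟨hu1, hu2⟩ := (hmem u).1 huS
  have hex : ∃ z, lo z < u z := by
    by_contra hcon
    push Not at hcon
    have : u = lo := funext fun z => le_antisymm (hcon z) (hu1 z).1
    rw [this] at hu2
    omega
  obtain ⟨z0, hz0⟩ := hex
  obtain ⟨u', hu'⟩ : ∃ u' : α → ℕ, u' = Function.update u z0 (u z0 - 1) := ⟨_, rfl⟩
  have e0 : u' z0 = u z0 - 1 := by rw [hu', Function.update_self]
  have e1 : ∀ z, z ≠ z0 → u' z = u z := fun z hz => by rw [hu', Function.update_of_ne hz]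
  have s1 : ∑ z, u z = ∑ z, u' z + 1 := by
    rw [← add_sum_erase _ _ (mem_univ z0), ← add_sum_erase _ u' (mem_univ z0), e0]
    have : ∑ x ∈ univ.erase z0, u' x = ∑ x ∈ univ.erase z0, u x :=
      sum_congr rfl fun z hz => e1 z (ne_of_mem_erase hz)
    rw [this]
    omega
  have s2 : ∑ z, (u z + 1).choose 2 = ∑ z, (u' z + 1).choose 2 + u z0 := by
    rw [← add_sum_erase _ _ (mem_univ z0), ← add_sum_erase _ (fun z => (u' z + 1).choose 2)
      (mem_univ z0)]
    have g1 : ∑ x ∈ univ.erase z0, (u' x + 1).choose 2 = ∑ x ∈ univ.erase z0, (u x + 1).choose 2 :=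
      sum_congr rfl fun z hz => by rw [e1 z (ne_of_mem_erase hz)]
    rw [g1]
    simp only [e0]
    obtain ⟨y, hy⟩ : ∃ y, u z0 = y + 1 := ⟨u z0 - 1, by omega⟩
    rw [hy, Nat.add_sub_cancel, choose_succ_two]
    omega
  have hu'S : u' ∉ S := fun hcon => by
    have := hmin u' hcon
    omega
  have hlt : ∑ z, (u' z + 1).choose 2 < τ := by
    by_contra hcon
    push Not at hcon
    apply hu'S
    rw [hmem]
    refine ⟨fun z => ?_, hcon⟩
    by_cases hz : z = z0
    · subst hz
      rw [e0]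
      have := (hu1 z).2
      omega
    · rw [e1 z hz]
      exact hu1 z
  refine ⟨u, fun z => (hu1 z).1, fun z => (hu1 z).2, hu2, ?_⟩
  have := (hu1 z0).2
  have := hM z0
  omega

/-- **The critical degree**, when the clusters have many points. -/
theorem bd_exact {r : ℕ} {A m : Fin r → ℕ} {κ : Type} [Fintype κ] {e : κ → ℕ} {q M d : ℕ}
    (hne : ∃ i, 0 < A i) (hm : ∀ i, 1 ≤ m i) (hq : 0 < q) (hqM : q ≤ M) (he : ∀ y, e y ≤ q)
    (hmM : ∀ i, 2 * m i + 1 ≤ M)
    (hA : ∀ i, 0 < A i → 4 * ∑ j, m j * A j + A i * ((2 * m i + 1) * (2 * m i + 2)) ≤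
      A i * (M * (M + 1)))
    (hfreq : 2 * (M * (M + 1) * (M + 2)) ≤ ∑ y, if min 2 q ≤ e y then e y * (e y + 1) else 0)
    (ht : 2 * (q + 1).choose 3 + d + 2 + M ≤ ∑ j, m j * A j)
    (hsize : (M : ℝ) * (M + 1) * (M + 6 * √(M : ℝ) + 10) ≤ (((d + 1) * (d + 2) : ℕ) : ℝ))
    {T : ℕ} (hT : T = ∑ i, 4 * A i * (m i + 1).choose 2 + cond e)
    (hT1 : d * (d + 1) < 2 * T) (hT2 : 2 * T ≤ (d + 2) * (d + 3)) :
    ((d + 2).choose 2 ≤ T →
      Emp (Sum.elim (fun p : (Σ i, Fin (A i)) × (Fin 2 × Fin 2) => m p.1.1) e) (TZ d)) ∧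
    (T ≤ (d + 2).choose 2 →
      Sur (Sum.elim (fun p : (Σ i, Fin (A i)) × (Fin 2 × Fin 2) => m p.1.1) e) (TZ d)) := by
  classical
  have hcd : 2 * (d + 2).choose 2 = (d + 1) * (d + 2) := Pool.Agent.TH2.NU.two_choose (d + 1)
  have hT1' : (d + 2).choose 2 ≤ T + d := by
    have e1 : (d + 1) * (d + 2) = d * (d + 1) + 2 * (d + 1) := by ring
    omega
  have hT2' : T ≤ (d + 2).choose 2 + (d + 2) := by
    have e1 : (d + 2) * (d + 3) = (d + 1) * (d + 2) + 2 * (d + 2) := by ring
    omega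
  obtain ⟨t, htt⟩ : ∃ t, t = ∑ j, m j * A j := ⟨_, rfl⟩
  rw [← htt] at ht
  simp only [← htt] at hA
  have hne' : Nonempty (Σ i, Fin (A i)) := by
    obtain ⟨i, hi⟩ := hne
    exact ⟨⟨i, ⟨0, hi⟩⟩⟩
  -- sums over the clusters
  have hsum : ∀ f : ℕ → ℕ, ∑ z : Σ i, Fin (A i), f (m z.1) = ∑ i, A i * f (m i) := by
    intro f
    rw [Fintype.sum_sigma]
    refine sum_congr rfl fun i _ => ?_
    simp
  have hsumt : ∑ z : Σ i, Fin (A i), m z.1 = t := by
    rw [htt, hsum fun x => x]
    exact sum_congr rfl fun i _ => Nat.mul_comm _ _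
  have hquad : ∑ i, 4 * A i * (m i + 1).choose 2 =
      ∑ z : Σ i, Fin (A i), 4 * (m z.1 + 1).choose 2 := by
    rw [hsum fun x => 4 * (x + 1).choose 2]
    exact sum_congr rfl fun i _ => by ring
  have hch : ∀ x : ℕ, (2 * x + 1).choose 2 + x = 4 * (x + 1).choose 2 := by
    intro x
    have h1 : 2 * (2 * x + 1).choose 2 = (2 * x) * (2 * x + 1) :=
      Pool.Agent.TH2.NU.two_choose (2 * x)
    have h2 : 2 * (x + 1).choose 2 = x * (x + 1) := Pool.Agent.TH2.NU.two_choose x
    nlinarith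
  have hch' : ∀ x : ℕ, (2 * x + 1 + 1).choose 2 = (2 * x + 1).choose 2 + (2 * x + 1) := fun x =>
    choose_succ_two (2 * x)
  -- the conditions of the raised vectors
  have hlw : ∀ J : Finset (Σ i, Fin (A i)), ∑ i, 4 * A i * (m i + 1).choose 2 + t ≤
      ∑ z, (lw (fun z : Σ i, Fin (A i) => 2 * m z.1) J z + 1).choose 2 +
        2 * ∑ z ∈ Jᶜ, m z.1 := by
    intro J
    have e1 : ∑ z ∈ Jᶜ, m z.1 = ∑ z, if z ∈ J then 0 else m z.1 := by
      rw [← sum_filter_add_sum_filter_not univ (fun z => z ∈ J) (fun z => if z ∈ J then 0 else m z.1)]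
      have e2 : ∑ z ∈ univ.filter (fun z => z ∈ J), (if z ∈ J then 0 else m z.1) = 0 :=
        sum_eq_zero fun z hz => if_pos (mem_filter.1 hz).2
      have e3 : (univ.filter fun z => z ∉ J) = Jᶜ := by
        ext z
        simp
      rw [e2, zero_add, e3]
      exact sum_congr rfl fun z hz => (if_neg (mem_compl.1 hz)).symm
    rw [e1, hquad, ← hsumt, mul_sum, ← sum_add_distrib, ← sum_add_distrib]
    refine sum_le_sum fun z _ => ?_
    have h1 := hch (m z.1)
    have h2 := hch' (m z.1)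
    simp only [lw]
    split_ifs
    · omega
    · simp only [add_zero]
      omega
  have hb0 : ∑ z : Σ i, Fin (A i), (2 * m z.1 + 1).choose 2 + t =
      ∑ i, 4 * A i * (m i + 1).choose 2 := by
    rw [hquad, ← hsumt, ← sum_add_distrib]
    exact sum_congr rfl fun z _ => hch (m z.1)
  -- the frequency condition
  have hfr : ∀ v : (Σ i, Fin (A i)) → ℕ, (∀ z, v z ≤ M) → ∀ i, q < (Sum.elim v e) i →
      2 * ((Sum.elim v e) i * ((Sum.elim v e) i + 1) * ((Sum.elim v e) i + 2)) ≤
        ∑ j, if min 2 q ≤ (Sum.elim v e) j ∧ (Sum.elim v e) j < (Sum.elim v e) i then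
          (Sum.elim v e) j * ((Sum.elim v e) j + 1) else 0 := by
    intro v hv i hi
    have hiM : (Sum.elim v e) i ≤ M := by
      rcases i with i | i
      · exact hv i
      · exact (he i).trans hqM
    have h1 : 2 * ((Sum.elim v e) i * ((Sum.elim v e) i + 1) * ((Sum.elim v e) i + 2)) ≤
        2 * (M * (M + 1) * (M + 2)) := by gcongr
    refine (h1.trans hfreq).trans ?_
    rw [Fintype.sum_sum_type]
    refine le_trans ?_ (Nat.le_add_left _ _)
    refine sum_le_sum fun y _ => ?_
    simp only [Sum.elim_inr]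
    have := he y
    split_ifs with g1 g2 g2
    · exact le_rfl
    · exact absurd ⟨g1, by omega⟩ g2
    · exact Nat.zero_le _
    · exact le_rfl
  have hcondE : ∀ v : (Σ i, Fin (A i)) → ℕ, cond (Sum.elim v e) =
      ∑ z, (v z + 1).choose 2 + cond e := by
    intro v
    unfold Pool.Agent.TH603.Sur.cond
    rw [Fintype.sum_sum_type]
    simp only [Sum.elim_inl, Sum.elim_inr]
  have hbd := fun (v : (Σ i, Fin (A i)) → ℕ) (hv : ∀ z, v z ≤ M) =>
    bounded_gd (w := Sum.elim v e) (M := M) (q := q) (d := d) hq hqM (by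
      rintro (z | y)
      · exact hv z
      · exact (he y).trans hqM) (hfr v hv) hsize
  have key := doubling' (b := fun p : Σ i, Fin (A i) => 2 * m p.1) (fun p => by
      have := hm p.1
      omega) (e := e) (S := TF d) (fun u hu => by
      have h1 : u ∈ TZ d := by rw [← coe_TF]; exact mem_coe.2 hu
      exact ⟨h1.1, h1.2.1⟩) (by
      rw [coe_TF]
      refine (hbd (fun p => 2 * m p.1) (fun z => by have := hmM z.1; omega)).2 ?_
      rw [hcondE]
      omega) (by
      intro J k hk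
      rw [coe_TF]
      have hhalf : ∀ a : ℕ, (2 * a + 1) / 2 = a := fun a => by omega
      simp only [hhalf]
      obtain ⟨P, hP⟩ : ∃ P, P = ∑ z ∈ Jᶜ, m z.1 := ⟨_, rfl⟩
      have hPr : ∑ x ∈ Jᶜ, (m x.1 : ℝ) = (P : ℝ) := by rw [hP]; push_cast; rfl
      have hJ := hlw J
      rw [← hP] at hJ
      have hPk : m k.1 ≤ P := by
        rw [hP]
        exact single_le_sum (f := fun z : Σ i, Fin (A i) => m z.1) (fun _ _ => Nat.zero_le _)
          (mem_compl.2 hk)
      have hPt : P ≤ t := by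
        rw [hP, ← hsumt]
        exact sum_le_sum_of_subset (subset_univ _)
      obtain ⟨cJ, hcJ⟩ : ∃ cJ, cJ = ∑ z, (lw (fun z : Σ i, Fin (A i) => 2 * m z.1) J z + 1).choose 2 :=
        ⟨_, rfl⟩
      rw [← hcJ] at hJ
      have hcJr : ∑ x, (((lw (fun z : Σ i, Fin (A i) => 2 * m z.1) J x + 1).choose 2 : ℕ) : ℝ) =
          (cJ : ℝ) := by rw [hcJ]; push_cast; rfl
      rw [hPr, hcJr]
      obtain ⟨lo, hlo⟩ : ∃ lo : (Σ i, Fin (A i)) → ℕ,
        lo = lw (fun z : Σ i, Fin (A i) => 2 * m z.1) (insert k J) := ⟨_, rfl⟩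
      rw [← hlo]
      have hloJ : ∀ z, z ≠ k → lo z = lw (fun z : Σ i, Fin (A i) => 2 * m z.1) J z := by
        intro z hz
        rw [hlo]
        unfold lw
        simp [mem_insert, hz]
      have hlok : lo k = 2 * m k.1 + 1 := by
        rw [hlo]
        unfold lw
        rw [if_pos (mem_insert_self _ _)]
      have hlokJ : lw (fun z : Σ i, Fin (A i) => 2 * m z.1) J k = 2 * m k.1 := by
        unfold lw
        rw [if_neg hk, add_zero]
      have hlo2 : ∀ z, lo z ≤ 2 * m z.1 + 1 := by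
        intro z
        rw [hlo]
        simp only [lw]
        split_ifs <;> omega
      have hloS : ∑ z, (lo z + 1).choose 2 = cJ + (2 * m k.1 + 1) := by
        rw [hcJ, ← add_sum_erase _ _ (mem_univ k),
          ← add_sum_erase _ (fun z => (lw (fun z : Σ i, Fin (A i) => 2 * m z.1) J z + 1).choose 2)
          (mem_univ k)]
        have g1 : ∑ x ∈ univ.erase k, (lo x + 1).choose 2 = ∑ x ∈ univ.erase k,
            (lw (fun z : Σ i, Fin (A i) => 2 * m z.1) J x + 1).choose 2 :=
          sum_congr rfl fun z hz => by rw [hloJ z (ne_of_mem_erase hz)]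
        rw [g1]
        simp only [hlok, hlokJ]
        rw [hch']
        omega
      have hkr : (0 : ℝ) ≤ m k.1 := Nat.cast_nonneg _
      have hPkr : (m k.1 : ℝ) ≤ P := by exact_mod_cast hPk
      obtain ⟨τ, hτ⟩ : ∃ τ, τ = (d + 2).choose 2 + 2 * (q + 1).choose 3 - cond e := ⟨_, rfl⟩
      rcases Nat.lt_or_ge (∑ z, (lo z + 1).choose 2) τ with hcase | hcase
      · -- further raisings
        obtain ⟨hi, hhi⟩ : ∃ hi : (Σ i, Fin (A i)) → ℕ, ∀ z, hi z =
          if z.1 = k.1 then M else lw (fun z : Σ i, Fin (A i) => 2 * m z.1) J z := ⟨_, fun _ => rfl⟩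
        have hlohi : ∀ z, lo z ≤ hi z := by
          intro z
          rw [hhi]
          split_ifs with hz
          · exact (hlo2 z).trans (hmM z.1)
          · rw [hloJ z fun hcon => hz (by rw [hcon])]
        have hhiM : ∀ z, hi z ≤ M := by
          intro z
          rw [hhi]
          split_ifs
          · exact le_rfl
          · have g1 := hmM z.1
            have g2 : lw (fun z : Σ i, Fin (A i) => 2 * m z.1) J z ≤ 2 * m z.1 + 1 := by
              simp only [lw]
              split_ifs <;> omega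
            omega
        have hAk : 0 < A k.1 := lt_of_le_of_lt (Nat.zero_le _) k.2.2
        have hhiS : cJ + 2 * t ≤ ∑ z, (hi z + 1).choose 2 := by
          have g1 : ∑ z, ((lw (fun z : Σ i, Fin (A i) => 2 * m z.1) J z + 1).choose 2 +
              if z.1 = k.1 then ((M + 1).choose 2 - (2 * m z.1 + 2).choose 2) else 0) ≤
              ∑ z, (hi z + 1).choose 2 := by
            refine sum_le_sum fun z _ => ?_
            rw [hhi]
            split_ifs with hz
            · have g2 : (lw (fun z : Σ i, Fin (A i) => 2 * m z.1) J z + 1).choose 2 ≤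
                  (2 * m z.1 + 2).choose 2 := by
                apply Nat.choose_le_choose
                simp only [lw]
                split_ifs <;> omega
              have g3 : (2 * m z.1 + 2).choose 2 ≤ (M + 1).choose 2 :=
                Nat.choose_le_choose 2 (by have := hmM z.1; omega)
              omega
            · exact le_rfl
          rw [sum_add_distrib, ← hcJ] at g1
          refine le_trans (Nat.add_le_add_left ?_ _) g1
          have g2 : ∑ z : Σ i, Fin (A i), (if z.1 = k.1 then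
              ((M + 1).choose 2 - (2 * m z.1 + 2).choose 2) else 0) =
              A k.1 * ((M + 1).choose 2 - (2 * m k.1 + 2).choose 2) := by
            rw [Fintype.sum_sigma, Finset.sum_eq_single k.1]
            · simp
            · intro i _ hi
              simp [hi]
            · intro hcon
              exact absurd (mem_univ _) hcon
          rw [g2]
          have g3 := hA k.1 hAk
          have g4 : 2 * (M + 1).choose 2 = M * (M + 1) := Pool.Agent.TH2.NU.two_choose M
          have g5 : 2 * (2 * m k.1 + 2).choose 2 = (2 * m k.1 + 1) * (2 * m k.1 + 2) :=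
            Pool.Agent.TH2.NU.two_choose (2 * m k.1 + 1)
          rw [← g4, ← g5] at g3
          rw [Nat.mul_sub]
          have g6 : A k.1 * (2 * (2 * m k.1 + 2).choose 2) =
              2 * (A k.1 * (2 * m k.1 + 2).choose 2) := by ring
          have g7 : A k.1 * (2 * (M + 1).choose 2) = 2 * (A k.1 * (M + 1).choose 2) := by ring
          rw [g6, g7] at g3
          omega
        have hτ2 : τ + M ≤ cJ + 2 * P := by omega
        obtain ⟨u, hu1, hu2, hu3, hu4⟩ := exists_mid hlohi hhiM hcase (by omega)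
        refine ⟨u, hu1, fun z hz => ?_, ?_, ?_⟩
        · have hzk : z.1 ≠ k.1 := fun hcon => hz (by rw [hcon])
          have g1 := hu1 z
          have g2 := hu2 z
          rw [hhi, if_neg hzk] at g2
          rw [hloJ z fun hcon => hzk (by rw [hcon])] at g1
          omega
        · refine (hbd u fun z => (hu2 z).trans (hhiM z)).1 ?_
          rw [hcondE]
          omega
        · have g1 : ((∑ z, (u z + 1).choose 2 : ℕ) : ℝ) ≤ ((cJ + 2 * P : ℕ) : ℝ) := by
            exact_mod_cast (by omega : ∑ z, (u z + 1).choose 2 ≤ cJ + 2 * P)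
          push_cast at g1 ⊢
          have g2 : (m k.1 : ℝ) * (∑ x, (((u x + 1).choose 2 : ℕ) : ℝ) - cJ) ≤ m k.1 * (2 * P) :=
            mul_le_mul_of_nonneg_left (by linarith) hkr
          nlinarith
      · refine ⟨lo, fun _ => le_rfl, fun z hz => hloJ z fun hcon => hz (by rw [hcon]), ?_, ?_⟩
        · refine (hbd lo fun z => (hlo2 z).trans (hmM z.1)).1 ?_
          rw [hcondE]
          omega
        · have g1 : ((∑ z, (lo z + 1).choose 2 : ℕ) : ℝ) = ((cJ + (2 * m k.1 + 1) : ℕ) : ℝ) := by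
            rw [hloS]
          push_cast at g1 ⊢
          rw [g1]
          nlinarith)
  have hq' : (fun p : (Σ i, Fin (A i)) × (Fin 2 × Fin 2) => qv (2 * m p.1.1) p.2) =
      fun p => m p.1.1 := by
    funext p
    unfold qv
    have := p.2.1.2
    omega
  rw [hq', coe_TF, card_TF] at key
  have hcond : cond (Sum.elim (fun p : (Σ i, Fin (A i)) × (Fin 2 × Fin 2) => m p.1.1) e) = T := by
    rw [hT]
    unfold Pool.Agent.TH603.Sur.cond
    rw [Fintype.sum_sum_type]
    simp only [Sum.elim_inl, Sum.elim_inr]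
    rw [Fintype.sum_prod_type, Fintype.sum_sigma]
    congr 1
    refine sum_congr rfl fun i _ => ?_
    simp only [sum_const, card_univ, Fintype.card_fin, Fintype.card_prod, smul_eq_mul]
    ring
  rw [hcond] at key
  exact key

end Pool.Agent.Y205.MD
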