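import Pool.Agent.Y205.MD.Crit3

/-! Blocks of consecutive spectators, and the numerical choices for nearly equal multiplicities. -/

set_option autoImplicit false

namespace Pool.Agent.Y205.MD

open Finset

/-- blocks of a monotone list -/
theorem exists_blocks {c B m s : ℕ} (hB : 1 ≤ B) (hc : B ≤ c) {e : Fin c → ℕ} (he : Monotone e)
    (h1 : ∀ j, m ≤ e j) (h2 : ∀ j, e j ≤ m + s) :
    ∃ (G : ℕ) (π : Fin c → Fin G) (lo hi : Fin G → ℕ), G ≤ c ∧
      (∀ g, B ≤ ∑ y, if π y = g then 1 else 0) ∧ (∀ g, ∑ y, (if π y = g then 1 else 0) ≤ 2 * B) ∧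
      (∀ y, lo (π y) ≤ e y) ∧ (∀ y, e y ≤ hi (π y)) ∧ (∀ g, m ≤ lo g) ∧ (∀ g, hi g ≤ m + s) ∧
      (∀ g, lo g ≤ hi g) ∧ ∑ g, (hi g - lo g) ≤ s := by
  classical
  obtain ⟨G, hG⟩ : ∃ G, G = c / B := ⟨_, rfl⟩
  have hG1 : 1 ≤ G := by rw [hG]; exact Nat.div_pos hc hB
  have hGc : G * B ≤ c := by rw [hG]; exact Nat.div_mul_le_self c B
  have hGc' : c < G * B + B := by
    have := Nat.lt_div_mul_add (a := c) hB
    rw [← hG] at this
    exact this
  have hGle : G ≤ c := le_trans (Nat.le_mul_of_pos_right G hB) hGc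
  obtain ⟨E, hE⟩ : ∃ E : ℕ → ℕ, ∀ j, E j = e ⟨min j (c - 1), by omega⟩ := ⟨_, fun _ => rfl⟩
  have hEm : Monotone E := by
    intro i j hij
    rw [hE, hE]
    apply he
    rw [Fin.mk_le_mk]
    exact min_le_min_right _ hij
  have hEe : ∀ j : Fin c, E j = e j := by
    intro j
    rw [hE]
    congr 1
    apply Fin.ext
    simp only
    have := j.2
    omega
  obtain ⟨pt, hpt⟩ : ∃ pt : ℕ → ℕ, ∀ g, pt g = if g < G then g * B else c := ⟨_, fun _ => rfl⟩
  have hptm : Monotone pt := by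
    apply monotone_nat_of_le_succ
    intro g
    rw [hpt, hpt]
    split_ifs with g1 g2 g2
    · exact Nat.mul_le_mul_right _ (by omega)
    · have : g * B ≤ G * B := Nat.mul_le_mul_right _ (by omega)
      omega
    · omega
    · exact le_rfl
  have hpe : ∀ y : Fin c, pt (min (y / B) (G - 1)) ≤ y ∧ (y : ℕ) ≤ pt (min (y / B) (G - 1) + 1) := by
    intro y
    have g1 := Nat.div_mul_le_self (y : ℕ) B
    have g2 := Nat.lt_div_mul_add (a := (y : ℕ)) hB
    have g3 := y.2
    constructor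
    · rw [hpt, if_pos (by omega)]
      refine le_trans (Nat.mul_le_mul_right _ (min_le_left _ _)) g1
    · rw [hpt]
      split_ifs with g4
      · have g5 : min ((y : ℕ) / B) (G - 1) = (y : ℕ) / B := by omega
        rw [g5]
        have : ((y : ℕ) / B + 1) * B = (y : ℕ) / B * B + B := by ring
        omega
      · omega
  refine ⟨G, fun y => ⟨min (y / B) (G - 1), by omega⟩, fun g => E (pt g), fun g => E (pt (g + 1)),
    hGle, fun g => ?_, fun g => ?_, fun y => ?_, fun y => ?_, fun g => ?_, fun g => ?_,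
    fun g => ?_, ?_⟩
  · -- at least `B`
    rw [← card_filter]
    have hgG := g.2
    have hgB : (g : ℕ) * B + B ≤ c := by
      have : ((g : ℕ) + 1) * B ≤ G * B := Nat.mul_le_mul_right _ (by omega)
      have e1 : ((g : ℕ) + 1) * B = g * B + B := by ring
      omega
    have hcard : (range B).card = B := card_range B
    conv_lhs => rw [← hcard]
    refine card_le_card_of_injOn (fun i => (⟨min (g * B + i) (c - 1), by omega⟩ : Fin c)) ?_ ?_
    · intro i hi
      have hi' : i < B := mem_range.1 (mem_coe.1 hi)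
      rw [mem_coe, mem_filter]
      refine ⟨mem_univ _, ?_⟩
      apply Fin.ext
      simp only
      have e1 : min ((g : ℕ) * B + i) (c - 1) = i + g * B := by omega
      rw [e1, Nat.add_mul_div_right _ _ hB, Nat.div_eq_of_lt hi']
      omega
    · intro i hi j hj hij
      have hi' : i < B := mem_range.1 (mem_coe.1 hi)
      have hj' : j < B := mem_range.1 (mem_coe.1 hj)
      have := congrArg Fin.val hij
      simp only at this
      omega
  · -- at most `2 B`
    rw [← card_filter]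
    have hcard : (Ico ((g : ℕ) * B) (g * B + 2 * B)).card = 2 * B := by
      rw [Nat.card_Ico]
      omega
    conv_rhs => rw [← hcard]
    refine card_le_card_of_injOn (fun y : Fin c => (y : ℕ)) ?_ (fun i _ j _ hij => Fin.ext hij)
    intro y hy
    rw [mem_coe, mem_filter] at hy
    have hy' := congrArg Fin.val hy.2
    simp only at hy'
    have g1 := Nat.div_mul_le_self (y : ℕ) B
    have g2 := Nat.lt_div_mul_add (a := (y : ℕ)) hB
    have g3 := y.2
    rw [mem_coe, mem_Ico]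
    simp only
    constructor
    · have : (g : ℕ) * B ≤ (y : ℕ) / B * B := Nat.mul_le_mul_right _ (by omega)
      omega
    · rcases Nat.lt_or_ge ((y : ℕ) / B) (G - 1) with g4 | g4
      · have g5 : (y : ℕ) / B = g := by omega
        rw [g5] at g2
        omega
      · have g5 : (g : ℕ) = G - 1 := by omega
        have g6 : ((g : ℕ) + 1) * B = G * B := by
          congr 1
          omega
        have g7 : ((g : ℕ) + 1) * B = g * B + B := by ring
        omega
  · rw [← hEe]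
    exact hEm (hpe y).1
  · rw [← hEe]
    exact hEm (hpe y).2
  · simp only [hE]
    exact h1 _
  · simp only [hE]
    exact h2 _
  · exact hEm (hptm (Nat.le_succ _))
  · have e1 : ∑ g : Fin G, (E (pt (g + 1)) - E (pt g)) =
        ∑ g ∈ range G, (E (pt (g + 1)) - E (pt g)) :=
      Fin.sum_univ_eq_sum_range (fun g => E (pt (g + 1)) - E (pt g)) G
    rw [e1, sum_range_tsub (f := fun g => E (pt g)) (hEm.comp hptm)]
    have g1 : E (pt G) ≤ m + s := by rw [hE]; exact h2 _
    have g2 : m ≤ E (pt 0) := by rw [hE]; exact h1 _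
    omega

/-- the choice of the parameters -/
theorem near_num {q m s d : ℝ} (hs : 0 ≤ s) (h1 : 1000 * (s + 1) ≤ q)
    (h2 : 1000000 * (s + 1) ^ 3 ≤ m * q) (h3 : 2 / 5 * q ≤ m) (hd1 : q * m ≤ d + 3)
    (hd2 : d ≤ 401 / 400 * (q * m)) :
    ∃ (K B a : ℕ) (x0 : ℝ), 0 ≤ x0 ∧ 59 ≤ K ∧ 2 * (K : ℝ) * (2 * (m + s) + 1 + x0) ≤ d ∧
      d + 3 ≤ 2 * K * (B * m) ∧ 2 ≤ B ∧ B ≤ a ∧ 40 / 39 * (q ^ 2 * m) ≤ a * x0 ^ 2 ∧
      (s + 1) * (4 * a + 2 * B + 3) ≤ 13 / 100 * q ∧ (s + 1) * B ≤ 96 / 10000 * q ∧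
      132 / 1000 * q ≤ (K : ℝ) ^ 2 ∧ x0 ≤ 633 / 100000 * (q * m) := by
  obtain ⟨σ, hσ⟩ : ∃ σ : ℝ, σ = s + 1 := ⟨_, rfl⟩
  have hσ1 : 1 ≤ σ := by linarith
  rw [← hσ] at h1 h2
  obtain ⟨P, hP⟩ : ∃ P : ℝ, P = q * m := ⟨_, rfl⟩
  rw [← hP] at hd1 hd2
  have hq : 1000 ≤ q := by linarith
  have hm : 400 ≤ m := by linarith
  have hq0 : 0 < q := by linarith
  have hm0 : 0 < m := by linarith
  have hσ0 : 0 < σ := by linarith
  have h2' : 1000000 * σ ^ 3 ≤ P := by rw [hP]; linarith
  have hσ3 : σ ≤ σ ^ 3 := le_self_pow₀ hσ1 (by norm_num)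
  have hσP : 1000000 * σ ≤ P := by linarith
  have hP0 : 0 < P := by rw [hP]; positivity
  have hmP : 1000 * m ≤ P := by
    rw [hP]
    exact mul_le_mul_of_nonneg_right hq hm0.le
  have hqP : 400 * q ≤ P := by
    rw [hP, mul_comm q m]
    exact mul_le_mul_of_nonneg_right hm hq0.le
  have hP4 : 400000 ≤ P := by linarith
  have h2σm : 2 * σ ≤ 5 / 1000 * m := by linarith
  obtain ⟨x, hx⟩ : ∃ x : ℝ, x = √(40 * σ * P) := ⟨_, rfl⟩
  have hx0 : 0 ≤ x := by rw [hx]; exact Real.sqrt_nonneg _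
  have hx2 : x ^ 2 = 40 * σ * P := by rw [hx]; exact Real.sq_sqrt (by positivity)
  have hxP : x ≤ 633 / 100000 * P := by
    rw [hx, Real.sqrt_le_left (by positivity)]
    have g0 : 40 * σ * P ≤ (40 / 1000000 * P) * P := mul_le_mul_of_nonneg_right (by linarith) hP0.le
    have g1 : 0 ≤ P * P := by positivity
    have g2 : (633 / 100000 * P) ^ 2 = 400689 / 10000000000 * (P * P) := by ring
    rw [g2]
    linarith
  have hσx : σ * x ≤ 633 / 100000 * P := by
    have g1 : (σ * x) ^ 2 ≤ (633 / 100000 * P) ^ 2 := by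
      rw [mul_pow, hx2]
      have g0 : 40 * (σ ^ 3) * P ≤ (40 / 1000000 * P) * P :=
        mul_le_mul_of_nonneg_right (by linarith) hP0.le
      have g1 : 0 ≤ P * P := by positivity
      have g2 : (633 / 100000 * P) ^ 2 = 400689 / 10000000000 * (P * P) := by ring
      have g3 : σ ^ 2 * (40 * σ * P) = 40 * (σ ^ 3) * P := by ring
      rw [g2, g3]
      linarith
    exact le_of_sq_le_sq g1 (by positivity)
  obtain ⟨X, hX⟩ : ∃ X : ℝ, X = 2 * (m + s) + 1 + x := ⟨_, rfl⟩
  have hXle : X ≤ 2005 / 1000 * m + x := by rw [hX]; linarith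
  have hXge : 2 * m ≤ X := by rw [hX]; linarith
  have hX0 : 0 < X := by linarith
  have hXP : X ≤ 8335 / 1000000 * P := by linarith
  obtain ⟨z, hz⟩ : ∃ z : ℝ, z = (P - 3) / (2 * X) := ⟨_, rfl⟩
  have hzX : 2 * z * X = P - 3 := by rw [hz]; field_simp
  have hz59 : 59 ≤ z := by
    rw [hz, le_div_iff₀ (by positivity)]
    linarith
  obtain ⟨K, hK⟩ : ∃ K : ℕ, K = ⌊z⌋₊ := ⟨_, rfl⟩
  have hKz : (K : ℝ) ≤ z := by rw [hK]; exact Nat.floor_le (by linarith)
  have hKz' : z < K + 1 := by rw [hK]; exact Nat.lt_floor_add_one z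
  have hK59 : 59 ≤ K := by
    rw [hK]
    exact Nat.le_floor (by exact_mod_cast hz59)
  have hKr : 58 * z ≤ 59 * K := by linarith
  have hK0 : (0 : ℝ) < K := by linarith
  have hKX : 58 * (P - 3) ≤ 118 * (K * X) := by
    have := mul_le_mul_of_nonneg_right hKr hX0.le
    linarith
  obtain ⟨B, hB⟩ : ∃ B : ℕ, B = ⌈(d + 3) / (2 * K * m)⌉₊ := ⟨_, rfl⟩
  have hB1 : (d + 3) / (2 * K * m) ≤ B := by rw [hB]; exact Nat.le_ceil _
  have hB2 : (B : ℝ) < (d + 3) / (2 * K * m) + 1 := by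
    rw [hB]
    exact Nat.ceil_lt_add_one (div_nonneg (by linarith) (by positivity))
  have hB3 : d + 3 ≤ 2 * K * (B * m) := by
    rw [div_le_iff₀ (by positivity)] at hB1
    linarith
  have hBX : (d + 3) / (2 * K * m) * m ≤ 102 / 100 * X := by
    have e1 : (d + 3) / (2 * K * m) * m = (d + 3) / (2 * K) := by field_simp
    rw [e1, div_le_iff₀ (by positivity)]
    linarith
  have hBm : B * m ≤ 102 / 100 * X + m := by
    have := mul_le_mul_of_nonneg_right hB2.le hm0.le
    linarith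
  have hσB : σ * B ≤ 96 / 10000 * q := by
    have g1 : m * (σ * B) ≤ m * (96 / 10000 * q) := by
      calc m * (σ * B) = σ * (B * m) := by ring
        _ ≤ σ * (102 / 100 * X + m) := mul_le_mul_of_nonneg_left hBm hσ0.le
        _ ≤ σ * (102 / 100 * (2005 / 1000 * m + x) + m) := by
          apply mul_le_mul_of_nonneg_left _ hσ0.le
          linarith
        _ = 30451 / 10000 * (σ * m) + 102 / 100 * (σ * x) := by ring
        _ ≤ 30451 / 10000 * (q / 1000 * m) + 102 / 100 * (633 / 100000 * P) := by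
          have : σ * m ≤ q / 1000 * m := mul_le_mul_of_nonneg_right (by linarith) hm0.le
          linarith
        _ ≤ m * (96 / 10000 * q) := by
          rw [hP]
          have : 0 < q * m := by positivity
          linarith
    exact le_of_mul_le_mul_left g1 hm0
  obtain ⟨a, ha⟩ : ∃ a : ℕ, a = ⌈q / (39 * σ)⌉₊ := ⟨_, rfl⟩
  have ha1 : q / (39 * σ) ≤ a := by rw [ha]; exact Nat.le_ceil _
  have ha2 : (a : ℝ) < q / (39 * σ) + 1 := by
    rw [ha]
    exact Nat.ceil_lt_add_one (by positivity)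
  have ha3 : q ≤ 39 * (σ * a) := by
    rw [div_le_iff₀ (by positivity)] at ha1
    linarith
  have ha4 : 39 * (σ * a) ≤ q + 39 * σ := by
    have := mul_le_mul_of_nonneg_right ha2.le (show 0 ≤ 39 * σ by positivity)
    have e1 : (q / (39 * σ) + 1) * (39 * σ) = q + 39 * σ := by field_simp
    rw [e1] at this
    linarith
  have hBa : B ≤ a := by
    have g1 : σ * (B : ℝ) ≤ σ * a := by linarith
    have g2 : (B : ℝ) ≤ a := le_of_mul_le_mul_left g1 hσ0
    exact_mod_cast g2
  have hB2' : 2 ≤ B := by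
    by_contra hcon
    have : B ≤ 1 := by omega
    have hb : (B : ℝ) ≤ 1 := by exact_mod_cast this
    have g1 : 2 * (K : ℝ) * (B * m) ≤ 2 * K * (1 * m) := by gcongr
    have g2 : 2 * (K : ℝ) * (1 * m) ≤ K * X := by
      have := mul_le_mul_of_nonneg_left hXge hK0.le
      linarith
    have g3 : 2 * (K : ℝ) * X ≤ P - 3 := by
      rw [← hzX]
      have := mul_le_mul_of_nonneg_right hKz hX0.le
      linarith
    linarith
  refine ⟨K, B, a, x, hx0, hK59, ?_, hB3, hB2', hBa, ?_, ?_, ?_, ?_, ?_⟩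
  · rw [← hX]
    have g3 : 2 * (K : ℝ) * X ≤ P - 3 := by
      rw [← hzX]
      have := mul_le_mul_of_nonneg_right hKz hX0.le
      linarith
    linarith
  · rw [hx2]
    have e1 : (a : ℝ) * (40 * σ * P) = 40 / 39 * (39 * (σ * a)) * P := by ring
    have e2 : 40 / 39 * (q ^ 2 * m) = 40 / 39 * q * P := by rw [hP]; ring
    rw [e1, e2]
    apply mul_le_mul_of_nonneg_right _ hP0.le
    linarith
  · rw [← hσ]
    linarith
  · rw [← hσ]
    exact hσB
  · by_contra hcon
    push Not at hcon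
    have g0 : (58 * (P - 3)) ^ 2 ≤ (118 * (K * X)) ^ 2 :=
      pow_le_pow_left₀ (by linarith) hKX 2
    have g1 : X ^ 2 ≤ 9 * m ^ 2 + 2 * x ^ 2 := by
      have : X ^ 2 ≤ (2005 / 1000 * m + x) ^ 2 := pow_le_pow_left₀ hX0.le hXle 2
      have g12 := sq_nonneg (2005 / 1000 * m - x)
      have g13 := sq_nonneg m
      linarith
    have g2 : x ^ 2 ≤ 40 / 1000 * (q * P) := by
      rw [hx2]
      have : σ * P ≤ q / 1000 * P := mul_le_mul_of_nonneg_right (by linarith) hP0.le
      linarith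
    have g3 : X ^ 2 ≤ 9 * m ^ 2 + 80 / 1000 * (q * P) := by linarith
    have g4 : (K : ℝ) ^ 2 * X ^ 2 ≤ (132 / 1000 * q) * (9 * m ^ 2 + 80 / 1000 * (q * P)) :=
      mul_le_mul hcon.le g3 (by positivity) (by positivity)
    have g5 : (118 * (K * X)) ^ 2 = 13924 * ((K : ℝ) ^ 2 * X ^ 2) := by ring
    have g6 : (57 * P) ^ 2 ≤ (58 * (P - 3)) ^ 2 := pow_le_pow_left₀ (by positivity) (by linarith) 2
    have g7 : (57 * P) ^ 2 ≤ 13924 * ((132 / 1000 * q) * (9 * m ^ 2 + 80 / 1000 * (q * P))) := by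
      linarith
    have g8 : (132 / 1000 * q) * (9 * m ^ 2 + 80 / 1000 * (q * P)) =
        (1188 / 1000 * m + 10560 / 1000000 * q ^ 2) * P := by rw [hP]; ring
    rw [g8] at g7
    have g9 : 3249 * P * P ≤ 13924 * (1188 / 1000 * m + 10560 / 1000000 * q ^ 2) * P := by
      linarith
    have g10 := le_of_mul_le_mul_right g9 hP0
    have g11 : q ^ 2 ≤ 5 / 2 * P := by
      rw [hP]
      have g12 := mul_le_mul_of_nonneg_right (show q ≤ 5 / 2 * m by linarith) hq0.le
      linarith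
    linarith
  · rw [← hP]
    exact hxP

end Pool.Agent.Y205.MD
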