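import Pool.Agent.TH763.DB.Conv
import Pool.Agent.TH552.BB.Tr
import Pool.Agent.H563R2.Deriv
import Pool.Agent.Y205.MD.Shift

/-! The generic configuration of points, and the Hilbert function of a system at a general point. -/

set_option autoImplicit false

namespace Pool.Agent.Y205.MD

open Finset Module Pool.Agent.TH176.Nag Pool.Agent.TH603.Sur Pool.Agent.TH763.DB
open H563R2.Deriv (dd)

section corank
variable {ι : Type}

/-- the least `c` such that all but `c` exponents of `S` form an empty system -/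
noncomputable def crk (S : Finset (ℤ × ℤ)) (w : ι → ℕ) : ℕ :=
  sInf {c | ∃ T ⊆ S, T.card + c = S.card ∧ Emp w (↑T : Set (ℤ × ℤ))}

theorem Emp_nil (w : ι → ℕ) : Emp w (↑(∅ : Finset (ℤ × ℤ)) : Set (ℤ × ℤ)) := by
  refine ⟨ℚ, inferInstance, inferInstance, fun _ => 1,
    fun _ => 1, fun _ => one_ne_zero, fun _ => one_ne_zero, ?_⟩
  intro f hf _
  rw [coe_empty, Set.subset_empty_iff, coe_eq_empty, Finsupp.support_eq_empty] at hf
  exact hf

theorem crk_spec (S : Finset (ℤ × ℤ)) (w : ι → ℕ) :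
    ∃ T ⊆ S, T.card + crk S w = S.card ∧ Emp w (↑T : Set (ℤ × ℤ)) :=
  Nat.sInf_mem (s := {c | ∃ T ⊆ S, T.card + c = S.card ∧ Emp w (↑T : Set (ℤ × ℤ))})
    ⟨S.card, ∅, empty_subset _, by simp, Emp_nil w⟩

theorem crk_le {S : Finset (ℤ × ℤ)} {w : ι → ℕ} {c : ℕ}
    (h : ∃ T ⊆ S, T.card + c = S.card ∧ Emp w (↑T : Set (ℤ × ℤ))) : crk S w ≤ c :=
  Nat.sInf_le h

theorem crk_perm (S : Finset (ℤ × ℤ)) (w : ι → ℕ) (σ : Equiv.Perm ι) :
    crk S (fun i => w (σ i)) = crk S w := by
  apply le_antisymm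
  · obtain ⟨T, h1, h2, h3⟩ := crk_spec S w
    refine crk_le ⟨T, h1, h2, Emp_emb σ.symm σ.symm.injective (fun i => ?_) h3⟩
    rw [Equiv.apply_symm_apply]
  · obtain ⟨T, h1, h2, h3⟩ := crk_spec S fun i => w (σ i)
    exact crk_le ⟨T, h1, h2, Emp_emb σ σ.injective (fun i => le_rfl) h3⟩

theorem crk_zero_of_Emp {S : Finset (ℤ × ℤ)} {w : ι → ℕ} (h : Emp w (↑S : Set (ℤ × ℤ))) :
    crk S w = 0 := Nat.le_zero.1 (crk_le ⟨S, Subset.refl _, by simp, h⟩)

theorem crk_of_Sur [Fintype ι] {S : Finset (ℤ × ℤ)} {w : ι → ℕ}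
    (h : Sur w (↑S : Set (ℤ × ℤ))) : crk S w + cond w ≤ S.card := by
  obtain ⟨T, h1, h2, h3⟩ := h
  have h4 : T ⊆ S := by exact_mod_cast h1
  have h5 := card_le_card h4
  have h6 : crk S w ≤ S.card - T.card := crk_le ⟨T, h4, by omega, h3⟩
  omega

end corank

section gen
variable (ι : Type)

/-- the field of the coordinates of the generic configuration -/
abbrev GK := FractionRing (MvPolynomial (ι × Fin 2) ℚ)

/-- the coordinates of the generic configuration -/
noncomputable def gp (q : ι × Fin 2) : GK ι :=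
  algebraMap (MvPolynomial (ι × Fin 2) ℚ) (GK ι) (MvPolynomial.X q)

variable {ι}

theorem gp_ne (q : ι × Fin 2) : gp ι q ≠ 0 := by
  unfold gp
  intro h
  have h1 := (IsFractionRing.injective (MvPolynomial (ι × Fin 2) ℚ) (GK ι))
    (h.trans (map_zero _).symm)
  exact MvPolynomial.X_ne_zero q h1

instance : CharZero (GK ι) := by
  have h : Function.Injective (algebraMap ℚ (GK ι)) := (algebraMap ℚ (GK ι)).injective
  exact charZero_of_injective_algebraMap h

theorem aeval_gp (F : MvPolynomial (ι × Fin 2) ℚ) :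
    MvPolynomial.aeval (gp ι) F = algebraMap (MvPolynomial (ι × Fin 2) ℚ) (GK ι) F := by
  have h : (MvPolynomial.aeval (gp ι) : MvPolynomial (ι × Fin 2) ℚ →ₐ[ℚ] GK ι) =
      IsScalarTower.toAlgHom ℚ (MvPolynomial (ι × Fin 2) ℚ) (GK ι) := by
    apply MvPolynomial.algHom_ext
    intro i
    rw [MvPolynomial.aeval_X]
    rfl
  rw [h]
  rfl

theorem aeval_gp_ne {F : MvPolynomial (ι × Fin 2) ℚ} (hF : F ≠ 0) :
    MvPolynomial.aeval (gp ι) F ≠ 0 := by
  rw [aeval_gp]
  intro h
  exact hF ((IsFractionRing.injective (MvPolynomial (ι × Fin 2) ℚ) (GK ι))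
    (h.trans (map_zero _).symm))

/-- the system at the generic configuration -/
noncomputable def GS (S : Finset (ℤ × ℤ)) (w : ι → ℕ) : Submodule (GK ι) ((ℤ × ℤ) →₀ GK ι) :=
  Sys S (fun i => gp ι (i, 0)) (fun i => gp ι (i, 1)) w

theorem mem_GS {S : Finset (ℤ × ℤ)} {w : ι → ℕ} {f : (ℤ × ℤ) →₀ GK ι} :
    f ∈ GS S w ↔ (↑f.support : Set (ℤ × ℤ)) ⊆ ↑S ∧
      ∀ i, LM f (gp ι (i, 0)) (gp ι (i, 1)) (w i) := by
  unfold GS Sys
  rw [Submodule.mem_inf, Finsupp.mem_supported, Submodule.mem_iInf]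
  rfl

theorem GS_le (S : Finset (ℤ × ℤ)) (w : ι → ℕ) :
    GS S w ≤ Finsupp.supported (GK ι) (GK ι) (↑S : Set (ℤ × ℤ)) := inf_le_left

theorem GS_fd (S : Finset (ℤ × ℤ)) (w : ι → ℕ) : FiniteDimensional (GK ι) ↥(GS S w) := by
  have := fd_supp (K := GK ι) S
  exact Submodule.finiteDimensional_of_le (GS_le S w)

theorem GS_anti (S : Finset (ℤ × ℤ)) {w w' : ι → ℕ} (h : ∀ i, w i ≤ w' i) : GS S w' ≤ GS S w := by
  intro f hf
  rw [mem_GS] at hf ⊢
  exact ⟨hf.1, fun i => (hf.2 i).mono (h i)⟩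

theorem finrank_GS [Finite ι] {S : Finset (ℤ × ℤ)} (hpos : ∀ u ∈ S, 0 ≤ u.1 ∧ 0 ≤ u.2)
    (w : ι → ℕ) : finrank (GK ι) ↥(GS S w) = crk S w := by
  apply le_antisymm
  · obtain ⟨T, h1, h2, h3⟩ := crk_spec S w
    obtain ⟨F, hF0, hF⟩ := Emp_open T.finite_toSet (fun u hu => hpos u (h1 (mem_coe.1 hu))) h3
    refine finrank_le_of_inf h1 h2 (GS_le S w) ?_
    rw [eq_bot_iff]
    rintro f ⟨hf1, hf2⟩
    have h4 := (hF (gp ι) (aeval_gp_ne hF0)).2 f ((Finsupp.mem_supported _ f).1 hf2)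
      (mem_GS.1 hf1).2
    rw [h4]
    exact Submodule.zero_mem _
  · apply crk_le
    have hle : finrank (GK ι) ↥(GS S w) ≤ S.card := by
      have := fd_supp (K := GK ι) S
      rw [← finrank_supp (K := GK ι) S]
      exact Submodule.finrank_mono (GS_le S w)
    obtain ⟨T', hT'S, hT'c, hT'⟩ := exists_sub S
      (⨅ i, Mul (gp ι (i, 0)) (gp ι (i, 1)) (w i)) (le_refl (finrank (GK ι) ↥(GS S w))) hle
    refine ⟨T', hT'S, hT'c, GK ι, inferInstance, inferInstance, fun i => gp ι (i, 0),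
      fun i => gp ι (i, 1), fun i => gp_ne _, fun i => gp_ne _, ?_⟩
    intro f hf hL
    have h3 : f ∈ Finsupp.supported (GK ι) (GK ι) (↑T' : Set (ℤ × ℤ)) ⊓
        ⨅ i, Mul (gp ι (i, 0)) (gp ι (i, 1)) (w i) := by
      refine ⟨(Finsupp.mem_supported _ f).2 hf, ?_⟩
      rw [SetLike.mem_coe, Submodule.mem_iInf]
      exact hL
    rw [hT'] at h3
    exact (Submodule.mem_bot _).1 h3

end gen

section supermod
variable {ι : Type} [Finite ι]

theorem crk_anti {S : Finset (ℤ × ℤ)} (hpos : ∀ u ∈ S, 0 ≤ u.1 ∧ 0 ≤ u.2) {w w' : ι → ℕ}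
    (h : ∀ i, w i ≤ w' i) : crk S w' ≤ crk S w := by
  rw [← finrank_GS hpos, ← finrank_GS hpos]
  have := GS_fd S w
  exact Submodule.finrank_mono (GS_anti S h)

/-- the marginal corank decreases -/
theorem crk_super [DecidableEq ι] {S : Finset (ℤ × ℤ)} (hpos : ∀ u ∈ S, 0 ≤ u.1 ∧ 0 ≤ u.2)
    {w w' : ι → ℕ} (h : ∀ i, w i ≤ w' i) (k : ι) (l : ℕ) (hk : w' k ≤ l) :
    crk S w' + crk S (Function.update w k l) ≤ crk S w + crk S (Function.update w' k l) := by
  simp only [← finrank_GS hpos]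
  have := GS_fd S w
  have := GS_fd S w'
  have := GS_fd S (Function.update w k l)
  have := GS_fd S (Function.update w' k l)
  have h3 := Submodule.finrank_sup_add_finrank_inf_eq (GS S w') (GS S (Function.update w k l))
  have hwk : ∀ i, w i ≤ Function.update w k l i := by
    intro i
    by_cases hi : i = k
    · subst hi
      rw [Function.update_self]
      exact (h i).trans hk
    · rw [Function.update_of_ne hi]
  have h4 : GS S w' ⊔ GS S (Function.update w k l) ≤ GS S w :=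
    sup_le (GS_anti S h) (GS_anti S hwk)
  have h5 : GS S w' ⊓ GS S (Function.update w k l) ≤ GS S (Function.update w' k l) := by
    rintro f ⟨hf1, hf2⟩
    rw [SetLike.mem_coe, mem_GS] at hf1 hf2
    rw [mem_GS]
    refine ⟨hf1.1, fun i => ?_⟩
    by_cases hi : i = k
    · subst hi
      have h6 := hf2.2 i
      rw [Function.update_self] at h6
      rw [Function.update_self]
      exact h6
    · rw [Function.update_of_ne hi]
      exact hf1.2 i
  have h6 := Submodule.finrank_mono h4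
  have h7 := Submodule.finrank_mono h5
  omega

end supermod

section deriv
variable {ι : Type} [DecidableEq ι]

/-- the derivation `X p ∂ / ∂ X p` -/
noncomputable def D0 (p : ι × Fin 2) :
    Derivation ℚ (MvPolynomial (ι × Fin 2) ℚ) (MvPolynomial (ι × Fin 2) ℚ) :=
  (MvPolynomial.X p : MvPolynomial (ι × Fin 2) ℚ) • MvPolynomial.pderiv p

/-- its extension to the field -/
noncomputable def DD (p : ι × Fin 2) (z : GK ι) : GK ι := dd (D0 p) z

theorem DD_gp_self (p : ι × Fin 2) : DD p (gp ι p) = gp ι p := by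
  unfold DD gp
  rw [H563R2.Deriv.dd_algebraMap]
  unfold D0
  rw [Derivation.smul_apply, MvPolynomial.pderiv_X_self, smul_eq_mul, mul_one]

theorem DD_gp_ne {p q : ι × Fin 2} (h : q ≠ p) : DD p (gp ι q) = 0 := by
  unfold DD gp
  rw [H563R2.Deriv.dd_algebraMap]
  unfold D0
  rw [Derivation.smul_apply, MvPolynomial.pderiv_X_of_ne h, smul_zero, map_zero]

theorem DD_zero (p : ι × Fin 2) : DD p (0 : GK ι) = 0 := H563R2.Deriv.dd_zero _

theorem DD_mul (p : ι × Fin 2) (x y : GK ι) : DD p (x * y) = x * DD p y + y * DD p x :=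
  H563R2.Deriv.dd_mul _ _ _

theorem DD_sum (p : ι × Fin 2) {β : Type*} (s : Finset β) (f : β → GK ι) :
    DD p (∑ j ∈ s, f j) = ∑ j ∈ s, DD p (f j) := H563R2.Deriv.dd_sum _ _ _

theorem DD_int (p : ι × Fin 2) (n : ℤ) : DD p (n : GK ι) = 0 := by
  have h : (n : GK ι) = algebraMap (MvPolynomial (ι × Fin 2) ℚ) (GK ι)
      (MvPolynomial.C (n : ℚ)) := by
    simp
  unfold DD
  rw [h, H563R2.Deriv.dd_algebraMap]
  unfold D0
  rw [Derivation.smul_apply, MvPolynomial.pderiv_C, smul_zero, map_zero]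

theorem DD_one (p : ι × Fin 2) : DD p (1 : GK ι) = 0 := by
  have := DD_int p 1
  simpa using this

theorem DD_pow (p : ι × Fin 2) {x a : GK ι} (hx : DD p x = a * x) (n : ℕ) :
    DD p (x ^ n) = (n * a) * x ^ n := by
  induction n with
  | zero => simp [DD_one]
  | succ n ih =>
    rw [pow_succ, DD_mul, ih, hx]
    push_cast
    ring

theorem DD_zpow (p : ι × Fin 2) {x a : GK ι} (hx0 : x ≠ 0) (hx : DD p x = a * x) (n : ℤ) :
    DD p (x ^ n) = (n * a) * x ^ n := by
  obtain ⟨k, rfl | rfl⟩ := n.eq_nat_or_neg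
  · rw [zpow_natCast, DD_pow p hx]
    push_cast
    ring
  · have h1 : x ^ (-(k : ℤ)) * x ^ k = 1 := by
      rw [← zpow_natCast, ← zpow_add₀ hx0]
      simp
    have h2 := congrArg (DD p) h1
    rw [DD_mul, DD_one, DD_pow p hx] at h2
    have hk : x ^ k ≠ 0 := pow_ne_zero _ hx0
    have h3 : x ^ k * DD p (x ^ (-(k : ℤ))) = x ^ k * ((((-(k : ℤ) : ℤ) : GK ι) * a) *
        x ^ (-(k : ℤ))) := by
      push_cast
      linear_combination h2
    exact mul_left_cancel₀ hk h3

/-- derivative of the pairing -/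
theorem DD_pr (p : ι × Fin 2) {x y α β : GK ι} (hx0 : x ≠ 0) (hy0 : y ≠ 0)
    (hx : DD p x = α * x) (hy : DD p y = β * y) (f : (ℤ × ℤ) →₀ GK ι) (a b : ℕ) :
    DD p (pr f x y (fun u => u.1 ^ a * u.2 ^ b)) =
      pr (f.mapRange (DD p) (DD_zero p)) x y (fun u => u.1 ^ a * u.2 ^ b) +
        α * pr f x y (fun u => u.1 ^ (a + 1) * u.2 ^ b) +
        β * pr f x y (fun u => u.1 ^ a * u.2 ^ (b + 1)) := by
  unfold pr
  rw [Finsupp.sum_of_support_subset _ (Finsupp.support_mapRange (f := DD p) (hf := DD_zero p)) _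
    (by intro m _; ring)]
  unfold Finsupp.sum
  rw [DD_sum, mul_sum, mul_sum, ← sum_add_distrib, ← sum_add_distrib]
  refine sum_congr rfl fun m _ => ?_
  rw [DD_mul, DD_mul, DD_mul, DD_zpow p hx0 hx, DD_zpow p hy0 hy]
  have h1 : DD p (((m.1 : ℤ) : GK ι) ^ a * ((m.2 : ℤ) : GK ι) ^ b) = 0 := by
    have := DD_int p (m.1 ^ a * m.2 ^ b)
    push_cast at this
    exact this
  rw [h1, Finsupp.mapRange_apply]
  ring

/-- the terms of degree `l` at the point `q` -/
noncomputable def phi (q : ι) (l : ℕ) : ((ℤ × ℤ) →₀ GK ι) →ₗ[GK ι] (Fin (l + 1) → GK ι) where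
  toFun f a := pr f (gp ι (q, 0)) (gp ι (q, 1)) (fun u => u.1 ^ (a : ℕ) * u.2 ^ (l - a))
  map_add' f g := by
    funext a
    exact Pool.Agent.TH603.Sur.pr_add_left' _ _ _ _ _
  map_smul' c f := by
    funext a
    exact Pool.Agent.TH603.Sur.pr_smul_left _ _ _ _ _

theorem phi_apply (q : ι) (l : ℕ) (f : (ℤ × ℤ) →₀ GK ι) (a : Fin (l + 1)) :
    phi q l f a = pr f (gp ι (q, 0)) (gp ι (q, 1)) (fun u => u.1 ^ (a : ℕ) * u.2 ^ (l - a)) := rfl

theorem GS_ker {S : Finset (ℤ × ℤ)} (s : ι → ℕ) (q : ι) (l : ℕ) :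
    GS S (Function.update s q l) ⊓ LinearMap.ker (phi q l) =
      GS S (Function.update s q (l + 1)) := by
  apply le_antisymm
  · rintro f ⟨hf1, hf2⟩
    rw [SetLike.mem_coe, mem_GS] at hf1
    rw [SetLike.mem_coe, LinearMap.mem_ker] at hf2
    rw [mem_GS]
    refine ⟨hf1.1, fun i => ?_⟩
    by_cases hi : i = q
    · subst hi
      have h1 := hf1.2 i
      rw [Function.update_self] at h1 ⊢
      apply LM_of_mono
      intro a b hab
      rcases Nat.lt_or_ge (a + b) l with h2 | h2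
      · exact h1 _ (mem_PF_mono h2)
      · have h3 := congrFun hf2 ⟨a, by omega⟩
        rw [phi_apply] at h3
        have h4 : l - a = b := by omega
        simp only [h4] at h3
        exact h3
    · rw [Function.update_of_ne hi]
      have h1 := hf1.2 i
      rwa [Function.update_of_ne hi] at h1
  · intro f hf
    refine ⟨GS_anti S (fun i => ?_) hf, ?_⟩
    · by_cases hi : i = q
      · subst hi
        rw [Function.update_self, Function.update_self]
        omega
      · rw [Function.update_of_ne hi, Function.update_of_ne hi]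
    · rw [SetLike.mem_coe, LinearMap.mem_ker]
      rw [mem_GS] at hf
      have h1 := hf.2 q
      rw [Function.update_self] at h1
      funext a
      rw [phi_apply]
      exact h1 _ (mem_PF_mono (by have := a.2; omega))

theorem GS_der {S : Finset (ℤ × ℤ)} {s : ι → ℕ} {q : ι} {l : ℕ} (j : Fin 2)
    {f : (ℤ × ℤ) →₀ GK ι} (hf : f ∈ GS S (Function.update s q (l + 1))) :
    f.mapRange (DD (q, j)) (DD_zero _) ∈ GS S (Function.update s q l) := by
  rw [mem_GS] at hf ⊢
  refine ⟨fun m hm => hf.1 (Finsupp.support_mapRange hm), fun i => ?_⟩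
  apply LM_of_mono
  intro a b hab
  by_cases hi : i = q
  · subst hi
    rw [Function.update_self] at hab
    have h1 := hf.2 i
    rw [Function.update_self] at h1
    fin_cases j
    · have h2 := DD_pr (i, 0) (α := 1) (β := 0) (gp_ne (i, 0)) (gp_ne (i, 1))
        (by rw [DD_gp_self, one_mul]) (by rw [DD_gp_ne (by simp), zero_mul]) f a b
      rw [h1 _ (mem_PF_mono (by omega)), DD_zero, h1 _ (mem_PF_mono (by omega)), mul_zero,
        zero_mul, add_zero, add_zero] at h2
      exact h2.symm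
    · have h2 := DD_pr (i, 1) (α := 0) (β := 1) (gp_ne (i, 0)) (gp_ne (i, 1))
        (by rw [DD_gp_ne (by simp), zero_mul]) (by rw [DD_gp_self, one_mul]) f a b
      rw [h1 _ (mem_PF_mono (by omega)), DD_zero, h1 (fun u => u.1 ^ a * u.2 ^ (b + 1))
        (mem_PF_mono (by omega)), mul_zero, zero_mul, add_zero, add_zero] at h2
      exact h2.symm
  · rw [Function.update_of_ne hi] at hab
    have h1 := hf.2 i
    rw [Function.update_of_ne hi] at h1
    have h2 := DD_pr (q, j) (α := 0) (β := 0) (gp_ne (i, 0)) (gp_ne (i, 1))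
      (by rw [DD_gp_ne (by simp [hi]), zero_mul]) (by rw [DD_gp_ne (by simp [hi]), zero_mul]) f a b
    rw [h1 _ (mem_PF_mono hab), DD_zero, zero_mul, zero_mul, add_zero, add_zero] at h2
    exact h2.symm

theorem phi_der0 {S : Finset (ℤ × ℤ)} {s : ι → ℕ} {q : ι} {l : ℕ}
    {f : (ℤ × ℤ) →₀ GK ι} (hf : f ∈ GS S (Function.update s q (l + 1))) :
    dF (GK ι) (l + 1) (phi q (l + 1) f) =
      phi q l (-(f.mapRange (DD (q, 0)) (DD_zero _))) := by
  rw [mem_GS] at hf
  have h1 := hf.2 q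
  rw [Function.update_self] at h1
  funext a
  have h2 := DD_pr (q, 0) (α := 1) (β := 0) (gp_ne (q, 0)) (gp_ne (q, 1))
    (by rw [DD_gp_self, one_mul]) (by rw [DD_gp_ne (by simp), zero_mul]) f a (l - a)
  rw [h1 _ (mem_PF_mono (by have := a.2; omega)), DD_zero, one_mul, zero_mul, add_zero] at h2
  have h3 : dF (GK ι) (l + 1) (phi q (l + 1) f) a = phi q (l + 1) f a.succ := rfl
  rw [h3, map_neg, Pi.neg_apply, phi_apply, phi_apply]
  have e : l + 1 - (a.succ : ℕ) = l - a := by rw [Fin.val_succ]; omega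
  rw [e, Fin.val_succ]
  linear_combination -h2

theorem phi_der1 {S : Finset (ℤ × ℤ)} {s : ι → ℕ} {q : ι} {l : ℕ}
    {f : (ℤ × ℤ) →₀ GK ι} (hf : f ∈ GS S (Function.update s q (l + 1))) :
    dL (GK ι) (l + 1) (phi q (l + 1) f) =
      phi q l (-(f.mapRange (DD (q, 1)) (DD_zero _))) := by
  rw [mem_GS] at hf
  have h1 := hf.2 q
  rw [Function.update_self] at h1
  funext a
  have h2 := DD_pr (q, 1) (α := 0) (β := 1) (gp_ne (q, 0)) (gp_ne (q, 1))
    (by rw [DD_gp_ne (by simp), zero_mul]) (by rw [DD_gp_self, one_mul]) f a (l - a)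
  rw [h1 _ (mem_PF_mono (by have := a.2; omega)), DD_zero, one_mul, zero_mul, add_zero] at h2
  have h3 : dL (GK ι) (l + 1) (phi q (l + 1) f) a = phi q (l + 1) f a.castSucc := rfl
  rw [h3, map_neg, Pi.neg_apply, phi_apply, phi_apply]
  have e : l + 1 - (a.castSucc : ℕ) = l - a + 1 := by
    rw [Fin.val_castSucc]; have := a.2; omega
  rw [e, Fin.val_castSucc]
  linear_combination -h2

/-- **The Hilbert function at a general point**: `r l / (l + 1)` does not increase, where `r l` is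
the number of the independent conditions imposed by the terms of degree `l`. -/
theorem ratio [Finite ι] {S : Finset (ℤ × ℤ)} (hpos : ∀ u ∈ S, 0 ≤ u.1 ∧ 0 ≤ u.2) (s : ι → ℕ)
    (q : ι) (l : ℕ) :
    ((crk S (Function.update s q (l + 1)) : ℝ) - crk S (Function.update s q (l + 2))) * (l + 1) ≤
      (l + 2) * ((crk S (Function.update s q l) : ℝ) - crk S (Function.update s q (l + 1))) := by
  have hfd := fun w : ι → ℕ => GS_fd S w
  have h1 := Pool.Agent.TH552.BB.finrank_split (phi q (l + 1)) (GS S (Function.update s q (l + 1)))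
  have h0 := Pool.Agent.TH552.BB.finrank_split (phi q l) (GS S (Function.update s q l))
  rw [GS_ker] at h1 h0
  simp only [finrank_GS hpos] at h1 h0
  have h2 := shift_dim ((GS S (Function.update s q (l + 1))).map (phi q (l + 1)))
    ((GS S (Function.update s q l)).map (phi q l)) (by
      rw [Submodule.map_le_iff_le_comap]
      rintro _ ⟨f, hf, rfl⟩
      rw [Submodule.mem_comap, phi_der0 hf]
      exact ⟨_, Submodule.neg_mem _ (GS_der 0 hf), rfl⟩) (by
      rw [Submodule.map_le_iff_le_comap]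
      rintro _ ⟨f, hf, rfl⟩
      rw [Submodule.mem_comap, phi_der1 hf]
      exact ⟨_, Submodule.neg_mem _ (GS_der 1 hf), rfl⟩)
  have e1 : ((crk S (Function.update s q (l + 1)) : ℝ) - crk S (Function.update s q (l + 2))) =
      finrank (GK ι) ↥((GS S (Function.update s q (l + 1))).map (phi q (l + 1))) := by
    have : ((finrank (GK ι) ↥((GS S (Function.update s q (l + 1))).map (phi q (l + 1))) +
      crk S (Function.update s q (l + 1 + 1)) : ℕ) : ℝ) = crk S (Function.update s q (l + 1)) := by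
      exact_mod_cast h1
    push_cast at this
    linarith
  have e0 : ((crk S (Function.update s q l) : ℝ) - crk S (Function.update s q (l + 1))) =
      finrank (GK ι) ↥((GS S (Function.update s q l)).map (phi q l)) := by
    have : ((finrank (GK ι) ↥((GS S (Function.update s q l)).map (phi q l)) +
      crk S (Function.update s q (l + 1)) : ℕ) : ℝ) = crk S (Function.update s q l) := by
      exact_mod_cast h0
    push_cast at this
    linarith
  rw [e1, e0]
  have h3 : ((finrank (GK ι) ↥((GS S (Function.update s q (l + 1))).map (phi q (l + 1))) *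
      (l + 1) : ℕ) : ℝ) ≤ (((l + 1 + 1) *
      finrank (GK ι) ↥((GS S (Function.update s q l)).map (phi q l)) : ℕ) : ℝ) := by
    exact_mod_cast h2
  push_cast at h3
  linarith

end deriv

end Pool.Agent.Y205.MD
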