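import Pool.Agent.Y205.MD.Asm
import Pool.Agent.Y205.MD.Coll
import Pool.Agent.TH2.NU.Main

/-! **Doubling** for clusters with different base multiplicities. -/

set_option autoImplicit false

namespace Pool.Agent.Y205.MD

open Finset Module Pool.Agent.TH176.Nag Pool.Agent.TH603.Sur Pool.Agent.TH763.DB Pool.Agent.TH2.NU

theorem cond_quad {N : ℕ} {b : Fin N → ℕ} {κ : Type} [Fintype κ] {e : κ → ℕ} :
    cond (Sum.elim (fun p : Fin N × (Fin 2 × Fin 2) => qv (b p.1) p.2) e) =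
      (∑ i, (b i + 1).choose 2 + ∑ i, (b i + 1) / 2) + cond e := by
  unfold Pool.Agent.TH603.Sur.cond
  rw [Fintype.sum_sum_type]
  simp only [Sum.elim_inl, Sum.elim_inr]
  rw [Fintype.sum_prod_type, ← sum_add_distrib]
  congr 1
  exact sum_congr rfl fun i _ => sum_qv (b i)

theorem cond_elim {N : ℕ} {b : Fin N → ℕ} {κ : Type} [Fintype κ] {e : κ → ℕ} :
    cond (Sum.elim b e : Fin N ⊕ κ → ℕ) = ∑ i, (b i + 1).choose 2 + cond e := by
  unfold Pool.Agent.TH603.Sur.cond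
  rw [Fintype.sum_sum_type]
  simp only [Sum.elim_inl, Sum.elim_inr]

/-- **Doubling.** -/
theorem doubling {N : ℕ} {b : Fin N → ℕ} (hb : ∀ i, 1 ≤ b i) {κ : Type} [Fintype κ] {e : κ → ℕ}
    (hN : 0 < N) {S : Finset (ℤ × ℤ)} (hpos : ∀ u ∈ S, 0 ≤ u.1 ∧ 0 ≤ u.2)
    (h1 : Sur (Sum.elim b e : Fin N ⊕ κ → ℕ) (↑S : Set (ℤ × ℤ)))
    (h2 : ∀ J : Finset (Fin N), ∀ k ∉ J, ∃ v : Fin N → ℕ, (∀ i, lv b (insert k J) i ≤ v i) ∧
      (∀ i, b i ≠ b k → v i = lv b J i) ∧ Emp (Sum.elim v e : Fin N ⊕ κ → ℕ) (↑S : Set (ℤ × ℤ)) ∧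
      (((b k + 1) / 2 : ℕ) : ℝ) *
        (∑ i, (((v i + 1).choose 2 : ℕ) : ℝ) - ∑ i, (((lv b J i + 1).choose 2 : ℕ) : ℝ)) ≤
        ((b k : ℝ) + 1) * ∑ i ∈ Jᶜ, (((b i + 1) / 2 : ℕ) : ℝ)) :
    (S.card ≤ cond (Sum.elim (fun p : Fin N × (Fin 2 × Fin 2) => qv (b p.1) p.2) e) →
      Emp (Sum.elim (fun p : Fin N × (Fin 2 × Fin 2) => qv (b p.1) p.2) e) (↑S : Set (ℤ × ℤ))) ∧
    (cond (Sum.elim (fun p : Fin N × (Fin 2 × Fin 2) => qv (b p.1) p.2) e) ≤ S.card →
      Sur (Sum.elim (fun p : Fin N × (Fin 2 × Fin 2) => qv (b p.1) p.2) e)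
        (↑S : Set (ℤ × ℤ))) := by
  classical
  have hc1 := cond_elim (b := b) (e := e)
  have hc2 := cond_quad (b := b) (e := e)
  obtain ⟨T, hTS, hTc, hTE⟩ := h1
  have hTS' : T ⊆ S := fun u hu => mem_coe.1 (hTS (mem_coe.2 hu))
  have hle : T.card ≤ S.card := card_le_card hTS'
  have hμ : ∀ i, 0 < (b i + 1) / 2 := fun i => by have := hb i; omega
  have hcI : ∀ i, (II (b i)).card = (b i + 1) / 2 := fun i => card_II _
  have hsum0 : 0 < ∑ i, (II (b i)).card := by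
    apply Finset.sum_pos
    · intro i _
      rw [hcI]
      exact hμ i
    · exact ⟨⟨0, hN⟩, mem_univ _⟩
  have h0 : crk S (wB b e ∅) ≤ S.card - T.card := by
    apply crk_le
    refine ⟨T, hTS', by omega, ?_⟩
    have : wB b e ∅ = Sum.elim b e := by
      have e1 : lv b ∅ = b := funext fun i => lv_not (notMem_empty i)
      unfold wB
      rw [e1]
    rw [this]
    exact hTE
  have hbd := crk_bound hpos hμ h0 h2
  obtain ⟨K, _, _, x, y, x', y', D, E, hx, hy, hx', hy', hDE, hfr⟩ :=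
    exists_cluB (I := fun i => II (b i)) (fun i => II_sub (b i)) hsum0 hpos
      (c0 := S.card - T.card) (by
        intro J
        simp only [hcI]
        exact hbd J)
  simp only [hcI] at hfr
  obtain ⟨r, hr⟩ : ∃ r : ℕ, r = ∑ i, (b i + 1) / 2 := ⟨_, rfl⟩
  rw [← hr] at hfr hc2
  obtain ⟨c, hc⟩ : ∃ c : ℕ, c = S.card - T.card - r := ⟨_, rfl⟩
  rw [← hc] at hfr
  have hform : ∀ S' : Finset (ℤ × ℤ), Sys S' x' y' e ⊓
      ⨅ i, CluB (x i) (y i) (D i) (E i) (b i) (II (b i)) =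
      Finsupp.supported K K (↑S' : Set (ℤ × ℤ)) ⊓
        ((⨅ j, Mul (x' j) (y' j) (e j)) ⊓
          ⨅ i, CluB (x i) (y i) (D i) (E i) (b i) (II (b i))) := by
    intro S'
    unfold Sys
    rw [inf_assoc]
  rw [hform] at hfr
  obtain ⟨T', hT'S, hT'c, hT'⟩ := exists_sub S _ hfr (by omega)
  rw [← hform] at hT'
  have hE : Emp (Sum.elim (fun p : Fin N × (Fin 2 × Fin 2) => qv (b p.1) p.2) e)
      (↑T' : Set (ℤ × ℤ)) := by
    refine collideG (w := fun i p => qv (b i) p)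
      (fun i => {kl | kl.1 + kl.2 < b i ∨ (kl.1 + kl.2 = b i ∧ Odd kl.2)}) ?_
      x y x' y' hx hy hx' hy' D E T' ?_
    · rintro i ⟨k, l⟩ hkl ⟨a, c⟩ p q h1 h2
      simp only [Set.mem_ofPred_eq] at hkl
      simp only at h1 h2
      unfold qv
      simp only
      have := a.2
      have := c.2
      rcases hkl with hkl | ⟨hkl, i, hi⟩
      · omega
      · omega
    · rw [eq_bot_iff, ← hT']
      refine inf_le_inf_left _ (iInf_mono fun i f hf => ?_)
      simp only [Submodule.mem_iInf] at hf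
      refine ⟨?_, ?_⟩
      · rw [SetLike.mem_coe, mem_Mul]
        apply LM_of_qq (hDE i)
        intro k l hkl
        exact hf (k, l) (Or.inl hkl)
      · unfold OdI
        rw [SetLike.mem_coe]
        simp only [Submodule.mem_iInf]
        intro k hk
        unfold II at hk
        rw [mem_filter, mem_range] at hk
        exact hf (k, b i - k) (Or.inr ⟨by simp only; omega, hk.2⟩)
  constructor
  · intro hcard
    have : T' = S := by
      apply eq_of_subset_of_card_le hT'S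
      omega
    rw [← this]
    exact hE
  · intro hcard
    exact ⟨T', by exact_mod_cast hT'S, by omega, hE⟩

end Pool.Agent.Y205.MD
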