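import Pool.Agent.Y205.MD.Crit

/-! The numerical conditions. -/

set_option autoImplicit false

namespace Pool.Agent.Y205.MD

open Finset

theorem crit_num {r : ℕ} (hr0 : 0 < r) {A c m : Fin r → ℕ} {d M : ℕ} {ρ q : ℝ} (hρ : 1 ≤ ρ)
    (hM : ∀ i, M ≤ m i) (hMρ : ∀ i, (m i : ℝ) ≤ ρ * M) (hq : 30 * ρ ^ 3 * r ≤ q)
    (hqM : q ≤ M) (hc1 : ∀ i, 4 * ρ ^ 2 ≤ c i) (hc2 : ∀ i, (c i : ℝ) ≤ 8 * ρ ^ 2)
    (hA1 : ∀ i, 2 * ρ ^ 2 ≤ A i) (hA2 : ∀ i, q ^ 2 ≤ 2 * M * A i)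
    (hn : q ^ 2 = ∑ i, (4 * (A i : ℝ) + c i))
    (hT1 : (d : ℝ) ^ 2 + d < ∑ i, (4 * (A i : ℝ) + c i) * (m i * (m i + 1)))
    (hT2 : ∑ i, (4 * (A i : ℝ) + c i) * (m i * (m i + 1)) ≤ ((d : ℝ) + 2) * (d + 3)) :
    CritData r A c m d ⌊q / (6 * ρ)⌋₊ := by
  have hρ0 : 0 < ρ := by linarith
  have hr1 : (1 : ℝ) ≤ r := by exact_mod_cast hr0
  have hρ2 : 1 ≤ ρ ^ 2 := one_le_pow₀ hρ
  have hρρ : ρ ≤ ρ ^ 2 := by nlinarith
  have hρ3 : ρ ^ 2 ≤ ρ ^ 3 := by nlinarith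
  have hρ31 : 1 ≤ ρ ^ 3 := one_le_pow₀ hρ
  have hq30 : 30 * ρ ^ 3 ≤ q := by
    have : 30 * ρ ^ 3 * 1 ≤ 30 * ρ ^ 3 * r := mul_le_mul_of_nonneg_left hr1 (by positivity)
    linarith
  have hq1 : 30 ≤ q := by linarith
  have hqρ : 30 * ρ ≤ q := by linarith
  have hM30 : (30 : ℝ) ≤ M := by linarith
  have hM0 : (0 : ℝ) < M := by linarith
  have hq0 : 0 < q := by linarith
  have hMn : 1 ≤ M := by
    have : (1 : ℝ) ≤ M := by linarith
    exact_mod_cast this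
  have hmM : ∀ i, (M : ℝ) ≤ m i := fun i => by exact_mod_cast hM i
  have hm0 : ∀ i, (0 : ℝ) < m i := fun i => by linarith [hmM i]
  have hA0 : ∀ i, (0 : ℝ) < A i := fun i => by have := hA1 i; nlinarith
  have hc0 : ∀ i, (0 : ℝ) < c i := fun i => by have := hc1 i; nlinarith
  -- the products
  obtain ⟨Z, hZ⟩ : ∃ Z : ℝ, Z = M * q := ⟨_, rfl⟩
  have hZ0 : 0 < Z := by rw [hZ]; positivity
  have hZM : 30 * ρ * M ≤ Z := by
    rw [hZ]
    have := mul_le_mul_of_nonneg_left hqρ hM0.le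
    linarith
  have hZq : 30 * q ≤ Z := by
    rw [hZ]
    exact mul_le_mul_of_nonneg_right hM30 hq0.le
  have hZqq : q ^ 2 ≤ Z := by
    rw [hZ, sq]
    exact mul_le_mul_of_nonneg_right hqM hq0.le
  -- lower bound for the degree
  have hlow : Z ≤ d := by
    by_contra hcon
    push Not at hcon
    have h1 : q ^ 2 * (M * (M + 1)) ≤ ∑ i, (4 * (A i : ℝ) + c i) * (m i * (m i + 1)) := by
      rw [hn, sum_mul]
      refine sum_le_sum fun i _ => mul_le_mul_of_nonneg_left ?_ ?_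
      · have := hmM i
        exact mul_le_mul this (by linarith) (by linarith) (hm0 i).le
      · have := hA0 i
        have := hc0 i
        linarith
    have h2 : ((d : ℝ) + 2) * (d + 3) < (Z + 2) * (Z + 3) := by
      have hd0 : (0 : ℝ) ≤ d := Nat.cast_nonneg _
      nlinarith
    have h3 : q ^ 2 * (M * (M + 1)) = Z ^ 2 + Z * q := by rw [hZ]; ring
    have h4 : Z * 30 ≤ Z * q := mul_le_mul_of_nonneg_left hq1 hZ0.le
    nlinarith
  -- upper bound for the degree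
  have hup : (d : ℝ) + 3 ≤ 16 / 15 * (ρ * Z) := by
    have h1 : ∑ i, (4 * (A i : ℝ) + c i) * (m i * (m i + 1)) ≤ q ^ 2 * (ρ * M * (ρ * M + 1)) := by
      rw [hn, sum_mul]
      refine sum_le_sum fun i _ => mul_le_mul_of_nonneg_left ?_ ?_
      · have := hMρ i
        exact mul_le_mul this (by linarith) (by have := hm0 i; linarith) (by positivity)
      · have := hA0 i
        have := hc0 i
        linarith
    have h2 : (d : ℝ) < q * (ρ * M + 1) := by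
      by_contra hcon
      push Not at hcon
      have h3 : (q * (ρ * M + 1)) ^ 2 ≤ (d : ℝ) ^ 2 := pow_le_pow_left₀ (by positivity) hcon 2
      have h4 : q ^ 2 * (ρ * M * (ρ * M + 1)) ≤ (q * (ρ * M + 1)) ^ 2 := by
        have : (q * (ρ * M + 1)) ^ 2 - q ^ 2 * (ρ * M * (ρ * M + 1)) = q ^ 2 * (ρ * M + 1) := by
          ring
        have h5 : 0 ≤ q ^ 2 * (ρ * M + 1) := by positivity
        linarith
      have hd0 : (0 : ℝ) ≤ d := Nat.cast_nonneg _
      linarith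
    have h3 : q * (ρ * M + 1) = ρ * Z + q := by rw [hZ]; ring
    have h4 : Z ≤ ρ * Z := le_mul_of_one_le_left hZ0.le hρ
    linarith
  -- the number `K`
  obtain ⟨x, hx⟩ : ∃ x : ℝ, x = q / (6 * ρ) := ⟨_, rfl⟩
  have hx1 : 6 * ρ * x = q := by rw [hx]; field_simp
  obtain ⟨K, hK⟩ : ∃ K : ℕ, K = ⌊q / (6 * ρ)⌋₊ := ⟨_, rfl⟩
  rw [← hK]
  rw [← hx] at hK
  have hx5 : 5 * (r : ℝ) ≤ x := by
    rw [hx, le_div_iff₀ (by positivity)]
    have h1 : 30 * ρ * r ≤ 30 * ρ ^ 3 * r := by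
      apply mul_le_mul_of_nonneg_right _ (by positivity)
      linarith
    linarith
  have hx0 : 0 < x := by linarith
  have hK5 : 5 * r ≤ K := by
    rw [hK]
    apply Nat.le_floor
    push_cast
    exact hx5
  have hKx : (K : ℝ) ≤ x := by rw [hK]; exact Nat.floor_le hx0.le
  have hKx' : 4 / 5 * x ≤ K := by
    have := Nat.lt_floor_add_one x
    rw [← hK] at this
    linarith
  have hK5' : (5 : ℝ) ≤ K := by
    have : 5 ≤ K := by omega
    exact_mod_cast this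
  have hK0 : (0 : ℝ) < K := by linarith
  -- `6 ρ K M ≤ Z ≤ d`
  have hKM : 6 * ρ * K * M ≤ Z := by
    have h1 : 6 * ρ * K ≤ q := by
      rw [← hx1]
      exact mul_le_mul_of_nonneg_left hKx (by positivity)
    rw [hZ, mul_comm (M : ℝ) q]
    exact mul_le_mul_of_nonneg_right h1 hM0.le
  have hKM' : 16 / 15 * (ρ * Z) ≤ 8 * ρ ^ 2 * K * M := by
    have h1 : 4 / 5 * q ≤ 6 * ρ * K := by
      rw [← hx1]
      have := mul_le_mul_of_nonneg_left hKx' (show (0 : ℝ) ≤ 6 * ρ by positivity)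
      linarith
    have h2 : (ρ * M) * (4 / 5 * q) ≤ (ρ * M) * (6 * ρ * K) :=
      mul_le_mul_of_nonneg_left h1 (by positivity)
    have h3 : ρ * Z = ρ * M * q := by rw [hZ]; ring
    rw [h3]
    nlinarith
  -- sums
  have hsA : ∑ i, (A i : ℝ) ≤ q ^ 2 / 4 := by
    rw [hn, sum_add_distrib, ← mul_sum]
    have : 0 ≤ ∑ i, (c i : ℝ) := sum_nonneg fun i _ => (hc0 i).le
    linarith
  have hsc : ∑ i, (c i : ℝ) * (ρ) ≤ 8 / 30 * q := by
    have h1 : ∑ i, (c i : ℝ) * ρ ≤ ∑ i : Fin r, 8 * ρ ^ 2 * ρ :=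
      sum_le_sum fun i _ => mul_le_mul_of_nonneg_right (hc2 i) hρ0.le
    rw [sum_const, card_univ, Fintype.card_fin, nsmul_eq_mul] at h1
    nlinarith
  have hscm : ∑ i, (c i : ℝ) * m i ≤ 8 / 30 * Z := by
    have h1 : ∑ i, (c i : ℝ) * m i ≤ ∑ i, (c i : ℝ) * ρ * M := by
      refine sum_le_sum fun i _ => ?_
      rw [mul_assoc]
      exact mul_le_mul_of_nonneg_left (hMρ i) (hc0 i).le
    rw [← sum_mul] at h1
    have h2 := mul_le_mul_of_nonneg_right hsc hM0.le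
    rw [hZ]
    linarith
  have hscc : ∑ i, (c i : ℝ) ≤ 8 / 30 * q := by
    have h1 : ∑ i, (c i : ℝ) ≤ ∑ i, (c i : ℝ) * ρ :=
      sum_le_sum fun i _ => le_mul_of_one_le_right (hc0 i).le hρ
    linarith
  obtain ⟨t, ht⟩ : ∃ t : ℝ, t = ∑ j, (m j : ℝ) * A j := ⟨_, rfl⟩
  have ht1 : t ≤ ρ * M * (q ^ 2 / 4) := by
    have h1 : t ≤ ∑ j, ρ * M * (A j : ℝ) := by
      rw [ht]
      exact sum_le_sum fun i _ => mul_le_mul_of_nonneg_right (hMρ i) (hA0 i).le
    rw [← mul_sum] at h1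
    exact h1.trans (mul_le_mul_of_nonneg_left hsA (by positivity))
  have ht0 : 0 ≤ t := by
    rw [ht]
    exact sum_nonneg fun i _ => mul_nonneg (hm0 i).le (hA0 i).le
  have htm : ∀ i, t / m i ≤ ρ * M * A i / 2 := by
    intro i
    have h1 : t / m i ≤ t / M := div_le_div_of_nonneg_left ht0 hM0 (hmM i)
    have h2 : t / M ≤ ρ * (q ^ 2 / 4) := by
      rw [div_le_iff₀ hM0]
      linarith
    have h3 := mul_le_mul_of_nonneg_left (hA2 i) (show (0 : ℝ) ≤ ρ / 4 by positivity)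
    linarith
  refine ⟨hr0, by omega, ?_, ?_, ?_, fun i => hMn.trans (hM i), hT1, ?_, ?_, ?_, ?_, ?_, ?_⟩
  · have h1 : (5 * r) ^ 2 ≤ K ^ 2 := Nat.pow_le_pow_left hK5 2
    nlinarith
  · intro i
    have : (2 : ℝ) ≤ A i := by have := hA1 i; linarith
    exact_mod_cast this
  · intro i
    have : (2 : ℝ) ≤ c i := by have := hc1 i; linarith
    exact_mod_cast this
  · -- s1
    intro i
    have h1 : 2 * (m i : ℝ) + 1 ≤ 3 * (ρ * M) := by
      have := hMρ i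
      have h2 : M ≤ ρ * M := le_mul_of_one_le_left hM0.le hρ
      linarith
    have h2 : 2 * (K : ℝ) * (2 * m i + 1) ≤ 2 * K * (3 * (ρ * M)) :=
      mul_le_mul_of_nonneg_left h1 (by positivity)
    linarith
  · -- s2
    intro i
    have h1 : 2 * ρ ^ 2 * (2 * M) ≤ A i * (2 * m i) :=
      mul_le_mul (hA1 i) (by have := hmM i; linarith) (by positivity) (hA0 i).le
    have h2 := mul_le_mul_of_nonneg_left h1 (show (0 : ℝ) ≤ 2 * K by positivity)
    linarith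
  · -- s2'
    intro i
    have h1 : 4 * ρ ^ 2 * M ≤ c i * m i :=
      mul_le_mul (hc1 i) (hmM i) (by positivity) (hc0 i).le
    have h2 := mul_le_mul_of_nonneg_left h1 (show (0 : ℝ) ≤ 2 * K by positivity)
    linarith
  · -- s3
    have h1 : ∑ i, (A i : ℝ) * (2 * m i + 1) ^ 2 + ∑ i, (c i : ℝ) * (m i + 1) ^ 2 =
        ∑ i, (4 * (A i : ℝ) + c i) * (m i * (m i + 1)) + ∑ i, (A i : ℝ) +
          (∑ i, (c i : ℝ) * m i + ∑ i, (c i : ℝ)) := by
      rw [← sum_add_distrib, ← sum_add_distrib, ← sum_add_distrib, ← sum_add_distrib]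
      refine sum_congr rfl fun i _ => ?_
      ring
    have h2 : ((d : ℝ) + 3 - 1 / (2 * K)) ^ 2 ≥ ((d : ℝ) + 3) ^ 2 - (d + 3) / K := by
      have e : ((d : ℝ) + 3 - 1 / (2 * K)) ^ 2 =
          ((d : ℝ) + 3) ^ 2 - (d + 3) / K + (1 / (2 * K)) ^ 2 := by
        field_simp
        ring
      rw [e]
      have : (0 : ℝ) ≤ (1 / (2 * K)) ^ 2 := by positivity
      linarith
    have h3 : ((d : ℝ) + 3) / K ≤ (d + 3) / 5 := by
      have hd0 : (0 : ℝ) ≤ d := Nat.cast_nonneg _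
      exact div_le_div_of_nonneg_left (by linarith) (by norm_num) hK5'
    rw [h1]
    nlinarith
  · -- e2
    intro i
    rw [← ht]
    have h1 : 2 * (m i : ℝ) * A i + A i + t / m i ≤ 3 * (ρ * M) * A i := by
      have h2 := htm i
      have h3 := mul_le_mul_of_nonneg_right (hMρ i) (hA0 i).le
      have h4 : M ≤ ρ * M := le_mul_of_one_le_left hM0.le hρ
      have h5 : 2 * (A i : ℝ) ≤ ρ * M * A i :=
        mul_le_mul_of_nonneg_right (by linarith) (hA0 i).le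
      linarith
    have h2 := mul_le_mul_of_nonneg_left h1 (show (0 : ℝ) ≤ 2 * K by positivity)
    have h3 : 2 * (K : ℝ) * (3 * (ρ * M) * A i) ≤ A i * d := by
      have h4 : 6 * ρ * K * M ≤ d := hKM.trans hlow
      have h5 := mul_le_mul_of_nonneg_left h4 (hA0 i).le
      linarith
    linarith
  · -- e3
    intro i
    rw [← ht]
    have h1 : 2 * ((A i : ℝ) + t / m i) / A i ≤ 2 + ρ * M := by
      rw [div_le_iff₀ (hA0 i)]
      have := htm i
      linarith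
    have h2 : (A i : ℝ) ≤ q ^ 2 / 4 := by
      refine le_trans ?_ hsA
      exact single_le_sum (f := fun i => (A i : ℝ)) (fun i _ => (hA0 i).le) (mem_univ i)
    have h3 := hMρ i
    have h4 : M ≤ ρ * M := le_mul_of_one_le_left hM0.le hρ
    nlinarith

end Pool.Agent.Y205.MD
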