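import Pool.Agent.Y205.MD.Crit3

/-! The numerical conditions, without a bound for the ratios of the multiplicities. -/

set_option autoImplicit false

namespace Pool.Agent.Y205.MD

open Finset

theorem cq_num {r : ℕ} {A c m : Fin r → ℕ} {ξ : Type} [Fintype ξ] {x : ξ → ℕ} {i0 : Fin r}
    {d μ : ℕ} {D L n X : ℝ} (hμ : ∀ i, m i ≤ μ) (hi0 : m i0 = μ) (hx : ∀ y, x y ≤ μ)
    (hm : ∀ i, 1 ≤ m i) (hD0 : 0 < D)
    (hD : D ^ 2 + L = ∑ i, 4 * (A i : ℝ) * (m i * (m i + 1)) +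
      (∑ i, (c i : ℝ) * (m i * (m i + 1)) + ∑ y, (x y : ℝ) * (x y + 1)))
    (hL : ∑ i, 4 * ((m i : ℝ) * A i) ≤ L) (hnA : ∑ i, 4 * (A i : ℝ) ≤ n) (hn : n ≤ D)
    (hCS : L ^ 2 ≤ n * D ^ 2) (hLμ : D ^ 2 ≤ μ * L)
    (h1 : 40 * (r : ℝ) * μ ≤ D) (hc1 : ∀ i, 4 * (μ : ℝ) ≤ c i * m i)
    (hc2 : ∀ i, (c i : ℝ) * m i ≤ 8 * μ) (hA1 : ∀ i, 2 * (μ : ℝ) ≤ A i * m i)
    (hA2 : ∀ i, 5 * L ≤ 4 * (A i * (μ * (4 * m i + μ)))) (hX : X = ∑ y, (x y : ℝ)) (hX2 : 30 * μ * X ≤ D)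
    (hT1 : (d : ℝ) ^ 2 + d < D ^ 2 + L) (hT2 : D ^ 2 + L ≤ ((d : ℝ) + 2) * (d + 3)) :
    CQ r r A m (fun i => (A i : ℝ) * (μ - 1)) (fun z : Σ i, Fin (c i) => z.1) (fun z => m z.1)
      x c m m i0 d ⌊D / (6 * μ)⌋₊ := by
  have hr0 : 0 < r := lt_of_le_of_lt (Nat.zero_le _) i0.2
  have hr1 : (1 : ℝ) ≤ r := by exact_mod_cast hr0
  have hm1 : ∀ i, (1 : ℝ) ≤ m i := fun i => by exact_mod_cast hm i
  have hm0 : ∀ i, (0 : ℝ) < m i := fun i => by linarith [hm1 i]
  have hmμ : ∀ i, (m i : ℝ) ≤ μ := fun i => by exact_mod_cast hμ i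
  have hμ1 : (1 : ℝ) ≤ μ := (hm1 i0).trans (hmμ i0)
  have hμ0 : (0 : ℝ) < μ := by linarith
  have hX0 : 0 ≤ X := by rw [hX]; exact sum_nonneg fun y _ => Nat.cast_nonneg _
  have h40 : 40 * (μ : ℝ) ≤ D := by
    have : 40 * 1 * (μ : ℝ) ≤ 40 * r * μ := by
      apply mul_le_mul_of_nonneg_right _ hμ0.le
      linarith
    linarith
  have hA0 : ∀ i, (0 : ℝ) < A i := by
    intro i
    have h2 := hA1 i
    by_contra hcon
    push Not at hcon
    have h3 : (A i : ℝ) = 0 := le_antisymm hcon (Nat.cast_nonneg _)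
    rw [h3, zero_mul] at h2
    linarith
  have hL0 : 0 ≤ L := by
    refine le_trans ?_ hL
    exact sum_nonneg fun i _ => by have := hm0 i; have := hA0 i; positivity
  -- `D` is large
  have hDμ : D ≤ μ ^ 2 := by
    have g1 : (D ^ 2) ^ 2 ≤ (μ * L) ^ 2 := pow_le_pow_left₀ (by positivity) hLμ 2
    have g2 : L ^ 2 ≤ D * D ^ 2 := hCS.trans (mul_le_mul_of_nonneg_right hn (by positivity))
    have g3 : D ^ 3 * D ≤ D ^ 3 * μ ^ 2 := by
      calc D ^ 3 * D = (D ^ 2) ^ 2 := by ring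
        _ ≤ (μ * L) ^ 2 := g1
        _ = μ ^ 2 * L ^ 2 := by ring
        _ ≤ μ ^ 2 * (D * D ^ 2) := mul_le_mul_of_nonneg_left g2 (by positivity)
        _ = D ^ 3 * μ ^ 2 := by ring
    exact le_of_mul_le_mul_left g3 (by positivity)
  have hD1600 : 1600 ≤ D := by
    have g1 : (40 * (μ : ℝ)) ^ 2 ≤ D ^ 2 := pow_le_pow_left₀ (by positivity) h40 2
    have g2 : 1600 * D ≤ D * D := by linarith
    exact le_of_mul_le_mul_right g2 hD0
  have hμ40 : 40 ≤ (μ : ℝ) := by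
    have : (40 : ℝ) ^ 2 ≤ (μ : ℝ) ^ 2 := by
      norm_num
      linarith
    exact le_of_sq_le_sq this hμ0.le
  have hLD : L ≤ D ^ 2 / 40 := by
    have g2 : L ^ 2 ≤ D * D ^ 2 := hCS.trans (mul_le_mul_of_nonneg_right hn (by positivity))
    have g3 : D * D ^ 2 ≤ (D ^ 2 / 40) ^ 2 := by
      have : (D ^ 2 / 40) ^ 2 = D ^ 3 * (D / 1600) := by ring
      rw [this]
      have e : D * D ^ 2 = D ^ 3 * 1 := by ring
      rw [e]
      apply mul_le_mul_of_nonneg_left _ (by positivity)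
      linarith
    exact le_of_sq_le_sq (g2.trans g3) (by positivity)
  -- bounds for the degree
  have hd0 : (0 : ℝ) ≤ d := Nat.cast_nonneg _
  have hlow : D ≤ d := by
    by_contra hcon
    push Not at hcon
    have g1 : ((d : ℝ) + 2) * (d + 3) < (D + 2) * (D + 3) :=
      mul_lt_mul'' (by linarith) (by linarith) (by linarith) (by linarith)
    have g2 : 40 * D ≤ L := by
      have h0 := mul_le_mul_of_nonneg_right h40 hD0.le
      have : μ * (40 * D) ≤ μ * L := by linarith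
      exact le_of_mul_le_mul_left this hμ0
    linarith
  have hup : (d : ℝ) + 3 ≤ 51 / 50 * D := by
    have g1 : (d : ℝ) < 61 / 60 * D := by
      by_contra hcon
      push Not at hcon
      have g2 : (61 / 60 * D) ^ 2 ≤ (d : ℝ) ^ 2 := pow_le_pow_left₀ (by positivity) hcon 2
      have g3 : 0 < D ^ 2 := by positivity
      linarith
    linarith
  -- the number `K`
  obtain ⟨z, hz⟩ : ∃ z : ℝ, z = D / (6 * μ) := ⟨_, rfl⟩
  have hz1 : 6 * μ * z = D := by rw [hz]; field_simp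
  obtain ⟨K, hK⟩ : ∃ K : ℕ, K = ⌊D / (6 * μ)⌋₊ := ⟨_, rfl⟩
  rw [← hK]
  rw [← hz] at hK
  have hz6 : 20 / 3 * (r : ℝ) ≤ z := by
    rw [hz, le_div_iff₀ (by positivity)]
    linarith
  have hz0 : 0 < z := by linarith
  have hK6 : 6 * r ≤ K := by
    rw [hK]
    apply Nat.le_floor
    push_cast
    linarith
  have hKz : (K : ℝ) ≤ z := by rw [hK]; exact Nat.floor_le hz0.le
  have hKz' : 4 / 5 * z ≤ K := by
    have := Nat.lt_floor_add_one z
    rw [← hK] at this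
    linarith
  have hK6' : (6 : ℝ) ≤ K := by
    have : 6 ≤ K := by omega
    exact_mod_cast this
  have hK0 : (0 : ℝ) < K := by linarith
  have hKμ : 6 * (K : ℝ) * μ ≤ D := by
    rw [← hz1]
    have := mul_le_mul_of_nonneg_left hKz (show (0 : ℝ) ≤ 6 * μ by positivity)
    linarith
  have hKμ' : 51 / 50 * D ≤ 8 * K * μ := by
    rw [← hz1]
    have := mul_le_mul_of_nonneg_left hKz' (show (0 : ℝ) ≤ 8 * μ by positivity)
    have h0 : 0 ≤ μ * z := by positivity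
    linarith
  have h6d : 6 * (K : ℝ) * μ ≤ d := hKμ.trans hlow
  -- sums
  have hsA : ∑ i, (A i : ℝ) ≤ D / 4 := by
    rw [← mul_sum] at hnA
    linarith
  have hrμ : (r : ℝ) * (8 * μ) ≤ D / 5 := by linarith
  have hsum8 : ∑ _i : Fin r, 8 * (μ : ℝ) ≤ D / 5 := by
    rw [sum_const, card_univ, Fintype.card_fin, nsmul_eq_mul]
    exact hrμ
  have hscm : ∑ i, (c i : ℝ) * m i ≤ D / 5 := (sum_le_sum fun i _ => hc2 i).trans hsum8
  have hscc : ∑ i, (c i : ℝ) ≤ D / 5 := by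
    refine le_trans (sum_le_sum fun i _ => ?_) hscm
    exact le_mul_of_one_le_right (Nat.cast_nonneg _) (hm1 i)
  obtain ⟨t, ht⟩ : ∃ t : ℝ, t = ∑ j, (m j : ℝ) * A j := ⟨_, rfl⟩
  have ht1 : 4 * t ≤ L := by
    rw [← mul_sum, ← ht] at hL
    exact hL
  -- further points
  have hXA : X / A i0 ≤ μ / 2 := by
    rw [div_le_iff₀ (hA0 i0)]
    have g1 := hA1 i0
    rw [hi0] at g1
    have g2 : 2 ≤ (A i0 : ℝ) := le_of_mul_le_mul_right g1 hμ0
    have g3 : L ≤ 4 * (A i0 * (μ * μ)) := by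
      have := hA2 i0
      rw [hi0] at this
      linarith
    -- `D² ≤ μ L ≤ 4 μ³ A`, `30 μ X ≤ D`
    have g4 : D ^ 2 ≤ μ * (4 * (A i0 * (μ * μ))) :=
      hLμ.trans (mul_le_mul_of_nonneg_left g3 hμ0.le)
    have g5 : 40 * μ * (30 * μ * X) ≤ D * D :=
      mul_le_mul h40 hX2 (by positivity) hD0.le
    have g6 : (μ * μ : ℝ) * (1200 * X) ≤ (μ * μ) * (4 * μ * A i0) := by linarith
    have g7 : 1200 * X ≤ 4 * μ * A i0 := le_of_mul_le_mul_left g6 (by positivity)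
    linarith
  have hμX : μ * X ≤ D / 30 := by linarith
  have hXD : 40 * X ≤ D / 30 := by
    have := mul_le_mul_of_nonneg_right hμ40 hX0
    linarith
  have hxsum : ∑ y, (x y : ℝ) * (x y + 1) ≤ (μ + 1) * X := by
    rw [hX, mul_sum]
    refine sum_le_sum fun y _ => ?_
    have g1 : (x y : ℝ) ≤ μ := by exact_mod_cast hx y
    have g2 : (0 : ℝ) ≤ x y := Nat.cast_nonneg _
    have g3 := mul_le_mul_of_nonneg_right g1 g2
    linarith
  have hxsum0 : 0 ≤ ∑ y, (x y : ℝ) * (x y + 1) := sum_nonneg fun y _ => by positivity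
  have hsc : ∀ f : Fin r → ℝ, ∑ z : Σ i, Fin (c i), f z.1 = ∑ i, (c i : ℝ) * f i := by
    intro f
    rw [Fintype.sum_sigma]
    refine sum_congr rfl fun i _ => ?_
    simp
  have he : ∑ y : Σ i, Fin (c i), (m y.1 : ℝ) * (m y.1 + 1) =
      ∑ i, (c i : ℝ) * (m i * (m i + 1)) := hsc fun i => (m i : ℝ) * (m i + 1)
  refine { hK := by omega, hr := ?_, hA := ?_, hm := hm, hc := ?_, hc2 := ?_, hlo := fun y => le_rfl, hhi := fun y => le_rfl, hx := ?_, hT := ?_, s1 := ?_, s1x := ?_, s1' := ?_, s2 := ?_, s2' := ?_, s3 := ?_, hY0 := ?_, hY := ?_, e2 := ?_, e3 := ?_ }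
  · have h1 : (6 * r) ^ 2 ≤ K ^ 2 := Nat.pow_le_pow_left hK6 2
    have e0 : (6 * r) ^ 2 = 36 * (r * r) := by ring
    have h2 : r ≤ r * r := Nat.le_mul_self r
    omega
  · intro i
    have g1 : 2 * (m i : ℝ) ≤ A i * m i := by
      have := hA1 i
      have := hmμ i
      linarith
    have g2 : (2 : ℝ) ≤ A i := le_of_mul_le_mul_right g1 (hm0 i)
    exact_mod_cast g2
  · intro g
    rw [Fintype.sum_sigma, Finset.sum_eq_single g]
    · simp
    · intro i _ hi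
      simp [hi]
    · intro h
      exact absurd (mem_univ _) h
  · intro i
    have g1 : 2 * (m i : ℝ) ≤ c i * m i := by
      have := hc1 i
      have := hmμ i
      linarith
    have g2 : (2 : ℝ) ≤ c i := le_of_mul_le_mul_right g1 (hm0 i)
    exact_mod_cast g2
  · intro y
    rw [hi0]
    have := hx y
    omega
  · rw [he, ← hD]
    exact hT1
  · -- s1
    intro i
    have g1 : 2 * (m i : ℝ) + 1 ≤ 3 * μ := by have := hmμ i; linarith
    have g2 : 2 * (K : ℝ) * (2 * m i + 1) ≤ 2 * K * (3 * μ) :=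
      mul_le_mul_of_nonneg_left g1 (by positivity)
    linarith
  · -- s1x
    rw [hi0, ← hX]
    have g1 : 2 * (μ : ℝ) + 1 + X / A i0 ≤ 3 * μ := by linarith
    have g2 : 2 * (K : ℝ) * (2 * μ + 1 + X / A i0) ≤ 2 * K * (3 * μ) :=
      mul_le_mul_of_nonneg_left g1 (by positivity)
    linarith
  · -- s1'
    intro g
    have g1 : (m g : ℝ) + 1 ≤ 3 * μ := by have := hmμ g; linarith
    have g2 : 2 * (K : ℝ) * (m g + 1) ≤ 2 * K * (3 * μ) :=
      mul_le_mul_of_nonneg_left g1 (by positivity)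
    linarith
  · -- s2
    intro i
    have g2 := mul_le_mul_of_nonneg_left (hA1 i) (show (0 : ℝ) ≤ 4 * K by positivity)
    linarith
  · -- s2'
    intro i
    have g2 := mul_le_mul_of_nonneg_left (hc1 i) (show (0 : ℝ) ≤ 2 * K by positivity)
    linarith
  · -- s3
    have e1 : ∑ i, (A i : ℝ) * (2 * m i + 1) ^ 2 =
        ∑ i, 4 * (A i : ℝ) * (m i * (m i + 1)) + ∑ i, (A i : ℝ) := by
      rw [← sum_add_distrib]
      refine sum_congr rfl fun i _ => ?_
      ring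
    have e2 : ∑ g, (c g : ℝ) * (m g + 1) ^ 2 =
        ∑ i, (c i : ℝ) * (m i * (m i + 1)) + (∑ i, (c i : ℝ) * m i + ∑ i, (c i : ℝ)) := by
      rw [← sum_add_distrib, ← sum_add_distrib]
      refine sum_congr rfl fun i _ => ?_
      ring
    have g2 : ((d : ℝ) + 3 - 1 / (2 * K)) ^ 2 ≥ ((d : ℝ) + 3) ^ 2 - (d + 3) / K := by
      have e : ((d : ℝ) + 3 - 1 / (2 * K)) ^ 2 =
          ((d : ℝ) + 3) ^ 2 - (d + 3) / K + (1 / (2 * K)) ^ 2 := by
        field_simp
        ring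
      rw [e]
      have : (0 : ℝ) ≤ (1 / (2 * K)) ^ 2 := by positivity
      linarith
    have g3 : ((d : ℝ) + 3) / K ≤ (d + 3) / 6 :=
      div_le_div_of_nonneg_left (by linarith) (by norm_num) hK6'
    have g4 : X ^ 2 / A i0 ≤ D / 60 := by
      have : X ^ 2 / A i0 = X * (X / A i0) := by ring
      rw [this]
      have g5 := mul_le_mul_of_nonneg_left hXA hX0
      linarith
    rw [← hX, hi0, e1, e2]
    linarith
  · -- hY0
    intro i
    exact mul_nonneg (hA0 i).le (by linarith)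
  · -- hY
    intro i
    rw [← ht]
    have e1 : 4 * (m i : ℝ) * (A i * (μ - 1)) + (A i * (μ - 1)) ^ 2 / A i =
        A i * ((μ - 1) * (4 * m i + (μ - 1))) := by
      have := hA0 i
      field_simp
    rw [e1]
    have g1 : 39 / 40 * (μ : ℝ) ≤ μ - 1 := by linarith
    have g2 : 39 / 40 * (4 * (m i : ℝ) + μ) ≤ 4 * m i + (μ - 1) := by linarith [hm0 i]
    have g3 : (39 / 40 * (μ : ℝ)) * (39 / 40 * (4 * (m i : ℝ) + μ)) ≤
        (μ - 1) * (4 * m i + (μ - 1)) := by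
      apply mul_le_mul g1 g2 _ (by linarith)
      have := hm0 i
      positivity
    have g4 := mul_le_mul_of_nonneg_left g3 (hA0 i).le
    have g5 := hA2 i
    have g6 : (A i : ℝ) * ((39 / 40 * (μ : ℝ)) * (39 / 40 * (4 * (m i : ℝ) + μ))) =
        1521 / 1600 * (A i * (μ * (4 * m i + μ))) := by ring
    rw [g6] at g4
    linarith
  · -- e2
    intro i
    have e1 : 2 * (m i : ℝ) * A i + A i + A i * (μ - 1) = A i * (2 * m i + μ) := by ring
    rw [e1]
    have g1 : 2 * (K : ℝ) * (2 * m i + μ) ≤ 2 * K * (3 * μ) :=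
      mul_le_mul_of_nonneg_left (by linarith [hmμ i]) (by positivity)
    have g2 : 2 * (K : ℝ) * (2 * m i + μ) ≤ d := by linarith
    have g3 := mul_le_mul_of_nonneg_left g2 (hA0 i).le
    linarith
  · -- e3
    intro i
    rw [he]
    have e1 : ∑ i, (c i : ℝ) * (m i * (m i + 1)) =
        ∑ i, (c i : ℝ) * (m i : ℝ) ^ 2 + ∑ i, (c i : ℝ) * m i := by
      rw [← sum_add_distrib]
      refine sum_congr rfl fun i _ => ?_
      ring
    have g1 : 2 * ((A i : ℝ) + A i * (μ - 1)) / A i = 2 * μ := by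
      have := hA0 i
      field_simp
      ring
    have g2 : (A i : ℝ) ≤ D / 4 := by
      refine le_trans ?_ hsA
      exact single_le_sum (f := fun i => (A i : ℝ)) (fun i _ => (hA0 i).le) (mem_univ i)
    have g3 := hmμ i
    rw [e1, g1]
    linarith

end Pool.Agent.Y205.MD
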