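import Pool.Agent.Y205.MD.Gen

/-! Raising multiplicities within one class, and the bound for the coranks. -/

set_option autoImplicit false

namespace Pool.Agent.Y205.MD

open Finset Module Pool.Agent.TH176.Nag Pool.Agent.TH603.Sur Pool.Agent.TH763.DB

/-- multiplicities `b i`, raised by one on `J`, and spectators -/
def lv {N : ℕ} (b : Fin N → ℕ) (J : Finset (Fin N)) (i : Fin N) : ℕ := b i + if i ∈ J then 1 else 0

/-- with spectators -/
def wB {N : ℕ} {κ : Type} (b : Fin N → ℕ) (e : κ → ℕ) (J : Finset (Fin N)) : Fin N ⊕ κ → ℕ :=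
  Sum.elim (lv b J) e

theorem le_lv {N : ℕ} (b : Fin N → ℕ) (J : Finset (Fin N)) (i : Fin N) : b i ≤ lv b J i :=
  Nat.le_add_right _ _

theorem lv_mem {N : ℕ} {b : Fin N → ℕ} {J : Finset (Fin N)} {i : Fin N} (h : i ∈ J) :
    lv b J i = b i + 1 := by unfold lv; rw [if_pos h]

theorem lv_not {N : ℕ} {b : Fin N → ℕ} {J : Finset (Fin N)} {i : Fin N} (h : i ∉ J) :
    lv b J i = b i := by unfold lv; rw [if_neg h, add_zero]

theorem lv_le {N : ℕ} (b : Fin N → ℕ) (J : Finset (Fin N)) (i : Fin N) : lv b J i ≤ b i + 1 := by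
  unfold lv; split_ifs <;> omega

theorem lv_mono {N : ℕ} {b : Fin N → ℕ} {J J' : Finset (Fin N)} (h : J ⊆ J') (i : Fin N) :
    lv b J i ≤ lv b J' i := by
  by_cases hi : i ∈ J
  · rw [lv_mem hi, lv_mem (h hi)]
  · rw [lv_not hi]; exact le_lv _ _ _

section
variable {N : ℕ} {κ : Type} {b : Fin N → ℕ} {e : κ → ℕ}
  {S : Finset (ℤ × ℤ)}

theorem crk_swap {q k : Fin N} (hbq : b q = b k) {J J' : Finset (Fin N)}
    (h : ∀ i, i ∈ J' ↔ Equiv.swap q k i ∈ J) : crk S (wB b e J') = crk S (wB b e J) := by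
  have e1 : wB b e J' = fun x => wB b e J ((Equiv.sumCongr (Equiv.swap q k) (Equiv.refl κ)) x) := by
    funext x
    rcases x with i | i
    · simp only [wB, Sum.elim_inl, Equiv.sumCongr_apply, Sum.map_inl]
      have e2 : b (Equiv.swap q k i) = b i := by
        by_cases h1 : i = q
        · subst h1; rw [Equiv.swap_apply_left]; exact hbq.symm
        · by_cases h2 : i = k
          · subst h2; rw [Equiv.swap_apply_right]; exact hbq
          · rw [Equiv.swap_apply_of_ne_of_ne h1 h2]
      unfold lv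
      rw [e2]
      simp only [h]
    · simp only [wB, Sum.elim_inr, Equiv.sumCongr_apply, Sum.map_inr, Equiv.refl_apply]
  rw [e1]
  exact crk_perm S (wB b e J) _

variable [Finite κ]

/-- the ratio, iterated -/
theorem ratio_iter {ι : Type} [DecidableEq ι] [Finite ι] (hpos : ∀ u ∈ S, 0 ≤ u.1 ∧ 0 ≤ u.2)
    (s : ι → ℕ) (q : ι) (l0 : ℕ) (d : ℕ) :
    ((l0 : ℝ) + 1) * ((crk S (Function.update s q (l0 + d)) : ℝ) -
      crk S (Function.update s q (l0 + d + 1))) ≤
      (l0 + d + 1) * ((crk S (Function.update s q l0) : ℝ) - crk S (Function.update s q (l0 + 1))) := by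
  induction d with
  | zero => simp
  | succ d ih =>
    have h := ratio hpos s q (l0 + d)
    push_cast at h ih ⊢
    have e1 : l0 + (d + 1) = l0 + d + 1 := by ring
    have e2 : l0 + (d + 1) + 1 = l0 + d + 2 := by ring
    rw [e1]
    set A := (crk S (Function.update s q (l0 + d + 1)) : ℝ) - crk S (Function.update s q (l0 + d + 2))
    set B := (crk S (Function.update s q (l0 + d)) : ℝ) - crk S (Function.update s q (l0 + d + 1))
    set C := (crk S (Function.update s q l0) : ℝ) - crk S (Function.update s q (l0 + 1))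
    have hp : (0 : ℝ) < l0 + d + 1 := by positivity
    have h1 : ((l0 : ℝ) + d + 1) * ((l0 + 1) * A) ≤ (l0 + d + 1) * ((l0 + d + 2) * C) := by
      calc ((l0 : ℝ) + d + 1) * ((l0 + 1) * A) = (l0 + 1) * (A * (l0 + d + 1)) := by ring
        _ ≤ (l0 + 1) * ((l0 + d + 2) * B) := mul_le_mul_of_nonneg_left h (by positivity)
        _ = (l0 + d + 2) * ((l0 + 1) * B) := by ring
        _ ≤ (l0 + d + 2) * ((l0 + d + 1) * C) := mul_le_mul_of_nonneg_left ih (by positivity)
        _ = _ := by ring
    have h2 := le_of_mul_le_mul_left h1 hp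
    linarith

theorem choose_succ (a : ℕ) : (((a + 1 + 1).choose 2 : ℕ) : ℝ) = ((a + 1).choose 2 : ℕ) + (a + 1) := by
  have h : (a + 1 + 1).choose 2 = (a + 1) + (a + 1).choose 2 := by
    rw [Nat.choose_succ_succ' (a + 1) 1, Nat.choose_one_right]
  rw [h]
  push_cast
  ring

/-- one step of the raising -/
theorem raise_step (hpos : ∀ u ∈ S, 0 ≤ u.1 ∧ 0 ≤ u.2) {J : Finset (Fin N)} {k : Fin N}
    (hk : k ∉ J) {v : Fin N → ℕ} (h1 : ∀ i, lv b (insert k J) i ≤ v i) {q : Fin N}
    (hbq : b q = b k) :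
    ((b k : ℝ) + 1) * ((crk S (Sum.elim v e : Fin N ⊕ κ → ℕ) : ℝ) -
        crk S (Sum.elim (Function.update v q (v q + 1)) e : Fin N ⊕ κ → ℕ)) ≤
      (v q + 1) * ((crk S (wB b e J) : ℝ) - crk S (wB b e (insert k J))) := by
  classical
  -- the base state
  obtain ⟨J1, hJ1q, hJ1le, hJ1c, hJ1c'⟩ : ∃ J1 : Finset (Fin N), q ∉ J1 ∧
      J1 ⊆ insert k J ∧ crk S (wB b e J1) = crk S (wB b e J) ∧
      crk S (wB b e (insert q J1)) = crk S (wB b e (insert k J)) := by
    by_cases hq : q ∈ insert k J
    · refine ⟨(insert k J).erase q, notMem_erase _ _, erase_subset _ _, ?_, ?_⟩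
      · apply crk_swap hbq
        intro i
        rw [mem_erase, mem_insert]
        by_cases h2 : i = q
        · subst h2
          rw [Equiv.swap_apply_left]
          simp [hk]
        · by_cases h3 : i = k
          · subst h3
            rw [Equiv.swap_apply_right]
            rw [mem_insert] at hq
            rcases hq with hq | hq
            · exact absurd hq.symm h2
            · simp [h2, hq]
          · rw [Equiv.swap_apply_of_ne_of_ne h2 h3]
            simp [h2, h3]
      · rw [insert_erase hq]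
    · rw [mem_insert] at hq
      push Not at hq
      refine ⟨J, hq.2, subset_insert _ _, rfl, ?_⟩
      apply crk_swap hbq
      intro i
      rw [mem_insert, mem_insert]
      by_cases h2 : i = q
      · subst h2
        rw [Equiv.swap_apply_left]
        simp
      · by_cases h3 : i = k
        · subst h3
          rw [Equiv.swap_apply_right]
          simp [h2, hk, hq.1, hq.2]
        · rw [Equiv.swap_apply_of_ne_of_ne h2 h3]
          simp [h2, h3]
  obtain ⟨s, hs⟩ : ∃ s : Fin N ⊕ κ → ℕ, s = wB b e J1 := ⟨_, rfl⟩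
  obtain ⟨d, hd⟩ : ∃ d, v q = b q + d := ⟨v q - b q, by have := h1 q; have := le_lv b (insert k J) q; omega⟩
  have hup0 : Function.update s (Sum.inl q) (b q) = s := by
    rw [hs]
    have : wB b e J1 (Sum.inl q) = b q := lv_not hJ1q
    conv_lhs => rw [← this]
    exact Function.update_eq_self _ _
  have hup1 : Function.update s (Sum.inl q) (b q + 1) = wB b e (insert q J1) := by
    rw [hs]
    funext x
    rcases x with i | i
    · by_cases hi : i = q
      · subst hi
        rw [Function.update_self]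
        exact (lv_mem (mem_insert_self _ _)).symm
      · rw [Function.update_of_ne (by simp [hi])]
        simp only [wB, Sum.elim_inl]
        unfold lv
        simp [mem_insert, hi]
    · rw [Function.update_of_ne (by simp)]
      rfl
  have h2 := ratio_iter hpos s (Sum.inl q) (b q) d
  rw [hup0, hup1, hJ1c', hs, hJ1c, ← hs] at h2
  have h3 := crk_super hpos (w := Function.update s (Sum.inl q) (v q))
    (w' := (Sum.elim v e : Fin N ⊕ κ → ℕ)) (by
      rintro (i | i)
      · by_cases hi : i = q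
        · subst hi
          rw [Function.update_self]
          exact le_rfl
        · rw [Function.update_of_ne (by simp [hi]), hs]
          exact (lv_mono hJ1le i).trans (h1 i)
      · rw [Function.update_of_ne (by simp), hs]
        exact le_rfl) (Sum.inl q) (v q + 1) (by simp)
  rw [Function.update_idem] at h3
  have e1 : Function.update (Sum.elim v e : Fin N ⊕ κ → ℕ) (Sum.inl q) (v q + 1) =
      Sum.elim (Function.update v q (v q + 1)) e := by
    funext x
    rcases x with i | i
    · by_cases hi : i = q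
      · subst hi
        simp
      · rw [Function.update_of_ne (by simp [hi])]
        simp [hi]
    · simp
  rw [e1] at h3
  have h3' : (crk S (Sum.elim v e : Fin N ⊕ κ → ℕ) : ℝ) +
      crk S (Function.update s (Sum.inl q) (v q + 1)) ≤
      crk S (Function.update s (Sum.inl q) (v q)) +
      crk S (Sum.elim (Function.update v q (v q + 1)) e : Fin N ⊕ κ → ℕ) := by
    exact_mod_cast h3
  rw [← hd] at h2
  have e2 : ((v q : ℕ) : ℝ) = b q + d := by rw [hd]; push_cast; ring
  rw [← hbq, e2]
  have hb1 : (0 : ℝ) ≤ (b q : ℝ) + 1 := by positivity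
  calc ((b q : ℝ) + 1) * ((crk S (Sum.elim v e : Fin N ⊕ κ → ℕ) : ℝ) -
        crk S (Sum.elim (Function.update v q (v q + 1)) e : Fin N ⊕ κ → ℕ))
      ≤ ((b q : ℝ) + 1) * ((crk S (Function.update s (Sum.inl q) (v q)) : ℝ) -
        crk S (Function.update s (Sum.inl q) (v q + 1))) :=
        mul_le_mul_of_nonneg_left (by linarith) hb1
    _ ≤ _ := h2

/-- **Raising**: the decrement of the corank when the point `k` is raised by one, compared with the
number of conditions of any raising inside the class of `k`. -/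
theorem raise (hpos : ∀ u ∈ S, 0 ≤ u.1 ∧ 0 ≤ u.2) {J : Finset (Fin N)} {k : Fin N}
    (hk : k ∉ J) (n : ℕ) : ∀ {v : Fin N → ℕ}, ∑ i, v i = n → (∀ i, lv b (insert k J) i ≤ v i) →
    (∀ i, b i ≠ b k → v i = lv b J i) →
    ((b k : ℝ) + 1) * ((crk S (wB b e J) : ℝ) - crk S (Sum.elim v e : Fin N ⊕ κ → ℕ)) ≤
      ((crk S (wB b e J) : ℝ) - crk S (wB b e (insert k J))) *
        (∑ i, (((v i + 1).choose 2 : ℕ) : ℝ) - ∑ i, (((lv b J i + 1).choose 2 : ℕ) : ℝ)) := by
  induction n using Nat.strong_induction_on with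
  | _ n ih =>
    intro v hn h1 h2
    by_cases hne : ∃ q, lv b (insert k J) q < v q
    · obtain ⟨q, hq⟩ := hne
      have hbq : b q = b k := by
        by_contra hcon
        have h3 := h2 q hcon
        have hqk : q ≠ k := fun h => hcon (by rw [h])
        have : lv b (insert k J) q = lv b J q := by
          unfold lv
          simp [mem_insert, hqk]
        omega
      obtain ⟨v', hv'⟩ : ∃ v' : Fin N → ℕ, v' = Function.update v q (v q - 1) := ⟨_, rfl⟩
      have hvq : v' q + 1 = v q := by
        rw [hv', Function.update_self]; omega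
      have hvo : ∀ i, i ≠ q → v' i = v i := fun i hi => by rw [hv', Function.update_of_ne hi]
      have hvv : Function.update v' q (v' q + 1) = v := by
        rw [hvq]
        funext i
        by_cases hi : i = q
        · subst hi; rw [Function.update_self]
        · rw [Function.update_of_ne hi, hvo i hi]
      have hsum : ∑ i, v' i < n := by
        rw [← hn]
        refine sum_lt_sum (fun i _ => ?_) ⟨q, mem_univ _, by omega⟩
        by_cases hi : i = q
        · subst hi; omega
        · rw [hvo i hi]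
      have h1' : ∀ i, lv b (insert k J) i ≤ v' i := by
        intro i
        by_cases hi : i = q
        · subst hi; omega
        · rw [hvo i hi]; exact h1 i
      have h2' : ∀ i, b i ≠ b k → v' i = lv b J i := by
        intro i hi
        have : i ≠ q := fun h => hi (by rw [h]; exact hbq)
        rw [hvo i this]
        exact h2 i hi
      have h3 := ih _ hsum rfl h1' h2'
      have h4 := raise_step (e := e) hpos hk h1' hbq
      rw [hvv] at h4
      have h5 : ∑ i, (((v i + 1).choose 2 : ℕ) : ℝ) =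
          ∑ i, (((v' i + 1).choose 2 : ℕ) : ℝ) + (v' q + 1) := by
        rw [← add_sum_erase univ _ (mem_univ q), ← add_sum_erase univ (fun i =>
          (((v' i + 1).choose 2 : ℕ) : ℝ)) (mem_univ q)]
        have e1 : ∑ i ∈ univ.erase q, (((v i + 1).choose 2 : ℕ) : ℝ) =
            ∑ i ∈ univ.erase q, (((v' i + 1).choose 2 : ℕ) : ℝ) :=
          sum_congr rfl fun i hi => by rw [hvo i (ne_of_mem_erase hi)]
        rw [e1, ← hvq, choose_succ]
        ring
      rw [h5]
      linarith
    · push Not at hne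
      have hv : v = lv b (insert k J) := funext fun i => le_antisymm (hne i) (h1 i)
      have h5 : ∑ i, (((v i + 1).choose 2 : ℕ) : ℝ) =
          ∑ i, (((lv b J i + 1).choose 2 : ℕ) : ℝ) + (b k + 1) := by
        rw [hv, ← add_sum_erase univ _ (mem_univ k), ← add_sum_erase univ (fun i =>
          (((lv b J i + 1).choose 2 : ℕ) : ℝ)) (mem_univ k)]
        have e1 : ∑ i ∈ univ.erase k, (((lv b (insert k J) i + 1).choose 2 : ℕ) : ℝ) =
            ∑ i ∈ univ.erase k, (((lv b J i + 1).choose 2 : ℕ) : ℝ) :=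
          sum_congr rfl fun i hi => by
            have : i ≠ k := ne_of_mem_erase hi
            unfold lv
            simp [mem_insert, this]
        rw [e1, lv_mem (mem_insert_self _ _), lv_not hk, choose_succ]
        ring
      rw [h5, hv]
      have e2 : (Sum.elim (lv b (insert k J)) e : Fin N ⊕ κ → ℕ) = wB b e (insert k J) := rfl
      rw [e2]
      apply le_of_eq
      ring

/-- **The bound for all coranks.** -/
theorem crk_bound (hpos : ∀ u ∈ S, 0 ≤ u.1 ∧ 0 ≤ u.2) {μ : Fin N → ℕ} (hμ : ∀ i, 0 < μ i) {c0 : ℕ}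
    (h0 : crk S (wB b e ∅) ≤ c0)
    (H : ∀ J : Finset (Fin N), ∀ k ∉ J, ∃ v : Fin N → ℕ, (∀ i, lv b (insert k J) i ≤ v i) ∧
      (∀ i, b i ≠ b k → v i = lv b J i) ∧ Emp (Sum.elim v e : Fin N ⊕ κ → ℕ) (↑S : Set (ℤ × ℤ)) ∧
      (μ k : ℝ) * (∑ i, (((v i + 1).choose 2 : ℕ) : ℝ) - ∑ i, (((lv b J i + 1).choose 2 : ℕ) : ℝ)) ≤
        ((b k : ℝ) + 1) * ∑ i ∈ Jᶜ, (μ i : ℝ)) (J : Finset (Fin N)) :
    (crk S (wB b e J) : ℝ) * ∑ i, (μ i : ℝ) ≤ c0 * ∑ i ∈ Jᶜ, (μ i : ℝ) := by
  classical
  induction J using Finset.induction_on with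
  | empty =>
    rw [compl_empty]
    exact mul_le_mul_of_nonneg_right (by exact_mod_cast h0) (sum_nonneg fun i _ => Nat.cast_nonneg _)
  | insert k J hk ih =>
    obtain ⟨v, h1, h2, h3, h4⟩ := H J k hk
    have h5 := raise (e := e) hpos hk _ rfl h1 h2
    rw [crk_zero_of_Emp h3] at h5
    obtain ⟨c, hc⟩ : ∃ c : ℝ, c = crk S (wB b e J) := ⟨_, rfl⟩
    obtain ⟨c', hc'⟩ : ∃ c' : ℝ, c' = crk S (wB b e (insert k J)) := ⟨_, rfl⟩
    obtain ⟨C, hC⟩ : ∃ C : ℝ, C = ∑ i, (((v i + 1).choose 2 : ℕ) : ℝ) -
      ∑ i, (((lv b J i + 1).choose 2 : ℕ) : ℝ) := ⟨_, rfl⟩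
    obtain ⟨m, hm⟩ : ∃ m : ℝ, m = ∑ i ∈ Jᶜ, (μ i : ℝ) := ⟨_, rfl⟩
    obtain ⟨m', hm'⟩ : ∃ m' : ℝ, m' = ∑ i ∈ (insert k J)ᶜ, (μ i : ℝ) := ⟨_, rfl⟩
    obtain ⟨M, hM⟩ : ∃ M : ℝ, M = ∑ i, (μ i : ℝ) := ⟨_, rfl⟩
    rw [← hc, ← hc', ← hC, Nat.cast_zero, sub_zero] at h5
    rw [← hC, ← hm] at h4
    rw [← hc, ← hM, ← hm] at ih
    rw [← hc', ← hM, ← hm']
    have hkm : m = m' + μ k := by
      rw [hm, hm']
      have e1 : Jᶜ = insert k (insert k J)ᶜ := by
        ext i
        simp only [mem_compl, mem_insert]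
        by_cases hi : i = k
        · subst hi; simp [hk]
        · simp [hi]
      rw [e1, sum_insert (by simp)]
      ring
    have hμk : (0 : ℝ) < μ k := by exact_mod_cast hμ k
    have hm'0 : 0 ≤ m' := by rw [hm']; exact sum_nonneg fun i _ => Nat.cast_nonneg _
    have hm0 : 0 < m := by linarith
    have hc0 : 0 ≤ c := by rw [hc]; exact Nat.cast_nonneg _
    have hD : c' ≤ c := by
      rw [hc, hc']
      have : crk S (wB b e (insert k J)) ≤ crk S (wB b e J) :=
        crk_anti hpos (by
          rintro (i | i)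
          · exact lv_mono (subset_insert _ _) i
          · exact le_rfl)
      exact_mod_cast this
    have hb : (0 : ℝ) < (b k : ℝ) + 1 := by positivity
    -- `μ k * c ≤ (c - c') * m`
    have h6 : (μ k : ℝ) * c ≤ (c - c') * m := by
      have h7 : ((b k : ℝ) + 1) * (μ k * c) ≤ (b k + 1) * ((c - c') * m) := by
        calc ((b k : ℝ) + 1) * (μ k * c) = μ k * ((b k + 1) * c) := by ring
          _ ≤ μ k * ((c - c') * C) := mul_le_mul_of_nonneg_left h5 hμk.le
          _ = (c - c') * (μ k * C) := by ring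
          _ ≤ (c - c') * ((b k + 1) * m) := mul_le_mul_of_nonneg_left h4 (by linarith)
          _ = _ := by ring
      exact le_of_mul_le_mul_left h7 hb
    have h8 : c' * m ≤ c * m' := by
      rw [hkm] at h6 ⊢
      nlinarith
    have hM0 : 0 ≤ M := by rw [hM]; exact sum_nonneg fun i _ => Nat.cast_nonneg _
    have h9 : m * (c' * M) ≤ m * (c0 * m') := by
      calc m * (c' * M) = (c' * m) * M := by ring
        _ ≤ (c * m') * M := mul_le_mul_of_nonneg_right h8 hM0
        _ = (c * M) * m' := by ring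
        _ ≤ (c0 * m) * m' := mul_le_mul_of_nonneg_right ih hm'0
        _ = _ := by ring
    exact le_of_mul_le_mul_left h9 hm0

end

end Pool.Agent.Y205.MD
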