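import Pool.Agent.Y205.MD.KeyL
import Pool.Agent.TH503.MN.Rows

/-! Count of the first rows of the multi-node chart. -/

set_option autoImplicit false

namespace Pool.Agent.Y205.MD

open Finset Pool.Agent.TH176.Nag Pool.Agent.TH603.Sur Pool.Agent.TH745.MN

/-- the rows of `SS` -/
noncomputable def rowS (M D : ℕ) (a b : ℝ) (ω : ℕ → ℝ) (l : ℕ) : Finset (ℤ × ℤ) :=
  Ioo (-(⌈ω (D - 2 * M * l) / b⌉₊ : ℤ)) (⌈ω (D - 2 * M * l) / a⌉₊ : ℤ) ×ˢ {(l : ℤ)}

theorem card_rowS (M D : ℕ) {a b : ℝ} (ha : 0 < a) {ω : ℕ → ℝ}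
    (hω : ∀ W, 0 < ω W) (l : ℕ) : (rowS M D a b ω l).card + 1 =
      ⌈ω (D - 2 * M * l) / a⌉₊ + ⌈ω (D - 2 * M * l) / b⌉₊ := by
  unfold rowS
  rw [card_product, card_singleton, mul_one, Int.card_Ioo]
  have h1 : 0 < ⌈ω (D - 2 * M * l) / a⌉₊ := Nat.ceil_pos.2 (div_pos (hω _) ha)
  omega

theorem SSL_sub {M D L : ℕ} {a b : ℝ} (ha : 0 < a) (hb : 0 < b) (ω : ℕ → ℝ) :
    SSL M D L a b ω ⊆ ↑((range L).biUnion (rowS M D a b ω)) := by
  rintro ⟨x, y⟩ ⟨⟨h1, h2, h3, h4⟩, h8⟩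
  simp only at h1 h2 h3 h4 h8
  obtain ⟨l, rfl⟩ := Int.eq_ofNat_of_zero_le h1
  rw [Int.toNat_natCast] at h3 h4
  rw [Finset.mem_coe, mem_biUnion]
  refine ⟨l, ?_, ?_⟩
  · rw [mem_range]
    exact_mod_cast h8
  · unfold rowS
    rw [mem_product, mem_Ioo, mem_singleton]
    refine ⟨⟨?_, ?_⟩, rfl⟩
    · have h5 : (-(x : ℝ)) < ω (D - 2 * M * l) / b := by
        rw [lt_div_iff₀ hb]; linarith
      have h6 : (-(x : ℝ)) < (⌈ω (D - 2 * M * l) / b⌉₊ : ℝ) := h5.trans_le (Nat.le_ceil _)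
      have h7 : -x < (⌈ω (D - 2 * M * l) / b⌉₊ : ℤ) := by exact_mod_cast h6
      show -(⌈ω (D - 2 * M * l) / b⌉₊ : ℤ) < x
      omega
    · have h5 : (x : ℝ) < ω (D - 2 * M * l) / a := by
        rw [lt_div_iff₀ ha]; linarith
      have h6 : (x : ℝ) < (⌈ω (D - 2 * M * l) / a⌉₊ : ℝ) := h5.trans_le (Nat.le_ceil _)
      show x < (⌈ω (D - 2 * M * l) / a⌉₊ : ℤ)
      exact_mod_cast h6

/-- two rows of `WM` -/
noncomputable def rowW (M D l : ℕ) : Finset (ℤ × ℤ) :=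
  Icc (0 : ℤ) (D - 2 * M * l : ℤ) ×ˢ {(2 * l : ℤ)} ∪
    Icc (0 : ℤ) (D - 2 * M * l - M : ℤ) ×ˢ {(2 * l + 1 : ℤ)}

theorem card_rowW (M D l : ℕ) : (rowW M D l).card =
    (D - 2 * M * l + 1 : ℤ).toNat + (D - 2 * M * l - M + 1 : ℤ).toNat := by
  unfold rowW
  rw [card_union_of_disjoint]
  · rw [card_product, card_product, card_singleton, card_singleton, Int.card_Icc, Int.card_Icc]
    simp
  · rw [Finset.disjoint_left]
    rintro ⟨x, y⟩ h1 h2
    rw [mem_product, mem_singleton] at h1 h2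
    have := h1.2
    have := h2.2
    simp only at *
    omega

theorem WM_finite {M : ℕ} (hM : 1 ≤ M) (D : ℕ) : (WM M D).Finite := by
  refine (Finset.finite_toSet (Icc (0 : ℤ) D ×ˢ Icc (0 : ℤ) D)).subset ?_
  rintro ⟨x, y⟩ ⟨h1, h2, h3⟩
  simp only at h1 h2 h3
  rw [Finset.mem_coe, mem_product, mem_Icc, mem_Icc]
  have h4 : (y : ℤ) ≤ M * y := by nlinarith [(by exact_mod_cast hM : (1 : ℤ) ≤ M)]
  have h5 : 0 ≤ (M : ℤ) * y := by positivity
  exact ⟨⟨h1, by simp only; omega⟩, ⟨h2, by simp only; omega⟩⟩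

theorem rowW_sub {M D l : ℕ} (hl : 2 * M * l ≤ D) : ↑(rowW M D l) ⊆ WM M D := by
  rintro ⟨x, y⟩ h
  have hl' : 2 * (M : ℤ) * l ≤ D := by exact_mod_cast hl
  unfold rowW at h
  rw [Finset.mem_coe, mem_union, mem_product, mem_product, mem_singleton, mem_singleton, mem_Icc,
    mem_Icc] at h
  rcases h with ⟨⟨h1, h2⟩, h3⟩ | ⟨⟨h1, h2⟩, h3⟩
  · simp only at h1 h2 h3
    subst h3
    refine ⟨h1, by positivity, ?_⟩
    simp only
    have e : (M : ℤ) * (2 * l) = 2 * M * l := by ring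
    rw [e]; omega
  · simp only at h1 h2 h3
    subst h3
    refine ⟨h1, by positivity, ?_⟩
    simp only
    have e : (M : ℤ) * (2 * l + 1) = 2 * M * l + M := by ring
    rw [e]; omega

/-- count of the rows; there is no condition on the residue of `D` -/
theorem card_rowsL {β : Type} [Fintype β] {M D L : ℕ} (hM : Fintype.card β + 1 = M) (hM2 : 2 ≤ M)
    (hL : 2 * M * L ≤ D + M + 2) {a b : β → ℝ} (ha : ∀ i, 0 < a i) (hb : ∀ i, 0 < b i) {ω : ℕ → ℝ}
    (hω : ∀ W, 0 < ω W)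
    (h : ∀ W, ∑ i, (⌈ω W / a i⌉₊ + ⌈ω W / b i⌉₊) = max (2 * W + 1) (2 * Fintype.card β)) :
    (∀ i, (SSL M D L (a i) (b i) ω).Finite) ∧ (WML M D L).Finite ∧
      ∑ i, (SSL M D L (a i) (b i) ω).ncard ≤ (WML M D L).ncard := by
  classical
  have hM1 : 1 ≤ M := by omega
  have hWf : (WML M D L).Finite := (WM_finite hM1 D).subset fun m hm => hm.1
  have hfin : ∀ i, (SSL M D L (a i) (b i) ω).Finite := fun i =>
    (Finset.finite_toSet _).subset (SSL_sub (ha i) (hb i) ω)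
  refine ⟨hfin, hWf, ?_⟩
  have hlD' : ∀ l < L, M ≤ D - 2 * M * l + 2 ∧ 2 * M * l ≤ D := by
    intro l hl
    have h1 : 2 * M * (l + 1) ≤ 2 * M * L := Nat.mul_le_mul_left _ hl
    rw [mul_add, mul_one] at h1
    omega
  have h1 : ∀ i, (SSL M D L (a i) (b i) ω).ncard ≤
      ∑ l ∈ range L, (rowS M D (a i) (b i) ω l).card := by
    intro i
    have := Set.ncard_le_ncard (SSL_sub (D := D) (M := M) (L := L) (ha i) (hb i) ω)
      (Finset.finite_toSet _)
    rw [Set.ncard_coe_finset] at this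
    exact this.trans card_biUnion_le
  have h2 : ∑ l ∈ range L, (rowW M D l).card ≤ (WML M D L).ncard := by
    rw [← card_biUnion]
    · have h3 : (↑((range L).biUnion (rowW M D)) : Set (ℤ × ℤ)) ⊆ WML M D L := by
        intro m hm
        rw [Finset.mem_coe, mem_biUnion] at hm
        obtain ⟨l, hl, hm⟩ := hm
        rw [mem_range] at hl
        refine ⟨rowW_sub (hlD' l hl).2 hm, ?_⟩
        unfold rowW at hm
        rw [mem_union, mem_product, mem_product, mem_singleton, mem_singleton] at hm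
        omega
      have := Set.ncard_le_ncard h3 hWf
      rwa [Set.ncard_coe_finset] at this
    · intro l _ l' _ hne
      rw [Function.onFun, Finset.disjoint_left]
      rintro ⟨x, y⟩ g1 g2
      unfold rowW at g1 g2
      rw [mem_union, mem_product, mem_product, mem_singleton, mem_singleton] at g1 g2
      simp only at g1 g2
      omega
  refine (sum_le_sum fun i _ => h1 i).trans (le_trans ?_ h2)
  rw [sum_comm]
  refine sum_le_sum fun l hl => ?_
  rw [mem_range] at hl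
  obtain ⟨W, hW⟩ : ∃ W : ℕ, W = D - 2 * M * l := ⟨_, rfl⟩
  obtain ⟨hWmod, hlD⟩ := hlD' l hl
  rw [← hW] at hWmod
  have h5 : ∑ i, (rowS M D (a i) (b i) ω l).card + Fintype.card β =
      max (2 * W + 1) (2 * Fintype.card β) := by
    rw [← h W]
    have e : Fintype.card β = ∑ _i : β, 1 := by simp
    conv_lhs => rw [e]
    rw [← sum_add_distrib]
    refine sum_congr rfl fun i _ => ?_
    rw [hW]
    exact card_rowS M D (ha i) hω l
  rw [card_rowW]
  have e1 : (D - 2 * M * l + 1 : ℤ) = (W : ℤ) + 1 := by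
    rw [hW, Nat.cast_sub hlD]; push_cast; ring
  have e2 : (D - 2 * M * l - M + 1 : ℤ) = (W : ℤ) - M + 1 := by
    rw [hW, Nat.cast_sub hlD]; push_cast; ring
  rw [e1, e2]
  rcases le_total (2 * W + 1) (2 * Fintype.card β) with g | g
  · rw [max_eq_right g] at h5
    omega
  · rw [max_eq_left g] at h5
    omega

end Pool.Agent.Y205.MD
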