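import Pool.Agent.Y205.MD.RowsL
import Pool.Agent.TH745.MN.SurB

/-! Independence for block systems of the plane, without conditions on residues (after
helper745). -/

set_option autoImplicit false

namespace Pool.Agent.Y205.MD

open Finset Pool.Agent.TH176.Nag Pool.Agent.TH603.Sur Pool.Agent.TH745.MN Filter Topology

/-- independence in the weighted plane `P(1, 1, M)` from independence on `M - 1` triangles -/
theorem Sur_coreL {r M D : ℕ} (hM : r + 1 = M) (hr : 1 ≤ r)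
    {κ : Fin r → Type} [∀ i, Fintype (κ i)] {w : (Σ i, κ i) → ℕ} {x y : Fin r → ℝ}
    (hx : ∀ i, 0 < x i) (hy : ∀ i, 0 < y i) (hxy : ∑ i, (x i + y i) ≤ 1)
    (hirr : ∀ p q : Fin r ⊕ Fin r, p ≠ q → Irrational (Sum.elim x y p / Sum.elim x y q))
    (h : ∀ i, Sur (fun j => w ⟨i, j⟩) {m : ℤ × ℤ | 0 ≤ m.2 ∧
      -(y i * ((2 * (D : ℝ) + 1 - 2 * r) - 4 * M * m.2)) < (m.1 : ℝ) ∧
      (m.1 : ℝ) < x i * ((2 * (D : ℝ) + 1 - 2 * r) - 4 * M * m.2)}) : Sur w (WM M D) := by
  classical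
  have hne : Nonempty (Fin r ⊕ Fin r) := ⟨Sum.inl ⟨0, by omega⟩⟩
  obtain ⟨a, ha⟩ : ∃ a : Fin r → ℝ, ∀ i, a i = 1 / x i := ⟨_, fun _ => rfl⟩
  obtain ⟨b, hb⟩ : ∃ b : Fin r → ℝ, ∀ i, b i = 1 / y i := ⟨_, fun _ => rfl⟩
  have ha0 : ∀ i, 0 < a i := fun i => by rw [ha]; exact one_div_pos.2 (hx i)
  have hb0 : ∀ i, 0 < b i := fun i => by rw [hb]; exact one_div_pos.2 (hy i)
  have hc0 : ∀ p : Fin r ⊕ Fin r, 0 < Sum.elim a b p := by
    rintro (i | i)
    · exact ha0 i
    · exact hb0 i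
  have hcx : ∀ p : Fin r ⊕ Fin r, Sum.elim a b p = 1 / Sum.elim x y p := by
    rintro (i | i)
    · exact ha i
    · exact hb i
  have hcirr : ∀ p q : Fin r ⊕ Fin r, p ≠ q → Irrational (Sum.elim a b p / Sum.elim a b q) := by
    intro p q hpq
    rw [hcx, hcx]
    have e : 1 / Sum.elim x y p / (1 / Sum.elim x y q) = Sum.elim x y q / Sum.elim x y p := by
      rw [one_div, one_div, div_inv_eq_mul, mul_comm, div_eq_mul_inv]
    rw [e]
    exact hirr q p (Ne.symm hpq)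
  have hω : ∀ W : ℕ, ∃ ω : ℝ, 0 < ω ∧ ∑ p : Fin r ⊕ Fin r, ⌈ω / Sum.elim a b p⌉₊ =
      max (2 * W + 1) (2 * r) := by
    intro W
    apply Pool.Agent.TH370.MN.exists_sum_ceil _ hc0 hcirr
    rw [Fintype.card_sum, Fintype.card_fin]
    have := le_max_right (2 * W + 1) (2 * r)
    omega
  choose ω hω0 hω1 using hω
  have hω2 : ∀ W, ∑ i, (⌈ω W / a i⌉₊ + ⌈ω W / b i⌉₊) = max (2 * W + 1) (2 * r) := by
    intro W
    rw [← hω1 W, Fintype.sum_sum_type, sum_add_distrib]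
    rfl
  have hω3 : ∀ W : ℕ, 2 * (W : ℝ) + 1 - 2 * r < ω W := by
    intro W
    have h1 : ((∑ i, (⌈ω W / a i⌉₊ + ⌈ω W / b i⌉₊) : ℕ) : ℝ) <
        ω W * ∑ i, (x i + y i) + 2 * r := by
      push_cast
      rw [mul_sum]
      have h2 : ∀ i ∈ (univ : Finset (Fin r)), ((⌈ω W / a i⌉₊ : ℝ) + ⌈ω W / b i⌉₊) <
          ω W * (x i + y i) + 2 := by
        intro i _
        have e1 : ω W / a i = ω W * x i := by
          rw [ha, one_div, div_inv_eq_mul]
        have e2 : ω W / b i = ω W * y i := by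
          rw [hb, one_div, div_inv_eq_mul]
        rw [e1, e2]
        have g1 := Nat.ceil_lt_add_one (mul_nonneg (hω0 W).le (hx i).le)
        have g2 := Nat.ceil_lt_add_one (mul_nonneg (hω0 W).le (hy i).le)
        linarith
      have h3 := sum_lt_sum_of_nonempty ⟨⟨0, by omega⟩, mem_univ _⟩ h2
      rw [sum_add_distrib (f := fun i => ω W * (x i + y i))] at h3
      simp only [sum_const, card_univ, Fintype.card_fin, nsmul_eq_mul] at h3
      linarith
    have h4 : ((2 * W + 1 : ℕ) : ℝ) ≤ ((∑ i, (⌈ω W / a i⌉₊ + ⌈ω W / b i⌉₊) : ℕ) : ℝ) := by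
      rw [hω2 W]
      exact_mod_cast le_max_left _ _
    push_cast at h4 h1
    have h5 : ω W * ∑ i, (x i + y i) ≤ ω W := mul_le_of_le_one_right (hω0 W).le hxy
    linarith
  obtain ⟨L, hLd⟩ : ∃ L, L = (D + 1 + M) / (2 * M) := ⟨_, rfl⟩
  have hM1 : 0 < 2 * M := by omega
  have hL1 : 2 * M * L ≤ D + 1 + M := by rw [hLd]; exact Nat.mul_div_le _ _
  obtain ⟨hf1, hf2, hcard⟩ := card_rowsL (β := Fin r) (M := M) (D := D) (L := L)
    (by rw [Fintype.card_fin]; exact hM) (by omega) (by omega) ha0 hb0 hω0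
    (by intro W; rw [Fintype.card_fin]; exact hω2 W)
  have hWML : WML M D L ⊆ WM M D := fun m hm => hm.1
  refine Sur.mono ?_ hWML
  rw [← hf2.coe_toFinset]
  refine Pool.Agent.TH592.MN.Sur_sigma (S' := fun i => (hf1 i).toFinset) ?_ ?_ ?_
  · rw [← Set.ncard_eq_toFinset_card _ hf2]
    refine le_trans (le_of_eq ?_) hcard
    exact sum_congr rfl fun i _ => (Set.ncard_eq_toFinset_card _ (hf1 i)).symm
  · intro κ' _ v hv
    rw [hf2.coe_toFinset]
    refine Emp_keyL (by omega) ha0 hb0 (ω := ω) (fun W => ⟨hω0 W, ?_⟩) ?_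
    · rw [hω2 W]; exact le_max_left _ _
    · intro i
      have := hv i
      rwa [(hf1 i).coe_toFinset] at this
  · intro i
    rw [(hf1 i).coe_toFinset]
    refine (h i).mono ?_
    rintro ⟨m, l⟩ ⟨hl, h1, h2⟩
    simp only at hl h1 h2
    obtain ⟨l, rfl⟩ := Int.eq_ofNat_of_zero_le hl
    simp only [Int.cast_natCast] at h1 h2
    have hpos : 0 < (2 * (D : ℝ) + 1 - 2 * r) - 4 * M * l := by
      by_contra hcon
      push Not at hcon
      have g1 : x i * ((2 * (D : ℝ) + 1 - 2 * r) - 4 * M * l) ≤ 0 :=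
        mul_nonpos_of_nonneg_of_nonpos (hx i).le hcon
      have g2 : y i * ((2 * (D : ℝ) + 1 - 2 * r) - 4 * M * l) ≤ 0 :=
        mul_nonpos_of_nonneg_of_nonpos (hy i).le hcon
      linarith
    have hlD : 2 * M * l ≤ D := by
      have hr' : (1 : ℝ) ≤ r := by exact_mod_cast hr
      have : (2 * M * l : ℝ) < D := by linarith
      exact_mod_cast this.le
    have hW : ((D - 2 * M * l : ℕ) : ℝ) = (D : ℝ) - 2 * M * l := by
      rw [Nat.cast_sub hlD]; push_cast; ring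
    have h3 := hω3 (D - 2 * M * l)
    rw [hW] at h3
    have h4 : (2 * (D : ℝ) + 1 - 2 * r) - 4 * M * l < ω (D - 2 * M * l) := by linarith
    have hlL : l < L := by
      have hMr : (M : ℝ) = r + 1 := by rw [← hM]; push_cast; ring
      have g1 : (4 * M * l : ℝ) < 2 * (D : ℝ) + 3 - 2 * M := by
        have : (2 * (D : ℝ) + 1 - 2 * r) = 2 * D + 3 - 2 * M := by rw [hMr]; ring
        linarith
      have g2 : (((4 * M * l + 2 * M : ℕ)) : ℝ) < ((2 * D + 3 : ℕ) : ℝ) := by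
        push_cast
        linarith
      have g3 : 4 * M * l + 2 * M < 2 * D + 3 := by exact_mod_cast g2
      have g4 : 2 * M * (l + 1) ≤ D + 1 + M := by
        have e : 4 * M * l = 2 * (2 * M * l) := by ring
        rw [mul_add, mul_one]
        omega
      have g5 : l + 1 ≤ L := by
        rw [hLd, Nat.le_div_iff_mul_le hM1, mul_comm]
        exact g4
      omega
    refine ⟨⟨hl, by simp only; exact_mod_cast hlD, ?_, ?_⟩, by simp only; exact_mod_cast hlL⟩
    · simp only [Int.toNat_natCast]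
      rw [ha, one_div_mul_eq_div, div_lt_iff₀ (hx i)]
      have := mul_lt_mul_of_pos_left h4 (hx i)
      linarith
    · simp only [Int.toNat_natCast]
      rw [hb, one_div_mul_eq_div, ← neg_div, div_lt_iff₀ (hy i)]
      have := mul_lt_mul_of_pos_left h4 (hy i)
      linarith

/-- independence from shapes with open conditions -/
theorem Sur_shapesL {r M D : ℕ} (hM : r + 1 = M) (hr : 1 ≤ r)
    {κ : Fin r → Type} [∀ i, Fintype (κ i)] {w : (Σ i, κ i) → ℕ} {σ : Fin r → ℝ}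
    (hσ : ∑ i, σ i < 4 * M)
    (h : ∀ i, ∀ᶠ ε in 𝓝[>] (0 : ℝ), ∃ lx ux ly uy : ℝ, 0 < lx ∧ lx < ux ∧ 0 < ly ∧ ly < uy ∧
      ux + uy ≤ σ i + 2 * ε ∧
      ∀ X Y : ℝ, lx < X → X < ux → ly < Y → Y < uy →
        Sur (fun j => w ⟨i, j⟩) (Nd M (2 * (D : ℝ) + 1 - 2 * r) X Y)) : Sur w (WM M D) := by
  have hM0 : (0 : ℝ) < M := by
    have : 0 < M := by omega
    exact_mod_cast this
  have c1 := eventually_all.2 h
  have c2 := lin_ev (2 * (r : ℝ)) hσ
  obtain ⟨ε, h1, h2⟩ := (c1.and c2).exists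
  choose lx ux ly uy a1 a2 a3 a4 a5 a6 using h1
  obtain ⟨z, hz, hirr⟩ := Pool.Agent.TH522.MN.exists_generic (J := Fin r ⊕ Fin r)
    (Sum.elim lx ly) (Sum.elim ux uy) (by rintro (i | i) <;> simp [a1, a3])
    (by rintro (i | i) <;> simp [a2, a4])
  have z1 : ∀ i, lx i < z (Sum.inl i) ∧ z (Sum.inl i) < ux i := fun i => hz (Sum.inl i)
  have z2 : ∀ i, ly i < z (Sum.inr i) ∧ z (Sum.inr i) < uy i := fun i => hz (Sum.inr i)
  refine Sur_coreL hM hr (x := fun i => z (Sum.inl i) / (4 * M))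
    (y := fun i => z (Sum.inr i) / (4 * M)) ?_ ?_ ?_ ?_ ?_
  · intro i
    have := (z1 i).1
    have := a1 i
    exact div_pos (by linarith) (by positivity)
  · intro i
    have := (z2 i).1
    have := a3 i
    exact div_pos (by linarith) (by positivity)
  · have e : ∑ i, (z (Sum.inl i) / (4 * M) + z (Sum.inr i) / (4 * M)) =
        (∑ i, (z (Sum.inl i) + z (Sum.inr i))) / (4 * M) := by
      rw [sum_div]
      exact sum_congr rfl fun i _ => (add_div _ _ _).symm
    rw [e, div_le_one (by positivity)]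
    have h3 : ∑ i, (z (Sum.inl i) + z (Sum.inr i)) ≤ ∑ i, (σ i + 2 * ε) := by
      refine sum_le_sum fun i _ => ?_
      have := (z1 i).2
      have := (z2 i).2
      have := a5 i
      linarith
    rw [sum_add_distrib (f := σ), sum_const, card_univ, Fintype.card_fin, nsmul_eq_mul] at h3
    linarith
  · have e : ∀ p : Fin r ⊕ Fin r, Sum.elim (fun i => z (Sum.inl i) / (4 * (M : ℝ)))
        (fun i => z (Sum.inr i) / (4 * M)) p = z p / (4 * M) := by
      rintro (i | i) <;> rfl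
    intro p q hpq
    rw [e, e, div_div_div_cancel_right₀ (by positivity)]
    exact hirr p q hpq
  · intro i
    exact a6 i _ _ (z1 i).1 (z1 i).2 (z2 i).1 (z2 i).2

/-- **Independence for blocks**, in every degree. -/
theorem Sur_blocksL {K d r : ℕ} (hK : 2 ≤ K) (hr : r + 1 = K ^ 2)
    {κ : Fin r → Type} [∀ i, Fintype (κ i)] {w : (Σ i, κ i) → ℕ} {n b : Fin r → ℝ}
    (hrow : ∀ i, ∀ k : ℕ, (∃ j, k < w ⟨i, j⟩) →
      ((∑ j, (w ⟨i, j⟩ - k) : ℕ) : ℝ) + n i * (k + 1) ≤ b i)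
    (hn : ∀ i, 0 < Fintype.card (κ i) → 1 < n i)
    (hnb : ∀ i, 0 < Fintype.card (κ i) → n i ≤ b i)
    (h1 : ∀ i, 0 < Fintype.card (κ i) → 2 * K * b i < n i * ((d : ℝ) + 3 - 1 / (2 * K)))
    (h2 : ∑ i, (if 0 < Fintype.card (κ i) then max (((d : ℝ) + 3 - 1 / (2 * K)) / (2 * K))
      (b i) ^ 2 / n i else 0) < ((d : ℝ) + 3 - 1 / (2 * K)) ^ 2) :
    Sur w {m : ℤ × ℤ | 0 ≤ m.1 ∧ 0 ≤ m.2 ∧ m.1 + m.2 ≤ (d : ℤ)} := by
  classical
  by_cases hne : ∃ i, 0 < Fintype.card (κ i)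
  swap
  · push Not at hne
    have : ∀ i, IsEmpty (κ i) := fun i => Fintype.card_eq_zero_iff.1 (Nat.le_zero.1 (hne i))
    have : IsEmpty (Σ i, κ i) := by rwa [isEmpty_sigma]
    exact Sur_of_isEmpty w _
  have hK0 : (2 : ℝ) ≤ K := by exact_mod_cast hK
  obtain ⟨R, hR⟩ : ∃ R : ℝ, R = (d : ℝ) + 3 - 1 / (2 * K) := ⟨_, rfl⟩
  rw [← hR] at h2
  simp only [← hR] at h1 h2
  have hRK : 2 * (K : ℝ) < R := by
    obtain ⟨i, hi⟩ := hne
    have g2 := h1 i hi
    have g3 : 0 < n i := by linarith [hn i hi]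
    have g4 : 2 * K * n i ≤ 2 * K * b i :=
      mul_le_mul_of_nonneg_left (hnb i hi) (by positivity)
    have g5 : n i * (2 * K) < n i * R := by linarith
    exact lt_of_mul_lt_mul_left g5 g3.le
  have hR0 : 0 < R := by linarith
  have hKd : 2 * K + 1 ≤ d + 3 := by
    have h0 : (0 : ℝ) < 1 / (2 * K) := by positivity
    have : (2 * K : ℝ) < d + 3 := by rw [hR] at hRK; linarith
    have : 2 * K < d + 3 := by exact_mod_cast this
    omega
  have hKK : 4 ≤ K ^ 2 := by nlinarith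
  obtain ⟨D, hDe⟩ : ∃ D, D + K ^ 2 + 2 = K * (d + 3) := by
    have h5 : K ^ 2 + 2 ≤ K * (d + 3) := by
      have h6 : K * (2 * K + 1) ≤ K * (d + 3) := Nat.mul_le_mul_left K hKd
      nlinarith
    exact ⟨K * (d + 3) - (K ^ 2 + 2), by omega⟩
  refine Pool.Agent.TH48.MN.Sur_plane_of_WM (K := K) (D := D) (by omega) (by omega) ?_
  -- the shapes
  obtain ⟨A, hA⟩ : ∃ A : Fin r → ℝ, ∀ i, A i = max (R / (2 * K)) (b i) := ⟨_, fun _ => rfl⟩
  simp only [← hA] at h2
  have hA0 : ∀ i, 0 < A i := fun i => by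
    rw [hA]; exact lt_max_of_lt_left (by positivity)
  obtain ⟨u, hu⟩ : ∃ u : Fin r → ℝ, ∀ i, u i = 4 * (K : ℝ) ^ 2 / R ^ 2 *
      (if 0 < Fintype.card (κ i) then A i ^ 2 / n i else 0) :=
    ⟨_, fun _ => rfl⟩
  have hu1 : ∑ i, u i < 4 * (K : ℝ) ^ 2 := by
    simp only [hu]
    rw [← mul_sum]
    have h4 := mul_lt_mul_of_pos_left h2 (show 0 < 4 * (K : ℝ) ^ 2 / R ^ 2 by positivity)
    rwa [div_mul_cancel₀ _ (by positivity)] at h4
  have hN0 : ∀ i, 0 < Fintype.card (κ i) → 0 < n i := fun i hi => by linarith [hn i hi]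
  have hu2 : ∀ i, 0 < Fintype.card (κ i) → n i * u i = (2 * K * A i / R) ^ 2 := by
    intro i hi
    have := hN0 i hi
    rw [hu, if_pos hi]
    field_simp
    ring
  have hA1 : ∀ i, 1 ≤ 2 * K * A i / R := by
    intro i
    rw [one_le_div hR0]
    have : R / (2 * K) ≤ A i := by rw [hA]; exact le_max_left _ _
    rw [div_le_iff₀ (by positivity)] at this
    linarith
  have hA2 : ∀ i, 2 * K * b i / R ≤ 2 * K * A i / R := by
    intro i
    have : b i ≤ A i := by rw [hA]; exact le_max_right _ _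
    gcongr
  have hu5 : ∀ i, ¬ 0 < Fintype.card (κ i) → u i = 0 := by
    intro i hi
    rw [hu, if_neg hi, mul_zero]
  have hu6 : ∀ i, 0 < Fintype.card (κ i) → 0 < u i := by
    intro i hi
    have := hN0 i hi
    have := hA0 i
    rw [hu, if_pos hi]
    positivity
  have hA3 : ∀ i, 0 < Fintype.card (κ i) → 2 * K * A i / R < n i := by
    intro i hi
    have g2 := h1 i hi
    have g3 := hn i hi
    rw [div_lt_iff₀ hR0, hA, mul_max_of_nonneg _ _ (by positivity)]
    refine max_lt ?_ g2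
    rw [mul_div_cancel₀ _ (by positivity)]
    nlinarith
  have hu4 : ∀ i, 0 < Fintype.card (κ i) → u i < n i := by
    intro i hi
    have g0 := hN0 i hi
    have g3 := hA3 i hi
    have g4 := hA1 i
    have : n i * u i < n i * n i := by
      rw [hu2 i hi, sq]
      exact mul_lt_mul'' g3 g3 (by linarith) (by linarith)
    exact lt_of_mul_lt_mul_left this g0.le
  obtain ⟨ε, hε0, hε1, hε2, hε3⟩ : ∃ ε : ℝ, 0 < ε ∧ ∑ i, (u i + u i * ε) < 4 * (K : ℝ) ^ 2 ∧
      (∀ i, 0 < Fintype.card (κ i) → u i + u i * ε < n i) ∧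
      ∀ i, u i < 1 → u i + u i * ε < 1 := by
    have e0 : ∀ᶠ ε in 𝓝[>] (0 : ℝ), 0 < ε := eventually_mem_nhdsWithin
    have e1 := lin_ev (∑ i, u i) hu1
    have e2 : ∀ᶠ ε in 𝓝[>] (0 : ℝ), ∀ i, 0 < Fintype.card (κ i) → u i + u i * ε < n i := by
      rw [eventually_all]
      intro i
      by_cases hi : 0 < Fintype.card (κ i)
      · exact (lin_ev (u i) (hu4 i hi)).mono fun ε h _ => h
      · exact Eventually.of_forall fun ε h => absurd h hi
    have e3 : ∀ᶠ ε in 𝓝[>] (0 : ℝ), ∀ i, u i < 1 → u i + u i * ε < 1 := by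
      rw [eventually_all]
      intro i
      by_cases hi : u i < 1
      · exact (lin_ev (u i) hi).mono fun ε h _ => h
      · exact Eventually.of_forall fun ε h => absurd h hi
    obtain ⟨ε, g0, g1, g2, g3⟩ := (e0.and (e1.and (e2.and e3))).exists
    refine ⟨ε, g0, ?_, g2, g3⟩
    rw [sum_add_distrib, ← sum_mul]
    exact g1
  have hrr : (r : ℝ) = (K : ℝ) ^ 2 - 1 := by
    have : ((r + 1 : ℕ) : ℝ) = ((K ^ 2 : ℕ) : ℝ) := by rw [hr]
    push_cast at this
    linarith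
  have hb' : 2 * (D : ℝ) + 1 - 2 * ((K : ℝ) ^ 2 - 1) + 4 * K ^ 2 = 2 * K * R := by
    have g2 : ((D + K ^ 2 + 2 : ℕ) : ℝ) = ((K * (d + 3) : ℕ) : ℝ) := by rw [hDe]
    push_cast at g2
    have g3 : 2 * (K : ℝ) * (1 / (2 * K)) = 1 := by field_simp
    have g4 : 2 * K * R = 2 * (K * ((d : ℝ) + 3)) - 2 * (K : ℝ) * (1 / (2 * K)) := by
      rw [hR]; ring
    rw [g4, g3, ← g2]
    ring
  refine Sur_shapesL hr ?_ (σ := fun i => u i + u i * ε) (by push_cast; exact hε1) ?_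
  · omega
  intro i
  by_cases hi : 0 < Fintype.card (κ i)
  · have g0 := hN0 i hi
    have g4 := hu6 i hi
    have g5 : u i < u i + u i * ε := by
      have := mul_pos g4 hε0
      linarith
    have hNu : n i * u i < n i * (u i + u i * ε) := mul_lt_mul_of_pos_left g5 g0
    have h1A := hA1 i
    refine site_ev (n := n i) (Bn := b i) (hrow i) (by omega) (σ := u i + u i * ε) ?_
      (by linarith) ?_ (hε2 i hi) ?_ ?_ ?_
    · push_cast
      rw [hrr, hb']
      positivity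
    · rcases lt_or_ge (u i) 1 with h | h
      · exact (hε3 i h).ne
      · exact (lt_of_le_of_lt h g5).ne'
    · refine lt_of_le_of_lt ?_ hNu
      rw [hu2 i hi]
      exact one_le_pow₀ h1A
    · exact g0.le.trans (hnb i hi)
    · push_cast
      rw [hrr, hb']
      have hsq : 2 * K * A i / R < √(n i * (u i + u i * ε)) := by
        apply Real.lt_sqrt_of_sq_lt
        rw [← hu2 i hi]
        exact hNu
      have h8 : b i = 2 * K * b i / R * (2 * K * R / (4 * K ^ 2)) := by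
        field_simp
        ring
      rw [h8]
      exact mul_lt_mul_of_pos_right (lt_of_le_of_lt (hA2 i) hsq) (by positivity)
  · have : IsEmpty (κ i) := Fintype.card_eq_zero_iff.1 (by omega)
    have e : u i + u i * ε = 0 := by rw [hu5 i hi]; ring
    simp only [e]
    exact site_ev0

end Pool.Agent.Y205.MD
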